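import Pool.Agent.Lib.MP_87d05f_lc.SP.Stm

/-!
# SPARSIFIER, piece `tab` (helper18): the table computes the payoffs
-/

set_option autoImplicit false

namespace Pool.Agent.Lib.MP_87d05f_lc.SP

open Pool.Agent.PolyTime Finset

lemma tab_mem {d g : ℕ} {ar : Fin g → ℕ} (φ : (i : Fin g) → (Fin (ar i) → Fin d) → ℕ)
    (e : (List Bool × List ℕ) × ℕ) :
    e ∈ tabV φ ↔ ∃ (i : Fin g) (f : Fin (ar i) → Fin d),
      ((Nat.bits (i : ℕ), List.ofFn (fun j => (f j : ℕ))), φ i f) = e := by
  unfold tabV
  rw [List.mem_map]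
  constructor
  · rintro ⟨x, -, hx⟩
    exact ⟨x.1, x.2, hx⟩
  · rintro ⟨i, f, hf⟩
    exact ⟨⟨i, f⟩, by simp, hf⟩

lemma tab_key {d g : ℕ} {ar : Fin g → ℕ} (φ : (i : Fin g) → (Fin (ar i) → Fin d) → ℕ)
    (i i' : Fin g) (f : Fin (ar i) → Fin d) (f' : Fin (ar i') → Fin d)
    (h : (Nat.bits (i' : ℕ), List.ofFn (fun j => (f' j : ℕ))) =
      (Nat.bits (i : ℕ), List.ofFn (fun j => (f j : ℕ)))) : φ i' f' = φ i f := by
  rw [Prod.mk.injEq] at h
  obtain ⟨h1, h2⟩ := h
  have h3 : (i' : ℕ) = i := by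
    have h4 := congrArg unbits h1
    rwa [unbits_bits, unbits_bits] at h4
  have h5 : i' = i := Fin.ext h3
  subst h5
  have h6 := List.ofFn_injective h2
  have h7 : f' = f := by
    funext j
    exact Fin.ext (congrFun h6 j)
  rw [h7]

theorem tab : TabS := by
  intro d g ar φ
  refine ⟨?_, ?_, ?_⟩
  · intro a c
    obtain ⟨i, v⟩ := c
    have hk : ((wordC (⟨i, v⟩ : Con ar)).headD [],
        (wordC (⟨i, v⟩ : Con ar)).tail.map (fun w => (a (unbits w) : ℕ))) =
        (Nat.bits (i : ℕ), List.ofFn (fun j => ((a (v j) : Fin d) : ℕ))) := by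
      unfold wordC
      simp only [List.headD_cons, List.tail_cons, List.map_map]
      rw [List.map_ofFn]
      congr 2
      funext j
      simp [unbits_bits]
    unfold payW
    rw [hk]
    rcases hx : (tabV φ).find? (fun e => decide (e.1 =
        (Nat.bits (i : ℕ), List.ofFn (fun j => ((a (v j) : Fin d) : ℕ))))) with _ | e
    · exfalso
      rw [List.find?_eq_none] at hx
      have := hx ((Nat.bits (i : ℕ), List.ofFn (fun j => ((a (v j) : Fin d) : ℕ))),
        φ i (fun j => a (v j))) ((tab_mem φ _).mpr ⟨i, fun j => a (v j), rfl⟩)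
      simp at this
    · have h1 := List.find?_some hx
      have h2 := List.mem_of_find?_eq_some hx
      rw [tab_mem] at h2
      obtain ⟨i', f', rfl⟩ := h2
      simp only [decide_eq_true_eq] at h1
      rw [hx]
      exact tab_key φ i i' (fun j => a (v j)) f' h1
  · intro A A' c h
    have e : c.tail.map A = c.tail.map A' := List.map_congr_left h
    unfold payW
    rw [e]
  · intro Φ A c h
    unfold payW
    rcases hx : (tabV φ).find? (fun e => decide (e.1 = (c.headD [], c.tail.map A))) with _ | e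
    · rw [hx]
      exact Nat.zero_le _
    · have h2 := List.mem_of_find?_eq_some hx
      rw [tab_mem] at h2
      obtain ⟨i', f', rfl⟩ := h2
      rw [hx]
      exact h i' f'

end Pool.Agent.Lib.MP_87d05f_lc.SP
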