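import Pool.Agent.Lib.MP_87d05f_lc.SP.P.nsep

set_option autoImplicit false

/-!
Piece nfnd: approximation in time `2 ^ (n / b)`.
-/

namespace Pool.Agent.Lib.MP_87d05f_lc.SP

open Pool.Agent.PolyTime Function Turing

/-- unary numbers separated by `false` -/
def nfndU (w : List Bool) : List ℕ :=
  w.foldr (fun b acc => bif b then (acc.headD 0 + 1) :: acc.tail else 0 :: acc) []

theorem nfnd_unary (k : ℕ) (w : List Bool) :
    nfndU (List.replicate k true ++ (false :: w)) = k :: nfndU w := by
  induction k with
  | zero => rfl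
  | succ k ih =>
    rw [List.replicate_succ, List.cons_append]
    unfold nfndU at ih ⊢
    rw [List.foldr_cons, ih]
    rfl

theorem nfnd_unary_list {α : Type} (f : α → ℕ) : ∀ l : List α,
    nfndU (l.flatMap (fun v => List.replicate (f v) true ++ [false])) = l.map f
  | [] => rfl
  | v :: l => by
    rw [List.flatMap_cons, List.append_assoc, List.singleton_append, nfnd_unary, List.map_cons,
      nfnd_unary_list f l]

theorem nfndU_ptime : PTime nfndU := by
  unfold nfndU
  refine PTime.foldr (f := fun (_ : List Bool) b (acc : List ℕ) =>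
    bif b then (acc.headD 0 + 1) :: acc.tail else 0 :: acc) PTime.id (PTime.const []) ?_
    (Polynomial.C 10) ?_
  · have hb : PTime (fun p : List Bool × Bool × List ℕ => p.2.1) := PTime.fst.comp PTime.snd
    have ha : PTime (fun p : List Bool × Bool × List ℕ => p.2.2) := PTime.snd.comp PTime.snd
    exact PTime.cond hb (PTime.cons (PTime.succ (PTime.headD ha (PTime.const 0)))
      (PTime.tail ha)) (PTime.cons (PTime.const 0) ha)
  · intro a s b _
    rw [Polynomial.eval_C]
    rcases b with _ | _
    · simp only [cond_false, sz_cons, sz_nat]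
      omega
    · rcases s with _ | ⟨n, s⟩
      · simp only [cond_true, sz_cons, sz_nat, List.headD_nil, List.tail_nil, sz_nil]
        omega
      · simp only [cond_true, sz_cons, sz_nat, List.headD_cons, List.tail_cons]
        omega

/-- the association list of the variables of an instance and the values of the places -/
def nfndA (w w₂ : List Bool) : List (List Bool × ℕ) :=
  ((parseW w).flatMap List.tail).zipIdx.map (fun e => (e.1, (nfndU w₂).getD e.2 0))

/-- the values of all places of the first instance -/
def nfndO (y : List Bool × (List Bool × List Bool)) : List Bool :=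
  (parseW y.1).flatMap (fun c => c.tail.flatMap (fun v =>
    List.replicate (lkv (nfndA y.2.1 y.2.2) v) true ++ [false]))

theorem nfnd_tails {α : Type} [SCode α] {G : α → List (List (List Bool))} (hG : PTime G) :
    PTime (fun a => (G a).flatMap List.tail) :=
  PTime.flatMap (l := G) (f := fun (_ : α) (c : List (List Bool)) => c.tail) hG
    (PTime.tail PTime.snd)

theorem nfndA_ptime {α : Type} [SCode α] {w w₂ : α → List Bool} (hw : PTime w)
    (hw₂ : PTime w₂) : PTime (fun a => nfndA (w a) (w₂ a)) := by
  have h1 : PTime (fun a => ((parseW (w a)).flatMap List.tail).zipIdx) :=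
    PTime.zipIdx (nfnd_tails (parseW_ptime.comp hw))
  exact PTime.map (l := fun a => ((parseW (w a)).flatMap List.tail).zipIdx)
    (f := fun (a : α) (e : List Bool × ℕ) => (e.1, (nfndU (w₂ a)).getD e.2 0)) h1
    ((PTime.fst.comp PTime.snd).pair (PTime.getD (PTime.snd.comp PTime.snd)
      (nfndU_ptime.comp (hw₂.comp PTime.fst)) (PTime.const 0)))

theorem nfnd_lkv {α : Type} [SCode α] {y : α → List (List Bool × ℕ)} {w : α → List Bool}
    (hy : PTime y) (hw : PTime w) : PTime (fun a => lkv (y a) (w a)) := by
  unfold lkv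
  refine PTime.option_casesOn (f := fun a => (y a).find? (fun e => decide (e.1 = w a)))
    (g := fun _ => 0) (h := fun _ (e : List Bool × ℕ) => e.2) ?_ (PTime.const 0)
    (PTime.snd.comp PTime.snd)
  exact PTime.find? (l := y) (p := fun (a : α) (e : List Bool × ℕ) => decide (e.1 = w a)) hy
    (PTime.eq (PTime.fst.comp PTime.snd) (hw.comp PTime.fst))

theorem nfndO_ptime : PTime nfndO := by
  unfold nfndO
  refine PTime.flatMap (l := fun y : List Bool × (List Bool × List Bool) => parseW y.1)
    (f := fun (y : List Bool × (List Bool × List Bool)) (c : List (List Bool)) =>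
      c.tail.flatMap (fun v => List.replicate (lkv (nfndA y.2.1 y.2.2) v) true ++ [false]))
    (parseW_ptime.comp PTime.fst) ?_
  refine PTime.flatMap
    (l := fun q : (List Bool × (List Bool × List Bool)) × List (List Bool) => q.2.tail)
    (f := fun (q : (List Bool × (List Bool × List Bool)) × List (List Bool)) (v : List Bool) =>
      List.replicate (lkv (nfndA q.1.2.1 q.1.2.2) v) true ++ [false]) (PTime.tail PTime.snd) ?_
  refine PTime.append (PTime.replicate (nfnd_lkv (nfndA_ptime ?_ ?_) PTime.snd)
    (PTime.const true)) (PTime.const [false])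
  · exact PTime.fst.comp (PTime.snd.comp (PTime.fst.comp PTime.fst))
  · exact PTime.snd.comp (PTime.snd.comp (PTime.fst.comp PTime.fst))

section sem

variable {d g : ℕ} {ar : Fin g → ℕ}

/-- the variables of the places -/
def nfndV (F : List (Con ar)) : List ℕ := F.flatMap (fun c => List.ofFn c.2)

theorem nfnd_outW (F : List (Con ar)) (a : ℕ → Fin d) : outW F a =
    (nfndV F).flatMap (fun v => List.replicate (a v : ℕ) true ++ [false]) := by
  unfold outW nfndV
  rw [List.flatMap_assoc]

theorem nfnd_zip {α β : Type} (f : α → β) (h : α → ℕ) (l : List α) :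
    (l.map f).zipIdx.map (fun e => (e.1, (l.map h).getD e.2 0)) =
      l.map (fun v => (f v, h v)) := by
  refine List.ext_getElem ?_ ?_
  · simp
  · intro i h1 h2
    rw [List.length_map] at h2
    simp [h2]

theorem nfnd_A (F : List (Con ar)) (a : ℕ → Fin d) :
    nfndA (codeC F) (outW F a) = (nfndV F).map (fun v => (Nat.bits v, (a v : ℕ))) := by
  unfold nfndA
  rw [codeC_eq, parseW_encW, vars_wordC, nfnd_outW, nfnd_unary_list]
  exact nfnd_zip Nat.bits (fun v => (a v : ℕ)) (nfndV F)

theorem nfnd_lkv_eq (a : ℕ → Fin d) (v : ℕ) : ∀ l : List ℕ,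
    lkv (l.map (fun v => (Nat.bits v, (a v : ℕ)))) (Nat.bits v) =
      if v ∈ l then (a v : ℕ) else 0
  | [] => by simp [lkv]
  | u :: l => by
    have ih := nfnd_lkv_eq a v l
    by_cases h : u = v
    · subst h
      simp [lkv]
    · have h1 : Nat.bits u ≠ Nat.bits v := fun h2 => h (bits_injective h2)
      have h2 : lkv ((u :: l).map (fun v => (Nat.bits v, (a v : ℕ)))) (Nat.bits v) =
          lkv (l.map (fun v => (Nat.bits v, (a v : ℕ)))) (Nat.bits v) := by
        unfold lkv
        rw [List.map_cons, List.find?_cons_of_neg]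
        simpa using h1
      rw [h2, ih]
      by_cases h3 : v ∈ l
      · rw [if_pos h3, if_pos (List.mem_cons_of_mem _ h3)]
      · rw [if_neg h3, if_neg]
        intro h4
        rcases List.mem_cons.1 h4 with h4 | h4
        · exact h h4.symm
        · exact h3 h4

open Classical in
/-- the assignment which is zero outside the variables of `F'` -/
noncomputable def nfndB (hd : 1 ≤ d) (F' : List (Con ar)) (a : ℕ → Fin d) : ℕ → Fin d :=
  fun v => if v ∈ nfndV F' then a v else ⟨0, hd⟩

theorem nfnd_O (hd : 1 ≤ d) (F F' : List (Con ar)) (a : ℕ → Fin d) :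
    nfndO (codeC F, (codeC F', outW F' a)) = outW F (nfndB hd F' a) := by
  classical
  have h : ∀ v : ℕ, lkv (nfndA (codeC F') (outW F' a)) (Nat.bits v) =
      (nfndB hd F' a v : ℕ) := by
    intro v
    rw [nfnd_A, nfnd_lkv_eq]
    unfold nfndB
    by_cases h3 : v ∈ nfndV F'
    · rw [if_pos h3, if_pos h3]
    · rw [if_neg h3, if_neg h3]
  unfold nfndO
  simp only
  rw [codeC_eq F, parseW_encW]
  unfold outW
  rw [List.flatMap_map]
  refine List.flatMap_congr fun c _ => ?_
  have h2 : (wordC c).tail = (List.ofFn c.2).map Nat.bits := rfl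
  rw [h2, List.flatMap_map]
  refine List.flatMap_congr fun v _ => ?_
  have h3 := h v
  unfold outW at h3
  rw [h3]

theorem nfnd_valB (φ : (i : Fin g) → (Fin (ar i) → Fin d) → ℕ) (hd : 1 ≤ d)
    (F' : List (Con ar)) (a : ℕ → Fin d) :
    valC φ (nfndB hd F' a) F' = valC φ a F' := by
  classical
  unfold valC
  congr 1
  refine List.map_congr_left fun c hc => ?_
  congr 1
  funext j
  unfold nfndB
  rw [if_pos]
  unfold nfndV
  exact List.mem_flatMap.2 ⟨c, hc, (List.mem_ofFn' _ _).2 ⟨j, rfl⟩⟩

theorem nfnd_len (F' : List (Con ar)) (a : ℕ → Fin d) :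
    (outW F' a).length ≤ d * (codeC F').length := by
  rw [nfnd_outW, List.length_flatMap]
  have h1 : ((nfndV F').map (fun v => (List.replicate (a v : ℕ) true ++ [false]).length)).sum ≤
      d * (nfndV F').length := by
    induction nfndV F' with
    | nil => simp
    | cons v l ih =>
      rw [List.map_cons, List.sum_cons, List.length_cons, List.length_append,
        List.length_replicate, List.length_singleton, Nat.mul_add, Nat.mul_one]
      have := (a v).isLt
      omega
  refine h1.trans (Nat.mul_le_mul_left d ?_)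
  rw [codeC_eq]
  refine le_trans ?_ (encW_length _)
  unfold nfndV
  rw [List.length_flatMap]
  refine le_trans ?_ (Nat.le_add_left _ _)
  rw [List.map_map]
  refine List.sum_le_sum fun c _ => ?_
  simp [wordC]

end sem

theorem nfnd (hu : UsmS) (hn : NthS) : NfndS := by
  intro d g ar φ hd H p q b hp hpq hb
  have hq : 0 < q := by omega
  obtain ⟨K, hK⟩ := nsep_K ar
  obtain ⟨ε, hεd⟩ : ∃ ε : ℚ, ε = (p : ℚ) / (q : ℕ) := ⟨_, rfl⟩
  have hp0 : (0 : ℚ) < p := by exact_mod_cast hp
  have hq0 : (0 : ℚ) < q := by exact_mod_cast hq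
  have hε0 : 0 < ε := by
    rw [hεd]
    positivity
  have hε1 : ε < 1 := by
    rw [hεd, div_lt_one hq0]
    exact_mod_cast hpq
  have hd0 : (0 : ℚ) < d := by exact_mod_cast hd
  have hε₁ : 0 < ε / (8 * (d : ℚ) ^ K) := by positivity
  obtain ⟨D, -, hfind⟩ := hu d g ar φ hd _ hε₁ b hb
  have hmax : GFind (codeC (ar := ar)) (fun _ => True) (goodMax φ (ε / 4)) List.length
      (2 * b * D + 1) := by
    obtain ⟨C, e, tm, e₀, e₁, h⟩ := search_main φ hd H (p := p) (q := 4 * q)
      (b := 2 * b * D + 1) hp (by omega) (by omega)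
    refine ⟨C, e, tm, e₀, e₁, fun F _ => ?_⟩
    obtain ⟨a, ha, hrun⟩ := h F
    refine ⟨outW F a, ⟨a, rfl, fun a' => ?_⟩, hrun⟩
    have h1 := ha a'
    have h2 : (4 * (q : ℚ)) * valC φ a' F ≤ 4 * q * valC φ a F + p * valC φ a' F := by
      exact_mod_cast h1
    have h3 : ε * q = p := by
      rw [hεd]
      field_simp
    have h4 : (4 * (q : ℚ)) * ((1 - ε / 4) * valC φ a' F) ≤ (4 * q) * valC φ a F := by
      have h5 : (4 * (q : ℚ)) * ((1 - ε / 4) * valC φ a' F) =
          4 * q * valC φ a' F - (ε * q) * valC φ a' F := by ring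
      rw [h5, h3]
      linarith
    exact le_of_mul_le_mul_left h4 (by linarith)
  set h₁ : List Bool → ℕ := fun x =>
    mydiv (ded ((parseW x).flatMap List.tail)).length b with hh₁
  have hh₁P : PTime h₁ :=
    mydiv_ptime (PTime.length (ded_ptime (nfnd_tails parseW_ptime))) (PTime.const b)
  have hh₁e : ∀ F : List (Con ar), h₁ (codeC F) = nvC F / b := by
    intro F
    change mydiv (ded ((parseW (codeC F)).flatMap List.tail)).length b = _
    rw [codeC_eq, parseW_encW, nvC_eq, mydiv_eq hb]
  have hQ : PolyB (fun L => (d + 1) * (D * (L + 1) * L)) :=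
    (PolyB.const (d + 1)).mul (((PolyB.const D).mul (PolyB.id.add (PolyB.const 1))).mul PolyB.id)
  have hlenC : ∀ (F F' : List (Con ar)), (∀ c ∈ F', c ∈ F) → F'.length ≤ D * (nvC F + 1) →
      (codeC F').length ≤ D * ((codeC F).length + 1) * (codeC F).length := by
    intro F F' hmem hlen
    have h1 := nsep_code hmem
    have h3 := nvC_le F
    exact h1.trans (Nat.mul_le_mul_right _ (hlen.trans (Nat.mul_le_mul_left _ (by omega))))
  rw [← hεd]
  refine seq_find (en₁ := codeC) (en₂ := codeC) (V₂ := fun _ => True) (μ₂ := List.length)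
    (b₁ := b) (b₂ := 2 * b * D + 1) (h₁ := h₁) (f := fun y => y.2) (h := fun y => h₁ y.1)
    (out := nfndO) hQ hh₁P PTime.snd (hh₁P.comp PTime.fst) nfndO_ptime ?_ ?_ ?_ ?_ hfind hmax
  · intro F _
    exact nvC_le F
  · intro F _
    rw [hh₁e]
    exact ⟨le_rfl, le_rfl⟩
  · intro F _ w hw
    obtain ⟨F', rfl, hmem, hlen, -, -⟩ := nsep_good φ hw
    have h1 := hlenC F F' hmem hlen
    have h2 : (d + 1) * (D * ((codeC F).length + 1) * (codeC F).length) =
        d * (D * ((codeC F).length + 1) * (codeC F).length) +
          D * ((codeC F).length + 1) * (codeC F).length := by ring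
    change (codeC F').length ≤ (d + 1) * (D * ((codeC F).length + 1) * (codeC F).length)
    omega
  · intro F _ w hw
    obtain ⟨F', rfl, hmem, hlen, h0, h1⟩ := nsep_good φ hw
    refine ⟨F', trivial, rfl, ?_, ?_, (hh₁e F).le⟩
    · rintro w₂ ⟨a, rfl, ha⟩
      constructor
      · have h2 := nfnd_len F' a
        have h3 := Nat.mul_le_mul_left d (hlenC F F' hmem hlen)
        have h4 : (d + 1) * (D * ((codeC F).length + 1) * (codeC F).length) =
            d * (D * ((codeC F).length + 1) * (codeC F).length) +
              D * ((codeC F).length + 1) * (codeC F).length := by ring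
        change (outW F' a).length ≤ (d + 1) * (D * ((codeC F).length + 1) * (codeC F).length)
        omega
      · refine ⟨nfndB hd F' a, nfnd_O hd F F' a, ?_⟩
        by_cases hu0 : usC φ F = []
        · intro a'
          rw [nsep_val φ F hu0 a', nsep_val φ F hu0]
          simp
        · obtain ⟨hF0, hval⟩ := h1 hu0
          refine (hn d g K ar φ ε F F' 0 hd hK hε0 hε1 hu0 hF0 hval).2.2 (nfndB hd F' a) ?_
          intro a'
          rw [nfnd_valB]
          exact ha a'
    · change F'.length / (2 * b * D + 1) ≤ h₁ (codeC F)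
      rw [hh₁e]
      exact nsep_div hb hlen

end Pool.Agent.Lib.MP_87d05f_lc.SP
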