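import Pool.Agent.Lib.MP_87d05f_lc.SP.Stm

set_option autoImplicit false

/-!
# Piece nth: the thresholds
-/

namespace Pool.Agent.Lib.MP_87d05f_lc.SP

open Pool.Agent.PolyTime Finset

section nth

variable {g d : ℕ} {ar : Fin g → ℕ}

/-- an assignment with a good average value (as `exists_average`, with a bound for the arities) -/
theorem nth_average (φ : (i : Fin g) → (Fin (ar i) → Fin d) → ℕ) (hd : 0 < d) (K : ℕ)
    (hK : ∀ i, ar i ≤ K)
    (L : List (Con ar)) (hL : ∀ c ∈ L, ∃ a : ℕ → Fin d, 1 ≤ φ c.1 (fun j => a (c.2 j))) :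
    ∃ a : ℕ → Fin d, L.length ≤ d ^ K * valC φ a L := by
  classical
  -- a bound for the variables
  obtain ⟨N, hN⟩ : ∃ N, ∀ c ∈ L, ∀ j, c.2 j < N := by
    refine ⟨(L.flatMap (fun c => List.ofFn c.2)).sum + 1, fun c hc j => ?_⟩
    refine Nat.lt_succ_of_le (List.single_le_sum (fun _ _ => Nat.zero_le _) _ ?_)
    exact List.mem_flatMap.2 ⟨c, hc, List.mem_ofFn.2 ⟨j, rfl⟩⟩
  obtain ⟨ext, hext⟩ : ∃ ext : (Fin N → Fin d) → ℕ → Fin d,
    ext = fun (ω : Fin N → Fin d) (v : ℕ) => if h : v < N then ω ⟨v, h⟩ else ⟨0, hd⟩ :=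
      ⟨_, rfl⟩
  obtain ⟨E, hE⟩ : ∃ E, E = d ^ K := ⟨_, rfl⟩
  -- one constraint
  have one : ∀ c ∈ L, Fintype.card (Fin N → Fin d) ≤
      E * ∑ ω : Fin N → Fin d, φ c.1 (fun j => ext ω (c.2 j)) := by
    intro c hc
    obtain ⟨a, ha⟩ := hL c hc
    obtain ⟨good, hgood⟩ : ∃ good : Finset (Fin N → Fin d), good =
      Finset.univ.filter (fun ω => 1 ≤ φ c.1 (fun j => ext ω (c.2 j))) := ⟨_, rfl⟩
    have h1 : good.card ≤ ∑ ω : Fin N → Fin d, φ c.1 (fun j => ext ω (c.2 j)) := by
      rw [hgood, Finset.card_filter]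
      refine Finset.sum_le_sum fun ω _ => ?_
      split_ifs with h
      · exact h
      · exact Nat.zero_le _
    obtain ⟨ow, how⟩ : ∃ ow : (Fin N → Fin d) → (Fin N → Fin d),
      ow = fun (ω : Fin N → Fin d) (v : Fin N) =>
        if ∃ j, c.2 j = (v : ℕ) then a v else ω v := ⟨_, rfl⟩
    have h2 : ∀ ω, ow ω ∈ good := by
      intro ω
      rw [hgood, Finset.mem_filter]
      refine ⟨Finset.mem_univ _, ?_⟩
      have : (fun j => ext (ow ω) (c.2 j)) = fun j => a (c.2 j) := by
        funext j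
        rw [hext, how]
        simp only
        rw [dif_pos (hN c hc j), if_pos ⟨j, rfl⟩]
      rw [this]
      exact ha
    have h3 : Fintype.card (Fin N → Fin d) ≤
        (good ×ˢ (Finset.univ : Finset (Fin (ar c.1) → Fin d))).card := by
      rw [← Finset.card_univ]
      refine Finset.card_le_card_of_injOn (fun ω => (ow ω, fun j => ext ω (c.2 j))) ?_ ?_
      · intro ω _
        simp only [Finset.coe_product, Set.mem_prod, Finset.mem_coe, Finset.mem_univ, and_true]
        exact h2 ω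
      · intro ω _ ω' _ h
        simp only [Prod.mk.injEq] at h
        funext v
        by_cases hv : ∃ j, c.2 j = (v : ℕ)
        · obtain ⟨j, hj⟩ := hv
          have h5 := congrFun h.2 j
          rw [hext] at h5
          simp only [hj] at h5
          rw [dif_pos v.2, dif_pos v.2] at h5
          exact h5
        · have h5 := congrFun h.1 v
          rw [how] at h5
          simp only [if_neg hv] at h5
          exact h5
    have h3' : Fintype.card (Fin (ar c.1) → Fin d) = d ^ ar c.1 := by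
      rw [Fintype.card_fun, Fintype.card_fin, Fintype.card_fin]
    rw [Finset.card_product, Finset.card_univ (α := Fin (ar c.1) → Fin d), h3'] at h3
    have h4 : d ^ ar c.1 ≤ E := by
      rw [hE]
      exact Nat.pow_le_pow_right hd (hK c.1)
    calc Fintype.card (Fin N → Fin d) ≤ good.card * d ^ ar c.1 := h3
      _ ≤ (∑ ω : Fin N → Fin d, φ c.1 (fun j => ext ω (c.2 j))) * E := Nat.mul_le_mul h1 h4
      _ = _ := Nat.mul_comm _ _
  -- all constraints
  have all : L.length * Fintype.card (Fin N → Fin d) ≤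
      E * ∑ ω : Fin N → Fin d, valC φ (ext ω) L := by
    have h1 : ∑ ω : Fin N → Fin d, valC φ (ext ω) L =
        (L.map (fun c => ∑ ω : Fin N → Fin d, φ c.1 (fun j => ext ω (c.2 j)))).sum :=
      sum_list_comm L (fun ω c => φ c.1 (fun j => ext ω (c.2 j)))
    rw [h1, ← List.sum_map_mul_left]
    calc L.length * Fintype.card (Fin N → Fin d) =
          (L.map (fun _ => Fintype.card (Fin N → Fin d))).sum := by
            rw [List.map_const', List.sum_replicate, smul_eq_mul]
      _ ≤ _ := List.sum_le_sum one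
  by_contra hcon
  push Not at hcon
  have h2 : ∑ ω : Fin N → Fin d, (E * valC φ (ext ω) L + 1) ≤
      ∑ _ω : Fin N → Fin d, L.length := by
    refine Finset.sum_le_sum fun ω _ => ?_
    have := hcon (ext ω)
    rw [← hE] at this
    exact this
  rw [Finset.sum_add_distrib, ← Finset.mul_sum, Finset.sum_const, Finset.sum_const,
    Finset.card_univ, smul_eq_mul, smul_eq_mul, Nat.mul_one] at h2
  have h3 : 0 < Fintype.card (Fin N → Fin d) := by
    rw [Fintype.card_fun, Fintype.card_fin, Fintype.card_fin]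
    positivity
  have h4 := all
  rw [Nat.mul_comm L.length] at h4
  omega

/-- the values on `F` and on the useful constraints are equal -/
theorem nth_val (φ : (i : Fin g) → (Fin (ar i) → Fin d) → ℕ) (F : List (Con ar))
    (a : ℕ → Fin d) : valC φ a (usC φ F) = valC φ a F := by
  classical
  unfold usC
  induction F with
  | nil => rfl
  | cons c F ih =>
    rw [List.filter_cons]
    split_ifs with h
    · unfold valC at ih ⊢
      rw [List.map_cons, List.map_cons, List.sum_cons, List.sum_cons, ih]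
    · have h0 : φ c.1 (fun j => a (c.2 j)) = 0 := by
        by_contra hne
        exact h (decide_eq_true ⟨a, Nat.pos_of_ne_zero hne⟩)
      unfold valC at ih ⊢
      rw [List.map_cons, List.sum_cons, h0, Nat.zero_add, ih]

end nth

theorem nth : NthS := by
  intro d g K ar φ ε F F' t hd hK he0 he1 hne hne' hcl
  have hm : (0 : ℚ) < (usC φ F).length := by
    exact_mod_cast List.length_pos_of_ne_nil hne
  have hm' : (0 : ℚ) < F'.length := by
    exact_mod_cast List.length_pos_of_ne_nil hne'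
  have hval : ∀ a : ℕ → Fin d, (valC φ a (usC φ F) : ℚ) = valC φ a F := by
    intro a
    rw [nth_val]
  obtain ⟨a0, ha0⟩ := nth_average φ hd K hK (usC φ F) (by
    intro c hc
    unfold usC at hc
    rw [List.mem_filter] at hc
    classical
    exact of_decide_eq_true hc.2)
  have ha0' : ((usC φ F).length : ℚ) ≤ d ^ K * valC φ a0 F := by
    rw [← hval]
    exact_mod_cast ha0
  obtain ⟨m, hmd⟩ : ∃ m : ℚ, m = (usC φ F).length := ⟨_, rfl⟩
  obtain ⟨m', hmd'⟩ : ∃ m' : ℚ, m' = F'.length := ⟨_, rfl⟩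
  have hdK : (0 : ℚ) < (d : ℚ) ^ K := by
    have : (0 : ℚ) < d := by exact_mod_cast hd
    positivity
  obtain ⟨c0, hc0⟩ : ∃ c0 : ℚ, c0 = 1 / (d : ℚ) ^ K := ⟨_, rfl⟩
  have hc0p : 0 < c0 := by
    rw [hc0]
    positivity
  have he : ε / (8 * (d : ℚ) ^ K) = ε * c0 / 8 := by
    rw [hc0]
    field_simp
  rw [← hmd] at hm ha0'
  rw [← hmd'] at hm'
  -- values per constraint
  have hcl' : ∀ a : ℕ → Fin d, |(valC φ a F' : ℚ) / m' - (valC φ a F : ℚ) / m| ≤ ε * c0 / 8 := by
    intro a
    have h := hcl a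
    rw [he, hval, ← hmd, ← hmd'] at h
    exact h
  have h0 : c0 ≤ (valC φ a0 F : ℚ) / m := by
    rw [hc0, div_le_div_iff₀ hdK hm]
    linarith
  rw [← hmd, ← hmd', he]
  obtain ⟨T, hT⟩ : ∃ T : ℚ, T = (t : ℚ) / m := ⟨_, rfl⟩
  rw [← hT]
  have htT : (t : ℚ) = T * m := by
    rw [hT]
    field_simp
  refine ⟨?_, ?_, ?_⟩
  · rintro ⟨a, ha⟩
    refine ⟨a, ?_⟩
    have h1 := abs_le.1 (hcl' a)
    have h2 : T ≤ (valC φ a F : ℚ) / m := by
      rw [hT]
      refine div_le_div_of_nonneg_right ?_ hm.le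
      exact_mod_cast ha
    have h3 : T - ε * c0 / 8 ≤ (valC φ a F' : ℚ) / m' := by linarith
    have h4 : m' * (T - ε * c0 / 8) ≤ (valC φ a F' : ℚ) := by
      rw [le_div_iff₀ hm'] at h3
      linarith
    rw [Int.toNat_le]
    rw [Int.ceil_le]
    exact_mod_cast h4
  · intro hno a
    have hc : ∀ a : ℕ → Fin d, (valC φ a F : ℚ) / m < (1 - ε) * T := by
      intro a
      rw [div_lt_iff₀ hm]
      have := hno a
      rw [htT] at this
      linarith
    have h1 := abs_le.1 (hcl' a)
    have h2 := hc a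
    have h3 := hc a0
    have hTc : c0 < T := by nlinarith
    have h4 : (valC φ a F' : ℚ) / m' < (1 - ε) * T + ε * c0 / 8 := by linarith
    have h5 : (1 - ε) * T + ε * c0 / 8 ≤ (1 - ε / 4) * (T - ε * c0 / 8) := by
      have h6 : ε * c0 ≤ ε * T := mul_le_mul_of_nonneg_left hTc.le he0.le
      have h7 : 0 ≤ ε * (ε * c0) := by positivity
      nlinarith
    have h6 : (valC φ a F' : ℚ) < (1 - ε / 4) * (m' * (T - ε * c0 / 8)) := by
      have h7 := lt_of_lt_of_le h4 h5
      rw [div_lt_iff₀ hm'] at h7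
      linarith
    refine lt_of_lt_of_le h6 (mul_le_mul_of_nonneg_left ?_ (by linarith))
    have h8 : (m' * (T - ε * c0 / 8)) ≤ ((⌈m' * (T - ε * c0 / 8)⌉ : ℤ) : ℚ) := Int.le_ceil _
    have h9 : (⌈m' * (T - ε * c0 / 8)⌉ : ℤ) ≤ ((⌈m' * (T - ε * c0 / 8)⌉.toNat : ℕ) : ℤ) :=
      Int.self_le_toNat _
    have h10 : ((⌈m' * (T - ε * c0 / 8)⌉ : ℤ) : ℚ) ≤
        (((⌈m' * (T - ε * c0 / 8)⌉.toNat : ℕ) : ℤ) : ℚ) := by exact_mod_cast h9
    refine h8.trans (h10.trans (le_of_eq ?_))
    norm_cast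
  · intro a hopt b
    have key : ∀ b : ℕ → Fin d, (1 - ε / 4) * ((valC φ b F : ℚ) / m) - ε * c0 / 4 ≤
        (valC φ a F : ℚ) / m := by
      intro b
      have h1 := abs_le.1 (hcl' a)
      have h2 := abs_le.1 (hcl' b)
      have h3 : (1 - ε / 4) * ((valC φ b F' : ℚ) / m') ≤ (valC φ a F' : ℚ) / m' := by
        rw [← mul_div_assoc]
        exact div_le_div_of_nonneg_right (hopt b) hm'.le
      have h4 : (1 - ε / 4) * ((valC φ b F : ℚ) / m - ε * c0 / 8) ≤
          (1 - ε / 4) * ((valC φ b F' : ℚ) / m') :=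
        mul_le_mul_of_nonneg_left (by linarith) (by linarith)
      have h5 : 0 ≤ ε * (ε * c0) := by positivity
      nlinarith
    have hb := key b
    have hb0 := key a0
    have hfin : (1 - ε) * ((valC φ b F : ℚ) / m) ≤ (valC φ a F : ℚ) / m := by
      have hbn : (0 : ℚ) ≤ (valC φ b F : ℚ) / m := by positivity
      rcases le_total c0 ((valC φ b F : ℚ) / m) with h | h
      · have h6 : ε * c0 ≤ ε * ((valC φ b F : ℚ) / m) := mul_le_mul_of_nonneg_left h he0.le
        have h7 : 0 ≤ ε * ((valC φ b F : ℚ) / m) := by positivity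
        linarith
      · have h6 : ε * ((valC φ b F : ℚ) / m) ≤ ε * c0 := mul_le_mul_of_nonneg_left h he0.le
        have h7 : (1 - ε / 4) * c0 ≤ (1 - ε / 4) * ((valC φ a0 F : ℚ) / m) :=
          mul_le_mul_of_nonneg_left h0 (by linarith)
        have h8 : 0 ≤ ε * ((valC φ b F : ℚ) / m) := by positivity
        have h9 : (1 - ε / 2) * ((valC φ b F : ℚ) / m) ≤ (1 - ε / 2) * c0 :=
          mul_le_mul_of_nonneg_left h (by linarith)
        linarith
    rw [← mul_div_assoc] at hfin
    exact (div_le_div_iff_of_pos_right hm).1 hfin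

end Pool.Agent.Lib.MP_87d05f_lc.SP
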