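import Pool.Agent.Lib.MP_87d05f_lc.SP.Stm

set_option autoImplicit false

/-!
# SPARSIFIER, piece asp: the enumeration of the assignments is polynomial-time
-/

namespace Pool.Agent.Lib.MP_87d05f_lc.SP

open Pool.Agent.PolyTime

/-- one step of the enumeration -/
def asp_st (d fuel : ℕ) (r : List (List (List Bool × ℕ))) (v : List Bool) :
    List (List (List Bool × ℕ)) :=
  ((List.range d).flatMap (fun k => r.map (fun y => (v, k) :: y))).take fuel

theorem asp_nil (d fuel : ℕ) : asg d fuel [] = [[]] := rfl

theorem asp_cons (d fuel : ℕ) (v : List Bool) (V : List (List Bool)) :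
    asg d fuel (v :: V) = asp_st d fuel (asg d fuel V) v := rfl

theorem asp_foldl (d fuel : ℕ) (l : List (List Bool)) :
    l.foldl (asp_st d fuel) [[]] = asg d fuel l.reverse := by
  unfold asg
  rw [List.foldr_reverse]
  rfl

theorem asp_length (d fuel : ℕ) (V : List (List Bool)) : (asg d fuel V).length ≤ fuel + 1 := by
  cases V with
  | nil =>
    rw [asp_nil]
    simp
  | cons v V =>
    rw [asp_cons]
    unfold asp_st
    refine (List.length_take_le _ _).trans ?_
    omega

theorem asp_elem (d fuel : ℕ) (V : List (List Bool)) :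
    ∀ y ∈ asg d fuel V, sz y ≤ (2 * d + 4) * sz V := by
  induction V with
  | nil =>
    intro y hy
    rw [asp_nil, List.mem_singleton] at hy
    rw [hy]
    simp only [sz_nil]
    omega
  | cons v V ih =>
    intro y hy
    rw [asp_cons] at hy
    unfold asp_st at hy
    have h1 := List.mem_of_mem_take hy
    obtain ⟨k, hk, h2⟩ := List.mem_flatMap.1 h1
    obtain ⟨y', hy', rfl⟩ := List.mem_map.1 h2
    have h3 := ih y' hy'
    have h4 := List.mem_range.1 hk
    have h5 := sz_pos v
    simp only [sz_cons, sz_pair, sz_nat]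
    calc sz v + (2 * k + 1) + 1 + sz y' + 1 ≤ (sz v + 2 * d + 3) + (2 * d + 4) * sz V := by omega
      _ ≤ (2 * d + 4) * (sz v + 1) + (2 * d + 4) * sz V := by
        refine Nat.add_le_add_right ?_ _
        nlinarith
      _ = (2 * d + 4) * (sz v + sz V + 1) := by ring

theorem asp_sz {β : Type} [SCode β] (r : List β) (B : ℕ) (h : ∀ y ∈ r, sz y ≤ B) :
    sz r ≤ r.length * (B + 1) + 1 := by
  induction r with
  | nil => simp
  | cons b r ih =>
    have h1 := ih fun y hy => h y (List.mem_cons_of_mem _ hy)
    have h2 := h b List.mem_cons_self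
    simp only [sz_cons, List.length_cons, Nat.add_mul, Nat.one_mul]
    omega

theorem asp : AspS := by
  intro d
  have hst : PTime (fun p : (ℕ × List (List Bool)) × List (List (List Bool × ℕ)) × List Bool =>
      asp_st d p.1.1 p.2.1 p.2.2) := by
    unfold asp_st
    refine PTime.take (PTime.fst.comp PTime.fst) ?_
    refine PTime.flatMap (l := fun _ => List.range d)
      (f := fun (p : (ℕ × List (List Bool)) × List (List (List Bool × ℕ)) × List Bool) (k : ℕ) =>
        p.2.1.map (fun y => (p.2.2, k) :: y)) (PTime.const _) ?_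
    refine PTime.map (l := fun q : ((ℕ × List (List Bool)) × List (List (List Bool × ℕ)) ×
        List Bool) × ℕ => q.1.2.1)
      (f := fun q (y : List (List Bool × ℕ)) => (q.1.2.2, q.2) :: y)
      ((PTime.fst.comp PTime.snd).comp PTime.fst) ?_
    refine PTime.cons (PTime.pair ?_ ?_) PTime.snd
    · exact ((PTime.snd.comp PTime.snd).comp PTime.fst).comp PTime.fst
    · exact PTime.snd.comp PTime.fst
  have h := PTime.foldl_of_bound (l := fun p : ℕ × List (List Bool) => p.2.reverse)
    (s := fun _ => ([[]] : List (List (List Bool × ℕ))))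
    (f := fun p r v => asp_st d p.1 r v) (PTime.reverse PTime.snd) (PTime.const _) hst
    ((Polynomial.X + 1) * ((Polynomial.C (2 * d + 4)) * Polynomial.X + 1) + 1) (by
      rintro ⟨fuel, V⟩ l₁ l₂ hl
      simp only at hl ⊢
      rw [asp_foldl]
      have h1 : V = l₂.reverse ++ l₁.reverse := by
        rw [← List.reverse_append, ← hl, List.reverse_reverse]
      have h2 := sz_append l₂.reverse l₁.reverse
      rw [← h1] at h2
      have h3 := sz_pos l₂.reverse
      have h4 : sz l₁.reverse ≤ sz V := by omega
      have h5 := asp_sz (asg d fuel l₁.reverse) ((2 * d + 4) * sz V)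
        (fun y hy => (asp_elem d fuel l₁.reverse y hy).trans (Nat.mul_le_mul_left _ h4))
      have h6 := asp_length d fuel l₁.reverse
      refine h5.trans ?_
      simp only [Polynomial.eval_add, Polynomial.eval_mul, Polynomial.eval_C, Polynomial.eval_X,
        Polynomial.eval_one, sz_pair, sz_nat]
      refine Nat.add_le_add_right (Nat.mul_le_mul (h6.trans (by omega)) ?_) 1
      refine Nat.add_le_add_right (Nat.mul_le_mul_left _ (by omega)) 1)
  refine h.of_eq fun p => ?_
  rw [asp_foldl, List.reverse_reverse]

end Pool.Agent.Lib.MP_87d05f_lc.SP
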