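import Pool.Agent.Lib.MP_87d05f_lc.SP.Stm

set_option autoImplicit false

/-!
# Semantics of the enumeration of the assignments
-/

namespace Pool.Agent.Lib.MP_87d05f_lc.SP

/-- the step of the enumeration has the expected length -/
private lemma ass_len (d : ℕ) (v : List Bool) (r : List (List (List Bool × ℕ))) :
    ((List.range d).flatMap (fun k => r.map (fun y => (v, k) :: y))).length = d * r.length := by
  rw [List.length_flatMap]
  simp only [List.length_map]
  rw [List.map_const', List.length_range, List.sum_replicate, smul_eq_mul]

/-- semantics of the enumeration of the assignments -/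
theorem ass : AssS := by
  intro d fuel V hd
  induction V with
  | nil =>
    refine ⟨?_, fun _ A _ => ?_⟩
    · exact le_rfl
    · exact List.mem_singleton.2 rfl
  | cons v V ih =>
    obtain ⟨ih1, ih2⟩ := ih
    have h0 : asg d fuel (v :: V) = ((List.range d).flatMap (fun k =>
        (asg d fuel V).map (fun y => (v, k) :: y))).take fuel := rfl
    have h1 := ass_len d v (asg d fuel V)
    have h2 : d * (asg d fuel V).length ≤ d ^ (v :: V).length := by
      rw [List.length_cons, pow_succ']
      exact Nat.mul_le_mul_left d ih1
    refine ⟨?_, fun hf A hA => ?_⟩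
    · rw [h0, List.length_take, h1]
      exact (min_le_right _ _).trans h2
    · rw [h0, List.take_of_length_le (by rw [h1]; exact h2.trans hf)]
      have h3 : d ^ V.length ≤ fuel := by
        refine le_trans ?_ hf
        exact Nat.pow_le_pow_right hd (Nat.le_succ _)
      refine List.mem_flatMap.2 ⟨A v, List.mem_range.2 (hA v), List.mem_map.2
        ⟨V.map (fun w => (w, A w)), ih2 h3 A hA, rfl⟩⟩

end Pool.Agent.Lib.MP_87d05f_lc.SP
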