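import Mathlib
import Pool.Agent.Lib.MP_87d05f_lc.SP.Stm

set_option autoImplicit false

/-!
# Binary numbers: addition, multiplication by a unary number, comparison (helper60)
-/

namespace Pool.Agent.Lib.MP_87d05f_lc.SP

open Pool.Agent.PolyTime

namespace bn

theorem val_ptime : PTime (fun x : BN => Nat.bits x.val) := PTime.of_enc fun _ => rfl

theorem mk_ptime {α : Type} [SCode α] {g : α → ℕ} (h : PTime (fun a => Nat.bits (g a))) :
    PTime (fun a => (⟨g a⟩ : BN)) := by
  obtain ⟨F, hF, hF'⟩ := h
  exact ⟨F, hF, hF'⟩

/-! ### Canonical lists of bits -/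

/-- strip the leading zeros (at the end of the list) -/
def canon (l : List Bool) : List Bool :=
  l.foldr (fun b acc => bif b || !acc.isEmpty then b :: acc else []) []

theorem canon_ptime : PTime canon := by
  unfold canon
  refine PTime.foldr (f := fun (_ : List Bool) b (acc : List Bool) =>
    bif b || !acc.isEmpty then b :: acc else []) PTime.id (PTime.const []) ?_
    (Polynomial.C 20) ?_
  · exact PTime.cond (PTime.or (PTime.fst.comp PTime.snd)
      (PTime.not (PTime.isEmpty (PTime.snd.comp PTime.snd))))
      (PTime.cons (PTime.fst.comp PTime.snd) (PTime.snd.comp PTime.snd)) (PTime.const [])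
  · intro a s b _
    rw [Polynomial.eval_C]
    have h1 := sz_bool_le b
    have h2 := sz_pos s
    cases h : (b || !s.isEmpty)
    · simp only [cond_false, sz_nil]
      omega
    · simp only [cond_true, sz_cons]
      omega

theorem bits_unbits_canon (l : List Bool) : Nat.bits (unbits l) = canon l := by
  induction l with
  | nil => simp [unbits, canon]
  | cons b l ih =>
    have h1 : canon (b :: l) = bif b || !(canon l).isEmpty then b :: canon l else [] := rfl
    rw [unbits_cons, h1, ← ih]
    by_cases h : unbits l = 0 → b = true
    · rw [Nat.bits_append_bit _ _ h]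
      have h2 : (b || !(Nat.bits (unbits l)).isEmpty) = true := by
        by_cases h0 : unbits l = 0
        · rw [h h0, Bool.true_or]
        · have h3 : (Nat.bits (unbits l)).isEmpty = false := by
            rw [List.isEmpty_eq_false_iff]
            intro h4
            apply h0
            have h5 := congrArg unbits h4
            rw [unbits_bits] at h5
            exact h5
          rw [h3, Bool.not_false, Bool.or_true]
      rw [h2, cond_true]
    · rw [Classical.not_imp] at h
      obtain ⟨h0, hb⟩ := h
      have hb' : b = false := by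
        cases b
        · rfl
        · exact absurd rfl hb
      rw [h0, hb']
      simp

theorem unbits_append (l : List Bool) (b : Bool) :
    unbits (l ++ [b]) = unbits l + 2 ^ l.length * b.toNat := by
  induction l with
  | nil => cases b <;> simp [unbits]
  | cons c l ih =>
    rw [List.cons_append, unbits_cons, ih, unbits_cons, List.length_cons, Nat.bit_val,
      Nat.bit_val, pow_succ]
    ring

/-! ### Addition -/

/-- one step of the addition -/
def astep (p : List Bool × List Bool) (s : Bool × List Bool) (i : ℕ) : Bool × List Bool :=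
  (bif s.1 then (p.1.getD i false || p.2.getD i false)
    else (p.1.getD i false && p.2.getD i false),
   xor s.1 (xor (p.1.getD i false) (p.2.getD i false)) :: s.2)

theorem getD_bits (x i : ℕ) : (Nat.bits x).getD i false = x.testBit i := by
  rw [Nat.testBit_eq_inth]
  rfl

theorem mod_succ (x n : ℕ) : x % 2 ^ (n + 1) = x % 2 ^ n + 2 ^ n * (x.testBit n).toNat := by
  rw [Nat.mod_pow_succ, Nat.toNat_testBit]

theorem add_inv (x y n : ℕ) :
    ((List.range n).foldl (astep (Nat.bits x, Nat.bits y)) (false, [])).2.length = n ∧
    unbits ((List.range n).foldl (astep (Nat.bits x, Nat.bits y)) (false, [])).2.reverse +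
      2 ^ n * ((List.range n).foldl (astep (Nat.bits x, Nat.bits y)) (false, [])).1.toNat =
      x % 2 ^ n + y % 2 ^ n := by
  induction n with
  | zero => simp [unbits, Nat.mod_one]
  | succ n ih =>
    rw [List.range_succ, List.foldl_append]
    generalize (List.range n).foldl (astep (Nat.bits x, Nat.bits y)) (false, []) = s at ih ⊢
    obtain ⟨h1, h2⟩ := ih
    simp only [List.foldl_cons, List.foldl_nil]
    unfold astep
    simp only [getD_bits, List.length_cons, h1, true_and, List.reverse_cons]
    rw [unbits_append, List.length_reverse, h1, mod_succ, mod_succ, pow_succ]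
    generalize hu : unbits s.2.reverse = u at h2 ⊢
    generalize 2 ^ n = N at h2 ⊢
    generalize x % N = X at h2 ⊢
    generalize y % N = Y at h2 ⊢
    rcases hc : s.1 <;> rcases x.testBit n <;> rcases y.testBit n <;> rw [hc] at h2 <;>
      simp at h2 ⊢ <;> omega

/-- addition of lists of bits -/
def addL (p : List Bool × List Bool) : List Bool :=
  canon (((List.range (p.1.length + p.2.length)).foldl (astep p) (false, [])).2.reverse ++
    [((List.range (p.1.length + p.2.length)).foldl (astep p) (false, [])).1])

theorem lt_pow_bits (x m : ℕ) (h : (Nat.bits x).length ≤ m) : x < 2 ^ m := by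
  rw [Nat.size_eq_bits_len] at h
  exact Nat.size_le.1 h

theorem addL_eq (x y : ℕ) : addL (Nat.bits x, Nat.bits y) = Nat.bits (x + y) := by
  unfold addL
  simp only
  rw [← bits_unbits_canon, unbits_append, List.length_reverse]
  obtain ⟨h1, h2⟩ := add_inv x y ((Nat.bits x).length + (Nat.bits y).length)
  rw [h1, h2, Nat.mod_eq_of_lt (lt_pow_bits x _ (by omega)),
    Nat.mod_eq_of_lt (lt_pow_bits y _ (by omega))]

theorem addL_ptime : PTime addL := by
  have h : PTime (fun p : List Bool × List Bool =>
      (List.range (p.1.length + p.2.length)).foldl (astep p) (false, [])) := by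
    refine PTime.foldl (f := astep) (PTime.range (PTime.add (PTime.length PTime.fst)
      (PTime.length PTime.snd))) (PTime.const _) ?_ (Polynomial.C 20) ?_
    · unfold astep
      have hx : PTime (fun p : (List Bool × List Bool) × (Bool × List Bool) × ℕ =>
          p.1.1.getD p.2.2 false) :=
        PTime.getD (PTime.snd.comp PTime.snd) (PTime.fst.comp PTime.fst) (PTime.const false)
      have hy : PTime (fun p : (List Bool × List Bool) × (Bool × List Bool) × ℕ =>
          p.1.2.getD p.2.2 false) :=
        PTime.getD (PTime.snd.comp PTime.snd) (PTime.snd.comp PTime.fst) (PTime.const false)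
      have hc : PTime (fun p : (List Bool × List Bool) × (Bool × List Bool) × ℕ => p.2.1.1) :=
        PTime.fst.comp (PTime.fst.comp PTime.snd)
      have hxor : ∀ {u v : (List Bool × List Bool) × (Bool × List Bool) × ℕ → Bool},
          PTime u → PTime v → PTime (fun p => xor (u p) (v p)) := by
        intro u v hu hv
        exact (PTime.cond hu (PTime.not hv) hv).of_eq
          (fun p => by cases u p <;> cases v p <;> rfl)
      exact (PTime.cond hc (PTime.or hx hy) (PTime.and hx hy)).pair
        (PTime.cons (hxor hc (hxor hx hy)) (PTime.snd.comp (PTime.fst.comp PTime.snd)))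
    · rintro a ⟨c, s⟩ b _
      rw [Polynomial.eval_C]
      unfold astep
      simp only [sz_pair, sz_cons]
      have h1 := sz_bool_le (bif c then (a.1.getD b false || a.2.getD b false)
        else (a.1.getD b false && a.2.getD b false))
      have h2 := sz_bool_le (xor c (xor (a.1.getD b false) (a.2.getD b false)))
      omega
  unfold addL
  exact canon_ptime.comp (PTime.append (PTime.reverse (PTime.snd.comp h))
    (PTime.cons (PTime.fst.comp h) (PTime.const [])))

theorem add_ptime : PTime (fun p : BN × BN => (⟨p.1.val + p.2.val⟩ : BN)) := by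
  refine mk_ptime ?_
  exact (addL_ptime.comp ((val_ptime.comp PTime.fst).pair (val_ptime.comp PTime.snd))).of_eq
    fun p => addL_eq _ _

/-! ### Comparison -/

theorem lt_inv (x y n : ℕ) :
    (List.range n).foldl (fun r i => bif xor ((Nat.bits x).getD i false)
      ((Nat.bits y).getD i false) then (Nat.bits y).getD i false else r) false =
      decide (x % 2 ^ n < y % 2 ^ n) := by
  induction n with
  | zero => simp [Nat.mod_one]
  | succ n ih =>
    rw [List.range_succ, List.foldl_append, ih]
    simp only [List.foldl_cons, List.foldl_nil, getD_bits]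
    rw [mod_succ, mod_succ]
    have hX : x % 2 ^ n < 2 ^ n := Nat.mod_lt _ (by positivity)
    have hY : y % 2 ^ n < 2 ^ n := Nat.mod_lt _ (by positivity)
    generalize 2 ^ n = N at *
    generalize x % N = X at *
    generalize y % N = Y at *
    rcases x.testBit n <;> rcases y.testBit n <;> simp
    · omega
    · omega

theorem lt_ptime : PTime (fun p : BN × BN => decide (p.1.val < p.2.val)) := by
  have h : PTime (fun p : List Bool × List Bool =>
      (List.range (p.1.length + p.2.length)).foldl (fun r i => bif xor (p.1.getD i false)
        (p.2.getD i false) then p.2.getD i false else r) false) := by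
    refine PTime.foldl (f := fun (p : List Bool × List Bool) (r : Bool) i =>
      bif xor (p.1.getD i false) (p.2.getD i false) then p.2.getD i false else r)
      (PTime.range (PTime.add (PTime.length PTime.fst)
      (PTime.length PTime.snd))) (PTime.const _) ?_ (Polynomial.C 20) ?_
    · have hx : PTime (fun p : (List Bool × List Bool) × Bool × ℕ =>
          p.1.1.getD p.2.2 false) :=
        PTime.getD (PTime.snd.comp PTime.snd) (PTime.fst.comp PTime.fst) (PTime.const false)
      have hy : PTime (fun p : (List Bool × List Bool) × Bool × ℕ =>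
          p.1.2.getD p.2.2 false) :=
        PTime.getD (PTime.snd.comp PTime.snd) (PTime.snd.comp PTime.fst) (PTime.const false)
      refine PTime.cond ?_ hy (PTime.fst.comp PTime.snd)
      exact (PTime.cond hx (PTime.not hy) hy).of_eq
        (fun p => by cases p.1.1.getD p.2.2 false <;> cases p.1.2.getD p.2.2 false <;> rfl)
    · intro a s b _
      rw [Polynomial.eval_C]
      have h1 := sz_bool_le (bif xor (a.1.getD b false) (a.2.getD b false)
        then a.2.getD b false else s)
      omega
  refine (h.comp ((val_ptime.comp PTime.fst).pair (val_ptime.comp PTime.snd))).of_eq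
    fun p => ?_
  simp only
  rw [lt_inv]
  rw [Nat.mod_eq_of_lt (lt_pow_bits p.1.val _ (by omega)),
    Nat.mod_eq_of_lt (lt_pow_bits p.2.val _ (by omega))]

/-! ### Sizes -/

theorem sz_bits (l : List Bool) : 2 * l.length + 1 ≤ sz l ∧ sz l ≤ 4 * l.length + 1 := by
  induction l with
  | nil => simp
  | cons b l ih =>
    have h1 := sz_bool_le b
    have h2 := sz_pos b
    rw [sz_cons, List.length_cons]
    omega

theorem sz_eq (x : BN) : sz x = sz (Nat.bits x.val) := rfl

theorem size_mul_le (a x : ℕ) : Nat.size (a * x) ≤ a + Nat.size x := by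
  rw [Nat.size_le, pow_add]
  have h1 : a < 2 ^ a := Nat.lt_two_pow_self
  have h2 : x < 2 ^ Nat.size x := Nat.lt_size_self x
  exact Nat.mul_lt_mul'' h1 h2

/-! ### Multiplication -/

theorem mul_ptime : PTime (fun p : ℕ × BN => (⟨p.1 * p.2.val⟩ : BN)) := by
  have key : ∀ (p : ℕ × BN) (i : ℕ),
      (fun s : BN => (⟨p.2.val + s.val⟩ : BN))^[i] ⟨0⟩ = ⟨i * p.2.val⟩ := by
    intro p i
    induction i with
    | zero => simp
    | succ i ih =>
      rw [Function.iterate_succ_apply', ih]
      simp only [BN.mk.injEq]
      ring
  have h : PTime (fun p : ℕ × BN => (fun s : BN => (⟨p.2.val + s.val⟩ : BN))^[p.1] ⟨0⟩) := by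
    refine PTime.iterate_of_bound (f := fun (p : ℕ × BN) (s : BN) => (⟨p.2.val + s.val⟩ : BN))
      PTime.fst (PTime.const (⟨0⟩ : BN)) ?_ (4 * Polynomial.X + 1) ?_
    · exact add_ptime.comp ((PTime.snd.comp PTime.fst).pair PTime.snd)
    · intro p i hi
      rw [key p i, sz_eq]
      simp only
      have h1 := (sz_bits (Nat.bits (i * p.2.val))).2
      rw [Nat.size_eq_bits_len] at h1
      have h2 := size_mul_le i p.2.val
      have h3 := (sz_bits (Nat.bits p.2.val)).1
      rw [Nat.size_eq_bits_len] at h3
      have h4 : sz p = (2 * p.1 + 1) + sz (Nat.bits p.2.val) + 1 := by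
        rcases p with ⟨a, x⟩
        rw [sz_pair, sz_nat, sz_eq]
      simp only [Polynomial.eval_add, Polynomial.eval_mul, Polynomial.eval_X,
        Polynomial.eval_ofNat, Polynomial.eval_one]
      omega
  exact h.of_eq fun p => key p p.1

end bn

theorem bn : BnS := by
  refine ⟨bn.add_ptime, bn.mul_ptime, bn.lt_ptime, fun x => ?_, fun x => ?_⟩
  · have h := (bn.sz_bits (Nat.bits x.val)).2
    rw [Nat.size_eq_bits_len] at h
    exact h
  · have h := (bn.sz_bits (Nat.bits x.val)).1
    rw [Nat.size_eq_bits_len] at h
    exact h

end Pool.Agent.Lib.MP_87d05f_lc.SP
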