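import Mathlib
import Pool.Agent.Lib.MP_87d05f_lc.SP.Stm

set_option autoImplicit false

namespace Pool.Agent.Lib.MP_87d05f_lc.SP

open Pool.Agent.PolyTime Finset

theorem cls_bks {Bk : ℕ} (hB : 1 ≤ Bk) (G : List (List (List Bool))) :
    bks Bk G = (ded (G.flatMap List.tail)).zipIdx.map (fun p => (p.1, p.2 % Bk)) := by
  unfold bks
  refine List.map_congr_left fun p _ => ?_
  have h := Nat.div_add_mod p.2 Bk
  rw [mydiv_eq hB]
  have h2 : p.2 - Bk * (p.2 / Bk) = p.2 % Bk := by omega
  rw [h2]

theorem cls_lkv {Bk : ℕ} (hB : 1 ≤ Bk) (G : List (List (List Bool))) {w : List Bool}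
    (hw : w ∈ G.flatMap List.tail) : (w, lkv (bks Bk G) w) ∈ bks Bk G := by
  have h1 : w ∈ ded (G.flatMap List.tail) := mem_ded.2 hw
  have h2 : ∃ e ∈ bks Bk G, e.1 = w := by
    obtain ⟨i, hi, hiw⟩ := List.mem_iff_getElem.1 h1
    refine ⟨(w, i % Bk), ?_, rfl⟩
    rw [cls_bks hB, List.mem_map]
    refine ⟨(w, i), ?_, rfl⟩
    rw [List.mem_zipIdx_iff_getElem?]
    simp only
    rw [List.getElem?_eq_getElem hi, hiw]
  obtain ⟨e, he, hew⟩ := h2
  unfold lkv
  cases hf : (bks Bk G).find? (fun e => decide (e.1 = w)) with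
  | none =>
    have h3 := List.find?_eq_none.1 hf e he
    exact absurd (decide_eq_true hew) h3
  | some e' =>
    have h3 := List.find?_some hf
    have h4 := List.mem_of_find?_eq_some hf
    have h5 : e'.1 = w := of_decide_eq_true h3
    have h6 : (w, e'.2) = e' := by rw [← h5]
    change (w, e'.2) ∈ bks Bk G
    rw [h6]
    exact h4

theorem cls_lt {Bk : ℕ} (hB : 1 ≤ Bk) (G : List (List (List Bool))) {w : List Bool}
    (hw : w ∈ G.flatMap List.tail) : lkv (bks Bk G) w < Bk := by
  have h1 := cls_lkv hB G hw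
  rw [cls_bks hB] at h1
  obtain ⟨p, _, hp⟩ := List.mem_map.1 h1
  have h2 : p.2 % Bk = lkv (bks Bk G) w := by
    have h3 := congrArg Prod.snd hp
    simp only at h3
    rw [cls_bks hB]
    exact h3
  rw [← h2]
  exact Nat.mod_lt _ (by omega)

theorem cls_filter {α : Type} (l : List (α × ℕ)) (B : ℕ)
    (h : ∀ b : ℕ, (l.filter (fun e => decide (e.2 = b))).length ≤ B) (T : List ℕ) :
    (l.filter (fun e => decide (e.2 ∈ T))).length ≤ T.length * B := by
  induction T with
  | nil => simp
  | cons a T ih =>
    have h1 : ∀ l : List (α × ℕ), (l.filter (fun e => decide (e.2 ∈ a :: T))).length ≤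
        (l.filter (fun e => decide (e.2 = a))).length +
        (l.filter (fun e => decide (e.2 ∈ T))).length := by
      intro l
      induction l with
      | nil => simp
      | cons x l ihl =>
        simp only [List.filter_cons, List.mem_cons, decide_eq_true_eq]
        simp only [List.mem_cons] at ihl
        by_cases hx : x.2 = a
        · rw [if_pos (Or.inl hx), if_pos hx]
          by_cases hx2 : x.2 ∈ T
          · rw [if_pos hx2]
            simp only [List.length_cons]
            omega
          · rw [if_neg hx2]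
            simp only [List.length_cons]
            omega
        · by_cases hx2 : x.2 ∈ T
          · rw [if_pos (Or.inr hx2), if_neg hx, if_pos hx2]
            simp only [List.length_cons]
            omega
          · rw [if_neg (by tauto), if_neg hx, if_neg hx2]
            exact ihl
    refine (h1 l).trans ?_
    rw [List.length_cons, Nat.add_mul, Nat.one_mul, Nat.add_comm]
    exact Nat.add_le_add ih (h a)

theorem cls_res {Bk : ℕ} (hB : 1 ≤ Bk) (G : List (List (List Bool))) (b : ℕ) :
    ((bks Bk G).filter (fun e => decide (e.2 = b))).length ≤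
      (G.flatMap List.tail).toFinset.card / Bk + 1 := by
  rw [← ded_length, cls_bks hB]
  generalize ded (G.flatMap List.tail) = D
  rw [← List.countP_eq_length_filter, List.countP_map]
  have h1 : D.zipIdx.countP ((fun e : List Bool × ℕ => decide (e.2 = b)) ∘
      fun p : List Bool × ℕ => (p.1, p.2 % Bk)) =
      (D.zipIdx.map Prod.snd).countP (fun i => decide (i % Bk = b)) := by
    rw [List.countP_map]
    rfl
  rw [h1, List.zipIdx_map_snd, ← List.range_eq_range']
  by_cases hb : b < Bk
  · have h2 : (List.range D.length).countP (fun i => decide (i % Bk = b)) =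
        Nat.count (fun i => i ≡ b [MOD Bk]) D.length := by
      rw [Nat.count]
      refine List.countP_congr fun i _ => ?_
      simp only [decide_eq_true_eq]
      unfold Nat.ModEq
      rw [Nat.mod_eq_of_lt hb]
    rw [h2, Nat.count_modEq_card _ (by omega)]
    split_ifs <;> omega
  · have h2 : (List.range D.length).countP (fun i => decide (i % Bk = b)) = 0 := by
      rw [List.countP_eq_zero]
      intro i _
      rw [decide_eq_true_eq]
      intro h
      exact hb (h ▸ Nat.mod_lt _ (by omega))
    rw [h2]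
    exact Nat.zero_le _

theorem cls_count {Bk K : ℕ} (S : List (List ℕ)) (hS : S.Nodup)
    (h : ∀ T ∈ S, T.length ≤ K ∧ ∀ x ∈ T, x < Bk) : S.length ≤ (Bk + 1) ^ K := by
  classical
  rw [← List.toFinset_card_of_nodup hS]
  have h1 : (Finset.univ : Finset (Fin K → Fin (Bk + 1))).card = (Bk + 1) ^ K := by
    rw [Finset.card_univ, Fintype.card_fun, Fintype.card_fin, Fintype.card_fin]
  rw [← h1]
  refine Finset.card_le_card_of_injOn
    (fun (T : List ℕ) (i : Fin K) => (⟨min (T.getD i Bk) Bk, by omega⟩ : Fin (Bk + 1)))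
    (fun _ _ => Finset.mem_coe.2 (Finset.mem_univ _)) ?_
  intro T hT T' hT' hTT
  have hT1 := h T (List.mem_toFinset.1 (Finset.mem_coe.1 hT))
  have hT2 := h T' (List.mem_toFinset.1 (Finset.mem_coe.1 hT'))
  have key1 : ∀ U V : List ℕ, U.length ≤ K → (∀ x ∈ U, x < Bk) → (∀ x ∈ V, x < Bk) →
      (∀ i : Fin K, min (U.getD i Bk) Bk = min (V.getD i Bk) Bk) →
      ∀ (i : ℕ) (hi : i < U.length), ∃ hi' : i < V.length, U[i] = V[i] := by
    intro U V hU1 hU2 hV2 hUV i hi
    have h2 := hUV ⟨i, by omega⟩
    simp only at h2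
    have h3 : U[i] < Bk := hU2 _ (List.getElem_mem hi)
    rw [List.getD_eq_getElem _ _ hi] at h2
    by_cases hi' : i < V.length
    · refine ⟨hi', ?_⟩
      rw [List.getD_eq_getElem _ _ hi'] at h2
      have h4 : V[i] < Bk := hV2 _ (List.getElem_mem hi')
      omega
    · rw [List.getD_eq_default _ _ (by omega)] at h2
      omega
  have hfun : ∀ i : Fin K, min (T.getD i Bk) Bk = min (T'.getD i Bk) Bk := by
    intro i
    have h2 := congrFun hTT i
    exact congrArg Fin.val h2
  have hlen : T.length = T'.length := by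
    rcases Nat.lt_trichotomy T.length T'.length with hl | hl | hl
    · obtain ⟨h2, _⟩ := key1 T' T hT2.1 hT2.2 hT1.2 (fun i => (hfun i).symm) T.length hl
      omega
    · exact hl
    · obtain ⟨h2, _⟩ := key1 T T' hT1.1 hT1.2 hT2.2 hfun T'.length hl
      omega
  refine List.ext_getElem hlen fun i hi hi' => ?_
  obtain ⟨_, h2⟩ := key1 T T' hT1.1 hT1.2 hT2.2 hfun i hi
  exact h2

theorem cls : ClsS := by
  intro Bk K G hB hK
  have hmem : ∀ c ∈ G, ∀ w ∈ c.tail, w ∈ G.flatMap List.tail := fun c hc w hw =>
    List.mem_flatMap.2 ⟨c, hc, hw⟩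
  refine ⟨?_, ?_, ?_⟩
  · intro c hc w hw
    have h1 := cls_lkv hB G (hmem c hc w hw)
    unfold cvs
    rw [List.mem_map]
    refine ⟨(w, lkv (bks Bk G) w), ?_, rfl⟩
    rw [List.mem_filter]
    refine ⟨h1, decide_eq_true ?_⟩
    exact List.mem_map.2 ⟨w, hw, rfl⟩
  · intro c hc
    unfold cvs
    rw [List.length_map]
    refine (cls_filter (bks Bk G) _ (cls_res hB G) (key Bk G c)).trans ?_
    refine Nat.mul_le_mul_right _ ?_
    unfold key
    rw [List.length_map]
    exact hK c hc
  · refine cls_count _ (nodup_ded _) ?_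
    intro T hT
    rw [mem_ded, List.mem_map] at hT
    obtain ⟨c, hc, rfl⟩ := hT
    refine ⟨?_, ?_⟩
    · unfold key
      rw [List.length_map]
      exact hK c hc
    · intro x hx
      obtain ⟨w, hw, rfl⟩ := List.mem_map.1 hx
      exact cls_lt hB G (hmem c hc w hw)

end Pool.Agent.Lib.MP_87d05f_lc.SP
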