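import Mathlib
import Pool.Agent.Lib.MP_87d05f_lc.SP.Stm

set_option autoImplicit false

/-!
# The greedy choice is polynomial-time (helper60)
-/

namespace Pool.Agent.Lib.MP_87d05f_lc.SP

open Pool.Agent.PolyTime

namespace grp

theorem val_ptime : PTime (fun x : BN => Nat.bits x.val) := PTime.of_enc fun _ => rfl

theorem sum_ptime {α : Type} [SCode α] {l : α → List ℕ} (hl : PTime l) :
    PTime (fun a => (l a).sum) := by
  have h : PTime (fun a => ((l a).flatMap (fun n => List.replicate n ())).length) :=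
    PTime.length (PTime.flatMap (f := fun _ n => List.replicate n ()) hl
      (PTime.replicate PTime.snd (PTime.const ())))
  refine h.of_eq fun a => ?_
  rw [List.length_flatMap]
  simp only [List.length_replicate, List.map_id']

theorem ap_ptime (C : ℕ) {α : Type} [SCode α] {h i : α → ℕ} {c : α → List ℕ} (hh : PTime h)
    (hc : PTime c) (hi : PTime i) : PTime (fun a => ap (h a) C (c a) (i a)) := by
  unfold ap
  exact PTime.sub (PTime.add (PTime.mul (PTime.mul hh (PTime.length hc)) (PTime.const C))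
    (PTime.mul (PTime.length hc) (PTime.getD hi hc (PTime.const 0)))) (sum_ptime hc)

theorem am_ptime (C : ℕ) {α : Type} [SCode α] {h i : α → ℕ} {c : α → List ℕ} (hh : PTime h)
    (hc : PTime c) (hi : PTime i) : PTime (fun a => am (h a) C (c a) (i a)) := by
  unfold am
  exact PTime.sub (PTime.add (PTime.mul (PTime.mul hh (PTime.length hc)) (PTime.const C))
    (sum_ptime hc)) (PTime.mul (PTime.length hc) (PTime.getD hi hc (PTime.const 0)))

/-! ### Bounds -/

theorem size_mul_le (a x : ℕ) : Nat.size (a * x) ≤ a + Nat.size x := by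
  rw [Nat.size_le, pow_add]
  have h1 : a < 2 ^ a := Nat.lt_two_pow_self
  have h2 : x < 2 ^ Nat.size x := Nat.lt_size_self x
  exact Nat.mul_lt_mul'' h1 h2

theorem size_add_le (x y : ℕ) : Nat.size (x + y) ≤ Nat.size x + Nat.size y := by
  rw [Nat.size_le, pow_add]
  have h1 : x < 2 ^ Nat.size x := Nat.lt_size_self x
  have h2 : y < 2 ^ Nat.size y := Nat.lt_size_self y
  generalize 2 ^ Nat.size x = A at *
  generalize 2 ^ Nat.size y = B at *
  obtain ⟨a, rfl⟩ : ∃ a, A = a + 1 := ⟨A - 1, by omega⟩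
  obtain ⟨b, rfl⟩ : ∃ b, B = b + 1 := ⟨B - 1, by omega⟩
  have h3 : (a + 1) * (b + 1) = a * b + a + b + 1 := by ring
  rw [h3]
  have h4 : 0 ≤ a * b := Nat.zero_le _
  omega

theorem sz_list_nat (c : List ℕ) : c.length ≤ sz c ∧ c.sum ≤ sz c ∧ ∀ i, c.getD i 0 ≤ sz c := by
  refine ⟨by have := length_le_sz c; omega, ?_, ?_⟩
  · induction c with
    | nil => simp
    | cons x c ih =>
      rw [List.sum_cons, sz_cons, sz_nat]
      omega
  · intro i
    by_cases hi : i < c.length
    · rw [List.getD_eq_getElem _ _ hi]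
      have h1 := sz_le_of_mem (List.getElem_mem hi)
      rw [sz_nat] at h1
      omega
    · rw [List.getD_eq_default _ _ (by omega)]
      exact Nat.zero_le _

/-- the bound on the factors -/
def AB (h C N : ℕ) : ℕ := h * N * C + N * N + N

theorem AB_mono {h h' C N N' : ℕ} (h1 : h ≤ h') (h2 : N ≤ N') : AB h C N ≤ AB h' C N' := by
  unfold AB
  gcongr

theorem ap_le (h C : ℕ) (c : List ℕ) (i : ℕ) : ap h C c i ≤ AB h C (sz c) := by
  obtain ⟨h1, h2, h3⟩ := sz_list_nat c
  unfold ap AB
  have h4 : h * c.length * C ≤ h * sz c * C := by gcongr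
  have h5 : c.length * c.getD i 0 ≤ sz c * sz c := Nat.mul_le_mul h1 (h3 i)
  omega

theorem am_le (h C : ℕ) (c : List ℕ) (i : ℕ) : am h C c i ≤ AB h C (sz c) := by
  obtain ⟨h1, h2, h3⟩ := sz_list_nat c
  unfold am AB
  have h4 : h * c.length * C ≤ h * sz c * C := by gcongr
  omega

/-! ### The score -/

theorem score_inv (h C i : ℕ) (l : List Col) (x : ℕ) :
    Nat.size (l.foldl (fun (acc : BN) c =>
      (⟨acc.val + (ap h C c.1 i * c.2.1.val + am h C c.1 i * c.2.2.val)⟩ : BN)) ⟨x⟩).val ≤
    Nat.size x + (l.map (fun c => (ap h C c.1 i + Nat.size c.2.1.val) +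
      (am h C c.1 i + Nat.size c.2.2.val))).sum := by
  induction l generalizing x with
  | nil => simp
  | cons c l ih =>
    rw [List.foldl_cons, List.map_cons, List.sum_cons]
    refine (ih _).trans ?_
    simp only
    have h1 := size_add_le x (ap h C c.1 i * c.2.1.val + am h C c.1 i * c.2.2.val)
    have h2 := size_add_le (ap h C c.1 i * c.2.1.val) (am h C c.1 i * c.2.2.val)
    have h3 := size_mul_le (ap h C c.1 i) c.2.1.val
    have h4 := size_mul_le (am h C c.1 i) c.2.2.val
    omega

theorem score_bound (hb : BnS) (h C i : ℕ) (l : List Col) :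
    (l.map (fun c => (ap h C c.1 i + Nat.size c.2.1.val) +
      (am h C c.1 i + Nat.size c.2.2.val))).sum ≤
    l.length * (2 * AB h C (sz l)) + sz l := by
  obtain ⟨-, -, -, -, hb2⟩ := hb
  have key : ∀ (N : ℕ) (l : List Col), sz l ≤ N →
      (l.map (fun c => (ap h C c.1 i + Nat.size c.2.1.val) +
      (am h C c.1 i + Nat.size c.2.2.val))).sum ≤
      l.length * (2 * AB h C N) + sz l := by
    intro N l
    induction l with
    | nil => intro _; simp
    | cons c l ih =>
      intro hN
      rw [sz_cons] at hN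
      have h0 := ih (by omega)
      rw [List.map_cons, List.sum_cons, List.length_cons, sz_cons, Nat.succ_mul]
      obtain ⟨c, P, M⟩ := c
      have h1 := hb2 P
      have h2 := hb2 M
      simp only [sz_pair] at hN ⊢
      have h3 := (ap_le h C c i).trans (AB_mono (h := h) (C := C) le_rfl
        (show sz c ≤ N by omega))
      have h4 := (am_le h C c i).trans (AB_mono (h := h) (C := C) le_rfl
        (show sz c ≤ N by omega))
      omega
  exact key _ l le_rfl

theorem score_ptime (hb : BnS) (C : ℕ) :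
    PTime (fun p : (ℕ × ℕ) × List Col => score p.1.1 C p.2 p.1.2) := by
  obtain ⟨hadd, hmul, -, hb1, hb2⟩ := id hb
  unfold score
  refine PTime.foldl_of_bound (f := fun (p : (ℕ × ℕ) × List Col) (acc : BN) (c : Col) =>
    (⟨acc.val + (ap p.1.1 C c.1 p.1.2 * c.2.1.val + am p.1.1 C c.1 p.1.2 * c.2.2.val)⟩ : BN))
    PTime.snd (PTime.const (⟨0⟩ : BN)) ?_
    (4 * (Polynomial.X * (2 * (Polynomial.X * Polynomial.X * Polynomial.C C +
      Polynomial.X * Polynomial.X + Polynomial.X)) + Polynomial.X) + 1) ?_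
  · -- the step
    have hc1 : PTime (fun p : ((ℕ × ℕ) × List Col) × BN × Col => p.2.2.1) :=
      PTime.fst.comp (PTime.snd.comp PTime.snd)
    have hP : PTime (fun p : ((ℕ × ℕ) × List Col) × BN × Col => p.2.2.2.1) :=
      PTime.fst.comp (PTime.snd.comp (PTime.snd.comp PTime.snd))
    have hM : PTime (fun p : ((ℕ × ℕ) × List Col) × BN × Col => p.2.2.2.2) :=
      PTime.snd.comp (PTime.snd.comp (PTime.snd.comp PTime.snd))
    have hh : PTime (fun p : ((ℕ × ℕ) × List Col) × BN × Col => p.1.1.1) :=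
      PTime.fst.comp (PTime.fst.comp PTime.fst)
    have hi : PTime (fun p : ((ℕ × ℕ) × List Col) × BN × Col => p.1.1.2) :=
      PTime.snd.comp (PTime.fst.comp PTime.fst)
    have hacc : PTime (fun p : ((ℕ × ℕ) × List Col) × BN × Col => p.2.1) :=
      PTime.fst.comp PTime.snd
    have h1 := hmul.comp ((ap_ptime C hh hc1 hi).pair hP)
    have h2 := hmul.comp ((am_ptime C hh hc1 hi).pair hM)
    have h3 := hadd.comp (h1.pair h2)
    exact hadd.comp (hacc.pair h3)
  · rintro ⟨⟨h, i⟩, S⟩ l₁ l₂ hS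
    simp only at hS
    have h1 := score_inv h C i l₁ 0
    have h2 := score_bound hb h C i l₁
    have h3 : sz l₁ ≤ sz S := by
      have h4 := sz_append l₁ l₂
      have h5 := sz_pos l₂
      rw [hS]
      omega
    have h4 : l₁.length ≤ sz S := by
      have := length_le_sz l₁
      omega
    have hN : sz (((h, i), S) : (ℕ × ℕ) × List Col) = (2 * h + 1) + (2 * i + 1) + 1 + sz S + 1 := by
      rw [sz_pair, sz_pair, sz_nat, sz_nat]
    obtain ⟨N, hN'⟩ : ∃ N, N = sz (((h, i), S) : (ℕ × ℕ) × List Col) := ⟨_, rfl⟩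
    rw [← hN'] at hN ⊢
    have h5 : AB h C (sz l₁) ≤ AB N C N := AB_mono (by omega) (by omega)
    have h6 : l₁.length * (2 * AB h C (sz l₁)) ≤ N * (2 * AB N C N) :=
      Nat.mul_le_mul (by omega) (Nat.mul_le_mul_left 2 h5)
    refine (hb1 _).trans ?_
    simp only [Polynomial.eval_add, Polynomial.eval_mul, Polynomial.eval_X,
      Polynomial.eval_ofNat, Polynomial.eval_one, Polynomial.eval_C]
    rw [Nat.size_zero, Nat.zero_add] at h1
    have h7 : AB N C N = N * N * C + N * N + N := rfl
    rw [h7] at h6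
    omega

theorem score_ptime' (hb : BnS) (C : ℕ) {α : Type} [SCode α] {h i : α → ℕ} {S : α → List Col}
    (hh : PTime h) (hi : PTime i) (hS : PTime S) :
    PTime (fun a => score (h a) C (S a) (i a)) := by
  have h1 := (score_ptime hb C).comp ((hh.pair hi).pair hS)
  exact h1

/-! ### The best candidate -/

theorem best_prefix (h C : ℕ) (S : List Col) (l : List ℕ) (m : ℕ) (hl : ∀ i ∈ l, i < m) :
    l.foldl (fun b i => bif decide ((score h C S i).val < (score h C S b).val)
      then i else b) 0 ≤ m := by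
  have key : ∀ (l : List ℕ) (b : ℕ), (∀ i ∈ l, i < m) → b ≤ m →
      l.foldl (fun b i => bif decide ((score h C S i).val < (score h C S b).val)
        then i else b) b ≤ m := by
    intro l
    induction l with
    | nil => intro b _ hb; simpa using hb
    | cons x l ih =>
      intro b hx hb
      rw [List.foldl_cons]
      refine ih _ (fun i hi => hx i (List.mem_cons_of_mem _ hi)) ?_
      have h1 := hx x List.mem_cons_self
      cases decide ((score h C S x).val < (score h C S b).val)
      · simpa using hb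
      · simp only [cond_true]
        omega
  exact key l 0 hl (Nat.zero_le _)

theorem best_le (h C m : ℕ) (S : List Col) : best h C m S ≤ m := by
  unfold best
  exact best_prefix h C S _ m (fun i hi => List.mem_range.1 hi)

theorem best_ptime (hb : BnS) (C : ℕ) :
    PTime (fun p : (ℕ × ℕ) × List Col => best p.1.1 C p.1.2 p.2) := by
  obtain ⟨-, -, hlt, -, -⟩ := id hb
  unfold best
  refine PTime.foldl_of_bound (f := fun (p : (ℕ × ℕ) × List Col) (b i : ℕ) =>
    bif decide ((score p.1.1 C p.2 i).val < (score p.1.1 C p.2 b).val) then i else b)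
    (PTime.range (PTime.snd.comp PTime.fst)) (PTime.const 0) ?_ (2 * Polynomial.X + 1) ?_
  · have hh : PTime (fun p : ((ℕ × ℕ) × List Col) × ℕ × ℕ => p.1.1.1) :=
      PTime.fst.comp (PTime.fst.comp PTime.fst)
    have hS : PTime (fun p : ((ℕ × ℕ) × List Col) × ℕ × ℕ => p.1.2) := PTime.snd.comp PTime.fst
    have hb' : PTime (fun p : ((ℕ × ℕ) × List Col) × ℕ × ℕ => p.2.1) := PTime.fst.comp PTime.snd
    have hi : PTime (fun p : ((ℕ × ℕ) × List Col) × ℕ × ℕ => p.2.2) := PTime.snd.comp PTime.snd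
    exact PTime.cond (hlt.comp ((score_ptime' hb C hh hi hS).pair
      (score_ptime' hb C hh hb' hS))) hi hb'
  · rintro ⟨⟨h, m⟩, S⟩ l₁ l₂ hS
    simp only at hS
    have h1 := best_prefix h C S l₁ m (fun i hi => by
      have h2 : i ∈ List.range m := by rw [hS]; exact List.mem_append_left _ hi
      exact List.mem_range.1 h2)
    simp only [Polynomial.eval_add, Polynomial.eval_mul, Polynomial.eval_X,
      Polynomial.eval_ofNat, Polynomial.eval_one]
    rw [sz_nat]
    have h3 : m ≤ sz (((h, m), S) : (ℕ × ℕ) × List Col) := by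
      rw [sz_pair, sz_pair, sz_nat, sz_nat]
      omega
    omega

theorem best_ptime' (hb : BnS) (C : ℕ) {α : Type} [SCode α] {h m : α → ℕ} {S : α → List Col}
    (hh : PTime h) (hm : PTime m) (hS : PTime S) :
    PTime (fun a => best (h a) C (m a) (S a)) := by
  have h1 := (best_ptime hb C).comp ((hh.pair hm).pair hS)
  exact h1

/-! ### The greedy steps -/

theorem upd_ptime (hb : BnS) (C : ℕ) :
    PTime (fun p : (ℕ × ℕ) × List Col => upd p.1.1 C p.1.2 p.2) := by
  obtain ⟨-, hmul, -, -, -⟩ := id hb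
  unfold upd
  refine PTime.map (f := fun (p : (ℕ × ℕ) × List Col) (c : Col) => ((c.1,
    ((⟨ap p.1.1 C c.1 p.1.2 * c.2.1.val⟩ : BN), (⟨am p.1.1 C c.1 p.1.2 * c.2.2.val⟩ : BN))) :
      Col)) PTime.snd ?_
  have hh : PTime (fun p : ((ℕ × ℕ) × List Col) × Col => p.1.1.1) :=
    PTime.fst.comp (PTime.fst.comp PTime.fst)
  have hi : PTime (fun p : ((ℕ × ℕ) × List Col) × Col => p.1.1.2) :=
    PTime.snd.comp (PTime.fst.comp PTime.fst)
  have hc1 : PTime (fun p : ((ℕ × ℕ) × List Col) × Col => p.2.1) := PTime.fst.comp PTime.snd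
  have hP : PTime (fun p : ((ℕ × ℕ) × List Col) × Col => p.2.2.1) :=
    PTime.fst.comp (PTime.snd.comp PTime.snd)
  have hM : PTime (fun p : ((ℕ × ℕ) × List Col) × Col => p.2.2.2) :=
    PTime.snd.comp (PTime.snd.comp PTime.snd)
  exact hc1.pair ((hmul.comp ((ap_ptime C hh hc1 hi).pair hP)).pair
    (hmul.comp ((am_ptime C hh hc1 hi).pair hM)))

theorem upd_ptime' (hb : BnS) (C : ℕ) {α : Type} [SCode α] {h i : α → ℕ} {S : α → List Col}
    (hh : PTime h) (hi : PTime i) (hS : PTime S) :
    PTime (fun a => upd (h a) C (i a) (S a)) := by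
  have h1 := (upd_ptime hb C).comp ((hh.pair hi).pair hS)
  exact h1

theorem gst_ptime' (hb : BnS) (C : ℕ) {α : Type} [SCode α] {h m : α → ℕ}
    {s : α → List ℕ × List Col} (hh : PTime h) (hm : PTime m) (hs : PTime s) :
    PTime (fun a => gst (h a) C (m a) (s a)) := by
  unfold gst
  have hS : PTime (fun a => (s a).2) := PTime.snd.comp hs
  have hI : PTime (fun a => (s a).1) := PTime.fst.comp hs
  have h1 : PTime (fun a => best (h a) C (m a) (s a).2) := best_ptime' hb C hh hm hS
  exact (PTime.cons h1 hI).pair (upd_ptime' hb C hh h1 hS)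

theorem gst_inv (h C m A : ℕ) (cols : List (List ℕ)) (hA : ∀ c ∈ cols, ∀ i,
    ap h C c i ≤ A ∧ am h C c i ≤ A) (n : ℕ) :
    ∃ (I : List ℕ) (S : List Col), (gst h C m)^[n] ([], cols.map (fun c =>
      (c, ((⟨1⟩ : BN), (⟨1⟩ : BN))))) = (I, S) ∧ I.length = n ∧ (∀ i ∈ I, i ≤ m) ∧
      S.map Prod.fst = cols ∧ ∀ c ∈ S, Nat.size c.2.1.val ≤ n * A + 1 ∧
        Nat.size c.2.2.val ≤ n * A + 1 := by
  induction n with
  | zero =>
    refine ⟨_, _, rfl, rfl, by simp, ?_, ?_⟩
    · rw [List.map_map]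
      exact List.map_id'' (fun _ => rfl) cols
    · intro c hc
      obtain ⟨c', -, rfl⟩ := List.mem_map.1 hc
      simp
  | succ n ih =>
    obtain ⟨I, S, he, h1, h2, h3, h4⟩ := ih
    rw [Function.iterate_succ_apply', he]
    refine ⟨best h C m S :: I, upd h C (best h C m S) S, rfl, ?_, ?_, ?_, ?_⟩
    · simp [h1]
    · intro i hi
      rcases List.mem_cons.1 hi with rfl | hi
      · exact best_le _ _ _ _
      · exact h2 i hi
    · unfold upd
      rw [List.map_map]
      rw [← h3]
      rfl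
    · intro c hc
      unfold upd at hc
      obtain ⟨c', hc', rfl⟩ := List.mem_map.1 hc
      obtain ⟨h5, h6⟩ := h4 c' hc'
      have h7 : c'.1 ∈ cols := by
        rw [← h3]
        exact List.mem_map_of_mem hc'
      obtain ⟨h8, h9⟩ := hA c'.1 h7 (best h C m S)
      have h10 := size_mul_le (ap h C c'.1 (best h C m S)) c'.2.1.val
      have h11 := size_mul_le (am h C c'.1 (best h C m S)) c'.2.2.val
      have h12 : (n + 1) * A = n * A + A := Nat.succ_mul n A
      simp only
      rw [h12]
      omega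

theorem sz_list_le (I : List ℕ) (m : ℕ) (h : ∀ i ∈ I, i ≤ m) :
    sz I ≤ I.length * (2 * m + 2) + 1 := by
  induction I with
  | nil => simp
  | cons x I ih =>
    have h1 := ih (fun i hi => h i (List.mem_cons_of_mem _ hi))
    have h2 := h x List.mem_cons_self
    have h3 : (I.length + 1) * (2 * m + 2) = I.length * (2 * m + 2) + (2 * m + 2) :=
      Nat.succ_mul _ _
    rw [sz_cons, sz_nat, List.length_cons, h3]
    omega

theorem sz_cols_le (hb : BnS) (S : List Col) (B : ℕ) (h : ∀ c ∈ S, Nat.size c.2.1.val ≤ B ∧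
    Nat.size c.2.2.val ≤ B) : sz S ≤ sz (S.map Prod.fst) + S.length * (8 * B + 4) := by
  obtain ⟨-, -, -, hb1, -⟩ := id hb
  induction S with
  | nil => simp
  | cons c S ih =>
    have h1 := ih (fun c hc => h c (List.mem_cons_of_mem _ hc))
    obtain ⟨h2, h3⟩ := h c List.mem_cons_self
    obtain ⟨c, P, M⟩ := c
    have h4 := hb1 P
    have h5 := hb1 M
    simp only at h2 h3
    have h6 : (S.length + 1) * (8 * B + 4) = S.length * (8 * B + 4) + (8 * B + 4) :=
      Nat.succ_mul _ _
    rw [List.map_cons, sz_cons, sz_cons, sz_pair, sz_pair, List.length_cons, h6]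
    simp only
    omega

end grp

theorem grp (h : BnS) : GrpS := by
  intro C
  unfold gre
  refine PTime.iterate_of_bound (n := fun p : (ℕ × (ℕ × ℕ)) × List (List ℕ) => p.1.2.2)
    (f := fun (p : (ℕ × (ℕ × ℕ)) × List (List ℕ)) (s : List ℕ × List Col) =>
      gst p.1.1 C p.1.2.1 s)
    (s := fun p => ([], p.2.map (fun c => (c, ((⟨1⟩ : BN), (⟨1⟩ : BN))))))
    (PTime.snd.comp (PTime.snd.comp PTime.fst)) ?_ ?_
    (Polynomial.X * (2 * Polynomial.X + 2) + 1 + (Polynomial.X + Polynomial.X *
      (8 * (Polynomial.X * (Polynomial.X * Polynomial.X * Polynomial.C C +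
      Polynomial.X * Polynomial.X + Polynomial.X) + 1) + 4)) + 1) ?_
  · exact (PTime.const []).pair (PTime.map (f := fun _ (c : List ℕ) =>
      ((c, ((⟨1⟩ : BN), (⟨1⟩ : BN))) : Col)) PTime.snd (PTime.snd.pair (PTime.const _)))
  · have h1 : PTime (fun p : ((ℕ × (ℕ × ℕ)) × List (List ℕ)) × (List ℕ × List Col) =>
        p.1.1.1) := PTime.fst.comp (PTime.fst.comp PTime.fst)
    have h2 : PTime (fun p : ((ℕ × (ℕ × ℕ)) × List (List ℕ)) × (List ℕ × List Col) =>
        p.1.1.2.1) := PTime.fst.comp (PTime.snd.comp (PTime.fst.comp PTime.fst))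
    exact grp.gst_ptime' h C h1 h2 PTime.snd
  · rintro ⟨⟨hh, m, t⟩, cols⟩ n hn
    simp only at hn ⊢
    obtain ⟨N, hN⟩ : ∃ N, N = sz (((hh, (m, t)), cols) : (ℕ × (ℕ × ℕ)) × List (List ℕ)) :=
      ⟨_, rfl⟩
    have hN' := hN
    rw [sz_pair, sz_pair, sz_pair, sz_nat, sz_nat, sz_nat] at hN'
    rw [← hN]
    have hA : ∀ c ∈ cols, ∀ i, ap hh C c i ≤ grp.AB N C N ∧ am hh C c i ≤ grp.AB N C N := by
      intro c hc i
      have h1 := sz_le_of_mem hc
      exact ⟨(grp.ap_le hh C c i).trans (grp.AB_mono (by omega) (by omega)),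
        (grp.am_le hh C c i).trans (grp.AB_mono (by omega) (by omega))⟩
    obtain ⟨I, S, he, h1, h2, h3, h4⟩ := grp.gst_inv hh C m (grp.AB N C N) cols hA n
    rw [he, sz_pair]
    have h5 := grp.sz_list_le I m h2
    have h6 := grp.sz_cols_le h S (n * grp.AB N C N + 1) h4
    rw [h3] at h6
    have h7 : S.length ≤ N := by
      have h8 := length_le_sz cols
      have h9 := congrArg List.length h3
      rw [List.length_map] at h9
      omega
    rw [h1] at h5
    have h8 : n * (2 * m + 2) ≤ N * (2 * N + 2) := Nat.mul_le_mul (by omega) (by omega)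
    have h9 : n * grp.AB N C N ≤ N * grp.AB N C N := Nat.mul_le_mul_right _ (by omega)
    have h10 : S.length * (8 * (n * grp.AB N C N + 1) + 4) ≤
        N * (8 * (N * grp.AB N C N + 1) + 4) := Nat.mul_le_mul h7 (by omega)
    have h11 : grp.AB N C N = N * N * C + N * N + N := rfl
    rw [h11] at h10 h6
    simp only [Polynomial.eval_add, Polynomial.eval_mul, Polynomial.eval_X,
      Polynomial.eval_ofNat, Polynomial.eval_one, Polynomial.eval_C]
    omega

end Pool.Agent.Lib.MP_87d05f_lc.SP
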