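import Pool.Agent.Lib.MP_87d05f_lc.SP.Stm

/-!
# SPARSIFIER, piece `grs` (helper18): semantics of the greedy choice
-/

set_option autoImplicit false

namespace Pool.Agent.Lib.MP_87d05f_lc.SP

open Pool.Agent.PolyTime Finset

lemma grs_foldl (h C : ℕ) (i : ℕ) (S : List Col) : ∀ x : BN,
    (S.foldl (fun acc c => (⟨acc.val + (ap h C c.1 i * c.2.1.val + am h C c.1 i * c.2.2.val)⟩ : BN))
      x).val =
    x.val + (S.map (fun c => ap h C c.1 i * c.2.1.val + am h C c.1 i * c.2.2.val)).sum := by
  induction S with
  | nil => intro x; simp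
  | cons a l ih =>
    intro x
    rw [List.foldl_cons, ih, List.map_cons, List.sum_cons]
    simp only
    ring

lemma grs_score (h C : ℕ) (S : List Col) (i : ℕ) :
    (score h C S i).val =
      (S.map (fun c => ap h C c.1 i * c.2.1.val + am h C c.1 i * c.2.2.val)).sum := by
  unfold score
  rw [grs_foldl]
  simp

lemma grs_best_aux (F : ℕ → ℕ) : ∀ n : ℕ,
    ((List.range n).foldl (fun b i => bif decide (F i < F b) then i else b) 0 = 0 ∨
      (List.range n).foldl (fun b i => bif decide (F i < F b) then i else b) 0 < n) ∧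
    F ((List.range n).foldl (fun b i => bif decide (F i < F b) then i else b) 0) ≤ F 0 ∧
    ∀ i < n, F ((List.range n).foldl (fun b i => bif decide (F i < F b) then i else b) 0) ≤ F i := by
  intro n
  induction n with
  | zero =>
    refine ⟨Or.inl rfl, le_rfl, ?_⟩
    intro i hi
    omega
  | succ n ih =>
    obtain ⟨h1, h2, h3⟩ := ih
    rw [List.range_succ, List.foldl_append]
    set b := (List.range n).foldl (fun b i => bif decide (F i < F b) then i else b) 0 with hb
    rw [List.foldl_cons, List.foldl_nil]
    by_cases hc : F n < F b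
    · have e : (bif decide (F n < F b) then n else b) = n := by
        rw [decide_eq_true hc]; rfl
      rw [e]
      refine ⟨Or.inr (by omega), by omega, ?_⟩
      intro i hi
      rcases Nat.lt_succ_iff_lt_or_eq.mp hi with h | h
      · have := h3 i h
        omega
      · rw [h]
    · have e : (bif decide (F n < F b) then n else b) = b := by
        rw [decide_eq_false hc]; rfl
      rw [e]
      refine ⟨?_, h2, ?_⟩
      · rcases h1 with h | h
        · exact Or.inl h
        · exact Or.inr (by omega)
      · intro i hi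
        rcases Nat.lt_succ_iff_lt_or_eq.mp hi with h | h
        · exact h3 i h
        · rw [h]; omega

lemma grs_best (h C m : ℕ) (S : List Col) (hm : 1 ≤ m) :
    best h C m S < m ∧ ∀ i < m, (score h C S (best h C m S)).val ≤ (score h C S i).val := by
  obtain ⟨h1, h2, h3⟩ := grs_best_aux (fun i => (score h C S i).val) m
  unfold best
  refine ⟨?_, h3⟩
  rcases h1 with h | h
  · rw [h]; omega
  · exact h

lemma grs_getD_sum : ∀ c : List ℕ, ∑ i ∈ range c.length, c.getD i 0 = c.sum := by
  intro c
  induction c with
  | nil => simp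
  | cons a l ih =>
    rw [List.length_cons, Finset.sum_range_succ']
    simp only [List.getD_cons_succ, List.getD_cons_zero, List.sum_cons]
    rw [ih, add_comm]

lemma grs_sum_le (C : ℕ) : ∀ c : List ℕ, (∀ x ∈ c, x ≤ C) → c.sum ≤ c.length * C := by
  intro c
  induction c with
  | nil => simp
  | cons a l ih =>
    intro h
    rw [List.sum_cons, List.length_cons, add_mul, one_mul, add_comm]
    have h1 := h a (by simp)
    have h2 := ih (fun x hx => h x (by simp [hx]))
    omega

lemma grs_getD_le {C : ℕ} {l : List ℕ} (h : ∀ x ∈ l, x ≤ C) (i : ℕ) : l.getD i 0 ≤ C := by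
  rw [List.getD_eq_getElem?_getD]
  cases hx : l[i]? with
  | none => simp
  | some x =>
    simp only [Option.getD_some]
    exact h x (List.mem_of_getElem? hx)

lemma grs_ap_sum {h C m : ℕ} {c : List ℕ} (hh : 1 ≤ h) (hc : c.length = m)
    (hC : ∀ x ∈ c, x ≤ C) : ∑ i ∈ range m, ap h C c i = m * (h * m * C) := by
  have h1 : c.sum ≤ m * C := hc ▸ grs_sum_le C c hC
  have h2 : m * C ≤ h * m * C := by
    calc m * C = 1 * m * C := by ring
      _ ≤ h * m * C := by gcongr
  have h3 : ∀ i ∈ range m, ap h C c i + c.sum = h * m * C + m * c.getD i 0 := by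
    intro i _
    unfold ap
    rw [hc]
    omega
  have h4 := Finset.sum_congr rfl h3
  rw [Finset.sum_add_distrib, Finset.sum_add_distrib, Finset.sum_const, Finset.sum_const,
    card_range, ← Finset.mul_sum, smul_eq_mul, smul_eq_mul] at h4
  have h5 : ∑ i ∈ range m, c.getD i 0 = c.sum := by rw [← hc]; exact grs_getD_sum c
  rw [h5] at h4
  omega

lemma grs_am_sum {h C m : ℕ} {c : List ℕ} (hh : 1 ≤ h) (hc : c.length = m)
    (hC : ∀ x ∈ c, x ≤ C) : ∑ i ∈ range m, am h C c i = m * (h * m * C) := by
  have h2 : m * C ≤ h * m * C := by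
    calc m * C = 1 * m * C := by ring
      _ ≤ h * m * C := by gcongr
  have h3 : ∀ i ∈ range m, am h C c i + m * c.getD i 0 = h * m * C + c.sum := by
    intro i _
    have h6 : m * c.getD i 0 ≤ m * C := Nat.mul_le_mul_left m (grs_getD_le hC i)
    unfold am
    rw [hc]
    omega
  have h4 := Finset.sum_congr rfl h3
  rw [Finset.sum_add_distrib, Finset.sum_add_distrib, Finset.sum_const, Finset.sum_const,
    card_range, ← Finset.mul_sum, smul_eq_mul, smul_eq_mul] at h4
  have h5 : ∑ i ∈ range m, c.getD i 0 = c.sum := by rw [← hc]; exact grs_getD_sum c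
  rw [h5] at h4
  omega

lemma grs_exch (m : ℕ) (g : ℕ → Col → ℕ) : ∀ S : List Col,
    ∑ i ∈ range m, (S.map (g i)).sum = (S.map (fun c => ∑ i ∈ range m, g i c)).sum := by
  intro S
  induction S with
  | nil => simp
  | cons a l ih =>
    simp only [List.map_cons, List.sum_cons, Finset.sum_add_distrib]
    rw [ih]

lemma grs_step {h C m : ℕ} (hh : 1 ≤ h) (hm : 1 ≤ m) (S : List Col)
    (hS : ∀ c ∈ S, c.1.length = m ∧ ∀ x ∈ c.1, x ≤ C) :
    (score h C S (best h C m S)).val ≤
      h * m * C * (S.map (fun c => c.2.1.val + c.2.2.val)).sum := by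
  obtain ⟨-, h2⟩ := grs_best h C m S hm
  have h3 : m * (score h C S (best h C m S)).val ≤ ∑ i ∈ range m, (score h C S i).val := by
    calc m * (score h C S (best h C m S)).val =
        ∑ _i ∈ range m, (score h C S (best h C m S)).val := by
          rw [Finset.sum_const, card_range, smul_eq_mul]
      _ ≤ _ := Finset.sum_le_sum (fun i hi => h2 i (mem_range.mp hi))
  have h4 : ∑ i ∈ range m, (score h C S i).val =
      m * (h * m * C * (S.map (fun c => c.2.1.val + c.2.2.val)).sum) := by
    have e1 : ∀ i, (score h C S i).val =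
        (S.map (fun c => ap h C c.1 i * c.2.1.val + am h C c.1 i * c.2.2.val)).sum :=
      grs_score h C S
    rw [Finset.sum_congr rfl (fun i _ => e1 i),
      grs_exch m (fun i c => ap h C c.1 i * c.2.1.val + am h C c.1 i * c.2.2.val) S]
    have e2 : S.map (fun c => ∑ i ∈ range m,
          (ap h C c.1 i * c.2.1.val + am h C c.1 i * c.2.2.val)) =
        S.map (fun c => m * (h * m * C) * (c.2.1.val + c.2.2.val)) := by
      apply List.map_congr_left
      intro c hc
      obtain ⟨h5, h6⟩ := hS c hc
      rw [Finset.sum_add_distrib, ← Finset.sum_mul, ← Finset.sum_mul, grs_ap_sum hh h5 h6,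
        grs_am_sum hh h5 h6]
      ring
    rw [e2, List.sum_map_mul_left]
    ring
  rw [h4] at h3
  exact Nat.le_of_mul_le_mul_left h3 hm

/-- the column of `c` after the choices `I` -/
def grsCol (h C : ℕ) (I : List ℕ) (c : List ℕ) : Col :=
  (c, ((⟨(I.map (ap h C c)).prod⟩ : BN), (⟨(I.map (am h C c)).prod⟩ : BN)))

lemma grs_upd (h C i : ℕ) (I : List ℕ) (cols : List (List ℕ)) :
    upd h C i (cols.map (grsCol h C I)) = cols.map (grsCol h C (i :: I)) := by
  unfold upd
  rw [List.map_map]
  apply List.map_congr_left
  intro c _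
  simp [grsCol]

lemma grs_score_eq (h C i : ℕ) (I : List ℕ) (cols : List (List ℕ)) :
    (score h C (cols.map (grsCol h C I)) i).val =
      (cols.map (fun c => ((i :: I).map (ap h C c)).prod + ((i :: I).map (am h C c)).prod)).sum := by
  rw [grs_score, List.map_map]
  apply congrArg List.sum
  apply List.map_congr_left
  intro c _
  simp [grsCol]

theorem grs : GrsS := by
  intro h C m t cols hh hm hcols
  induction t with
  | zero =>
    refine ⟨rfl, ?_, ?_, ?_⟩
    · intro i hi
      unfold gre at hi
      simp at hi
    · unfold gre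
      simp
    · unfold gre
      simp only [Function.iterate_zero, id_eq, List.map_nil, List.prod_nil, pow_zero, one_mul]
      rw [List.map_const', List.sum_replicate, smul_eq_mul]
      omega
  | succ t ih =>
    obtain ⟨h1, h2, h3, h4⟩ := ih
    set s := gre h C m t cols with hs
    have hstep : gre h C m (t + 1) cols = gst h C m s := by
      unfold gre
      rw [Function.iterate_succ_apply']
      rfl
    have h3' : s.2 = cols.map (grsCol h C s.1) := h3
    have hsc : ∀ c ∈ s.2, c.1.length = m ∧ ∀ x ∈ c.1, x ≤ C := by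
      intro c hc
      rw [h3', List.mem_map] at hc
      obtain ⟨c', hc', rfl⟩ := hc
      exact hcols c' hc'
    rw [hstep]
    unfold gst
    refine ⟨?_, ?_, ?_, ?_⟩
    · simp only [List.length_cons, h1]
    · intro i hi
      simp only [List.mem_cons] at hi
      rcases hi with h0 | h0
      · rw [h0]; exact (grs_best h C m s.2 hm).1
      · exact h2 i h0
    · simp only
      conv_lhs => rw [h3', grs_upd]
      rw [← h3']
      rfl
    · simp only
      have h5 := grs_step hh hm s.2 hsc
      have h6 : (score h C s.2 (best h C m s.2)).val = (cols.map (fun c =>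
          ((best h C m s.2 :: s.1).map (ap h C c)).prod +
            ((best h C m s.2 :: s.1).map (am h C c)).prod)).sum := by
        conv_lhs => rw [h3', grs_score_eq]
        rw [← h3']
      have h7 : (s.2.map (fun c => c.2.1.val + c.2.2.val)).sum =
          (cols.map (fun c => (s.1.map (ap h C c)).prod + (s.1.map (am h C c)).prod)).sum := by
        conv_lhs => rw [h3', List.map_map]
        rfl
      rw [h6, h7] at h5
      calc _ ≤ _ := h5
        _ ≤ h * m * C * ((h * m * C) ^ t * (2 * cols.length)) := by gcongr
        _ = _ := by ring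

end Pool.Agent.Lib.MP_87d05f_lc.SP
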