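import Pool.Agent.Lib.MP_87d05f_lc.SP.Stm
import Pool.Agent.Lib.MP_87d05f_lc.SP.Seq

set_option autoImplicit false

/-!
Piece nsep: separators in time `2 ^ (n / b)`.
-/

namespace Pool.Agent.Lib.MP_87d05f_lc.SP

open Pool.Agent.PolyTime Function Turing

/-- the rounded threshold in natural numbers -/
def nsepT (c p q t m m' : ℕ) : ℕ :=
  (m' * (8 * q * c * t - p * m) + (8 * q * c * m - 1)) / (8 * q * c * m)

theorem nsep_ceil {c p q t m m' : ℕ} (hc : 1 ≤ c) (hq : 0 < q) (hm : 0 < m) :
    (⌈(m' : ℚ) * (t / m - (p : ℚ) / (q : ℕ) / (8 * c))⌉).toNat = nsepT c p q t m m' := by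
  have hc0 : (0 : ℚ) < c := by exact_mod_cast hc
  have hq0 : (0 : ℚ) < q := by exact_mod_cast hq
  have hm0 : (0 : ℚ) < m := by exact_mod_cast hm
  obtain ⟨M, hM⟩ : ∃ M, M = 8 * q * c * m := ⟨_, rfl⟩
  have hM1 : 1 ≤ M := by
    rw [hM]
    exact Nat.mul_pos (Nat.mul_pos (Nat.mul_pos (by norm_num) hq) hc) hm
  have hM0 : (0 : ℚ) < M := by exact_mod_cast hM1
  have hval : (m' : ℚ) * (t / m - (p : ℚ) / (q : ℕ) / (8 * c)) =
      (m' * (8 * q * c * t - p * m)) / M := by
    rw [hM]
    push_cast
    field_simp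
  unfold nsepT
  rw [hval, ← hM]
  rcases le_total (p * m) (8 * q * c * t) with h | h
  · obtain ⟨N, hN⟩ : ∃ N, N = m' * (8 * q * c * t - p * m) := ⟨_, rfl⟩
    have hNq : (m' : ℚ) * (8 * q * c * t - p * m) = N := by
      rw [hN]
      push_cast [Nat.cast_sub h]
      ring
    rw [hNq, ← hN]
    obtain ⟨z, hz⟩ : ∃ z, z = (N + (M - 1)) / M := ⟨_, rfl⟩
    rw [← hz]
    have h1 : z * M ≤ N + (M - 1) := by
      rw [hz]
      exact Nat.div_mul_le_self _ _
    have h2 : N + (M - 1) < (z + 1) * M := by
      have h4 := Nat.lt_div_mul_add (a := N + (M - 1)) hM1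
      rw [hz, Nat.add_mul, Nat.one_mul]
      exact h4
    have h3 : ⌈(N : ℚ) / M⌉ = (z : ℤ) := by
      rw [Int.ceil_eq_iff]
      constructor
      · rw [lt_div_iff₀ hM0]
        have h4 : z * M < N + M := by omega
        have h5 : (z : ℚ) * M < N + M := by exact_mod_cast h4
        push_cast
        linarith
      · rw [div_le_iff₀ hM0]
        have h4 : N ≤ z * M := by
          have h6 : (z + 1) * M = z * M + M := by ring
          omega
        have h5 : (N : ℚ) ≤ z * M := by exact_mod_cast h4
        push_cast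
        exact h5
    rw [h3, Int.toNat_natCast]
  · have h0 : 8 * q * c * t - p * m = 0 := Nat.sub_eq_zero_of_le h
    rw [h0, Nat.mul_zero, Nat.zero_add, Nat.div_eq_of_lt (by omega)]
    have h1 : (m' : ℚ) * (8 * q * c * t - p * m) / M ≤ 0 := by
      have h2 : (8 : ℚ) * q * c * t ≤ p * m := by exact_mod_cast h
      have h3 : (m' : ℚ) * (8 * q * c * t - p * m) ≤ 0 :=
        mul_nonpos_of_nonneg_of_nonpos (Nat.cast_nonneg _) (by linarith)
      exact div_nonpos_of_nonpos_of_nonneg h3 hM0.le
    exact Int.toNat_of_nonpos (Int.ceil_le.2 (by exact_mod_cast h1))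

section aux

variable {d g : ℕ} {ar : Fin g → ℕ} (φ : (i : Fin g) → (Fin (ar i) → Fin d) → ℕ)

theorem nsep_mem {F : List (Con ar)} {c : Con ar} (h : c ∈ usC φ F) : c ∈ F := by
  classical
  unfold usC at h
  exact (List.mem_filter.1 h).1

theorem nsep_nvC (F : List (Con ar)) : nvC (usC φ F) ≤ nvC F := by
  classical
  unfold nvC
  refine Finset.card_le_card fun v hv => ?_
  rw [List.mem_toFinset] at hv ⊢
  obtain ⟨c, hc, hv⟩ := List.mem_flatMap.1 hv
  exact List.mem_flatMap.2 ⟨c, nsep_mem φ hc, hv⟩

theorem nsep_val (F : List (Con ar)) (h : usC φ F = []) (a : ℕ → Fin d) : valC φ a F = 0 := by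
  classical
  unfold valC
  rw [List.sum_eq_zero_iff]
  intro x hx
  obtain ⟨c, hc, rfl⟩ := List.mem_map.1 hx
  by_contra h0
  have h1 : c ∈ usC φ F := by
    unfold usC
    rw [List.mem_filter]
    exact ⟨hc, decide_eq_true ⟨a, Nat.pos_of_ne_zero h0⟩⟩
  rw [h] at h1
  exact absurd h1 (by simp)

theorem nsep_code {F F' : List (Con ar)} (h : ∀ c ∈ F', c ∈ F) :
    (codeC F').length ≤ F'.length * (codeC F).length := by
  have h1 : ∀ c ∈ F, (codeC [c]).length ≤ (codeC F).length := by
    intro c hc
    obtain ⟨l₁, l₂, rfl⟩ := List.append_of_mem hc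
    have h2 : codeC (l₁ ++ c :: l₂) = codeC l₁ ++ (codeC [c] ++ codeC l₂) := by
      unfold codeC
      rw [List.flatMap_append, List.flatMap_cons, List.flatMap_singleton]
    rw [h2, List.length_append, List.length_append]
    omega
  induction F' with
  | nil => simp [codeC]
  | cons c F' ih =>
    have h2 := ih fun e he => h e (List.mem_cons_of_mem _ he)
    have h3 := h1 c (h c List.mem_cons_self)
    have h4 : codeC (c :: F') = codeC [c] ++ codeC F' := by
      unfold codeC
      rw [List.flatMap_cons, List.flatMap_singleton]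
    rw [h4, List.length_append, List.length_cons, Nat.add_mul, Nat.one_mul]
    omega

theorem nsep_codeM (I : ℕ × List (Con ar)) : (codeC I.2).length ≤ (enM I).length := by
  unfold enM
  have h : encW ([List.replicate I.1 true] :: I.2.map wordC) =
      encW [[List.replicate I.1 true]] ++ encW (I.2.map wordC) := by
    rw [← encW_append]
    rfl
  rw [codeC_eq, h, List.length_append]
  omega

/-- the word of a good sample -/
theorem nsep_good {ε : ℚ} {D : ℕ} {F : List (Con ar)} {w : List Bool}
    (h : goodS' φ ε D (usC φ F) w) : ∃ F' : List (Con ar), w = codeC F' ∧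
      (∀ c ∈ F', c ∈ F) ∧ F'.length ≤ D * (nvC F + 1) ∧ (usC φ F = [] → F' = []) ∧
      (usC φ F ≠ [] → F' ≠ [] ∧ ∀ a : ℕ → Fin d, |(valC φ a F' : ℚ) / F'.length -
        (valC φ a (usC φ F) : ℚ) / (usC φ F).length| ≤ ε) := by
  by_cases h0 : usC φ F = []
  · refine ⟨[], ?_, ?_, ?_, fun _ => rfl, fun h1 => absurd h0 h1⟩
    · rw [h.1 h0, h0]
    · intro c hc
      exact absurd hc (by simp)
    · simp
  · obtain ⟨F', hw, hF0, hmem, hlen, hval⟩ := h.2 h0
    refine ⟨F', hw, fun c hc => nsep_mem φ (hmem c hc), hlen.trans ?_, fun h1 => absurd h1 h0,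
      fun _ => ⟨hF0, hval⟩⟩
    exact Nat.mul_le_mul_left _ (Nat.add_le_add_right (nsep_nvC φ F) 1)

theorem nsep_div {D n l b : ℕ} (hb : 0 < b) (h : l ≤ D * (n + 1)) :
    l / (2 * b * D + 1) ≤ n / b := by
  rcases Nat.eq_zero_or_pos n with h0 | h0
  · rw [h0] at h ⊢
    have h1 : D * (0 + 1) ≤ 2 * b * D := by
      have h2 : 1 * D ≤ (2 * b) * D := Nat.mul_le_mul_right D (by omega)
      omega
    rw [Nat.div_eq_of_lt (by omega)]
    exact Nat.zero_le _
  · rcases Nat.eq_zero_or_pos D with hD | hD
    · rw [hD, Nat.zero_mul] at h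
      rw [Nat.le_zero.1 h, Nat.zero_div]
      exact Nat.zero_le _
    · have h1 : l ≤ n * (2 * D) := by
        have h2 : n + 1 ≤ 2 * n := by omega
        have h3 := Nat.mul_le_mul_left D h2
        have h4 : D * (2 * n) = n * (2 * D) := by ring
        omega
      have h2 : l / (2 * b * D + 1) ≤ n * (2 * D) / (b * (2 * D)) := by
        have h3 : b * (2 * D) ≤ 2 * b * D + 1 := by
          have : b * (2 * D) = 2 * b * D := by ring
          omega
        exact Nat.div_le_div h1 h3 (Nat.ne_of_gt (Nat.mul_pos hb (by omega)))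
      rw [Nat.mul_div_mul_right _ _ (by omega : 0 < 2 * D)] at h2
      exact h2

end aux

theorem nsep_K {g : ℕ} (ar : Fin g → ℕ) : ∃ K : ℕ, ∀ i, ar i ≤ K :=
  ⟨∑ i, ar i, fun i => Finset.single_le_sum (f := ar) (fun _ _ => Nat.zero_le _)
    (Finset.mem_univ i)⟩

theorem nsep (hu : UsmS) (hn : NthS) : NsepS := by
  intro d g ar φ hd H p q b hp hpq hb
  have hq : 0 < q := by omega
  obtain ⟨K, hK⟩ := nsep_K ar
  obtain ⟨ε, hεd⟩ : ∃ ε : ℚ, ε = (p : ℚ) / (q : ℕ) := ⟨_, rfl⟩
  have hp0 : (0 : ℚ) < p := by exact_mod_cast hp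
  have hq0 : (0 : ℚ) < q := by exact_mod_cast hq
  have hε0 : 0 < ε := by
    rw [hεd]
    positivity
  have hε1 : ε < 1 := by
    rw [hεd, div_lt_one hq0]
    exact_mod_cast hpq
  have hdK : 1 ≤ d ^ K := Nat.one_le_pow _ _ hd
  have hd0 : (0 : ℚ) < d := by exact_mod_cast hd
  have hε₁ : 0 < ε / (8 * (d : ℚ) ^ K) := by positivity
  obtain ⟨D, hfind, -⟩ := hu d g ar φ hd _ hε₁ b hb
  have hmax := max_rev φ hd H (p := p) (q := 4 * q) (b := 2 * b * D + 1) hp (by omega)
    (by omega)
  have hε4 : (p : ℚ) / ((4 * q : ℕ) : ℚ) = ε / 4 := by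
    rw [hεd]
    push_cast
    field_simp
  rw [hε4] at hmax
  obtain ⟨W, dc, ec, hW, hec⟩ := exists_bits d hd
  obtain ⟨tab, htab⟩ : ∃ tab, tab = tabP φ dc := ⟨_, rfl⟩
  -- the useful constraints in words
  have huse : ∀ I : ℕ × List (Con ar), (usI tab (enM I)).length = (usC φ I.2).length := by
    classical
    intro I
    rw [usI_enM, List.length_map]
    unfold usC
    congr 1
    refine List.filter_congr fun c _ => ?_
    rw [Bool.eq_iff_iff, htab, useful_iff φ dc hec c, decide_eq_true_iff]
    rfl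
  -- the programs
  set th : List Bool × List Bool → ℕ := fun y => bif decide ((usI tab y.1).length = 0) then
    thI y.1 else mydiv ((parseW y.2).length * (8 * q * d ^ K * thI y.1 -
      p * (usI tab y.1).length) + (8 * q * d ^ K * (usI tab y.1).length - 1))
        (8 * q * d ^ K * (usI tab y.1).length) with hth
  have hthP : PTime th := by
    have h1 : PTime (fun y : List Bool × List Bool => (usI tab y.1).length) :=
      (PTime.length (usI_ptime tab)).comp PTime.fst
    have h2 : PTime (fun y : List Bool × List Bool => thI y.1) := thI_ptime.comp PTime.fst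
    have h3 : PTime (fun y : List Bool × List Bool => (parseW y.2).length) :=
      (PTime.length parseW_ptime).comp PTime.snd
    have h4 : PTime (fun y : List Bool × List Bool =>
        8 * q * d ^ K * (usI tab y.1).length) := PTime.mul (PTime.const _) h1
    exact PTime.cond (PTime.isZero h1) h2 (mydiv_ptime (PTime.add (PTime.mul h3
      (PTime.sub (PTime.mul (PTime.const _) h2) (PTime.mul (PTime.const p) h1)))
        (PTime.pred h4)) h4)
  set f : List Bool × List Bool → List Bool := fun y =>
    encW ([List.replicate (th y) true] :: parseW y.2) with hf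
  have hfP : PTime f :=
    encW_ptime (PTime.cons (PTime.cons (PTime.replicate hthP (PTime.const true))
      (PTime.const [])) (parseW_ptime.comp PTime.snd))
  set h₁ : List Bool → ℕ := fun x =>
    mydiv (ded ((parseW x).tail.flatMap List.tail)).length b with hh₁
  have hh₁P : PTime h₁ := by
    have h1 : PTime (fun x : List Bool => (parseW x).tail.flatMap List.tail) :=
      PTime.flatMap (l := fun x : List Bool => (parseW x).tail)
        (f := fun (_ : List Bool) (c : List (List Bool)) => c.tail) (PTime.tail parseW_ptime)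
        (PTime.tail PTime.snd)
    exact mydiv_ptime (PTime.length (ded_ptime h1)) (PTime.const b)
  have hh₁e : ∀ I : ℕ × List (Con ar), h₁ (enM I) = nvC I.2 / b := by
    intro I
    change mydiv (ded ((parseW (enM I)).tail.flatMap List.tail)).length b = _
    rw [enM_parse, List.tail_cons, nvC_eq, mydiv_eq hb]
  have hQ : PolyB (fun L => D * (L + 1) * L) :=
    ((PolyB.const D).mul (PolyB.id.add (PolyB.const 1))).mul PolyB.id
  refine seq_sep (en₁ := enM) (en₂ := enM) (V₂ := fun _ => True) (μ₂ := fun I => I.2.length)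
    (b₁ := b) (b₂ := 2 * b * D + 1) (h₁ := h₁) (f := f) (h := fun y => h₁ y.1) hQ hh₁P hfP
    (hh₁P.comp PTime.fst) ?_ ?_ ?_ ?_ hfind hmax
  · intro I _
    exact (nvC_le I.2).trans (nsep_codeM I)
  · intro I _
    rw [hh₁e]
    exact ⟨le_rfl, le_rfl⟩
  · intro I _ w hw
    obtain ⟨F', rfl, hmem, hlen, -, -⟩ := nsep_good φ hw
    have h1 := nsep_code hmem
    have h2 := nsep_codeM I
    have h3 := (nvC_le I.2).trans h2
    exact h1.trans (Nat.mul_le_mul (hlen.trans (Nat.mul_le_mul_left _ (by omega))) h2)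
  · intro I _ w hw
    obtain ⟨F', rfl, hmem, hlen, h0, h1⟩ := nsep_good φ hw
    have hpw : parseW (codeC F') = F'.map wordC := by
      rw [codeC_eq, parseW_encW]
    have hdiv : F'.length / (2 * b * D + 1) ≤ h₁ (enM I) := by
      rw [hh₁e]
      exact nsep_div hb hlen
    have hthe : th (enM I, codeC F') = bif decide ((usC φ I.2).length = 0) then I.1 else
        nsepT (d ^ K) p q I.1 (usC φ I.2).length F'.length := by
      change (bif decide ((usI tab (enM I)).length = 0) then thI (enM I) else
        mydiv ((parseW (codeC F')).length * (8 * q * d ^ K * thI (enM I) -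
          p * (usI tab (enM I)).length) + (8 * q * d ^ K * (usI tab (enM I)).length - 1))
            (8 * q * d ^ K * (usI tab (enM I)).length)) = _
      rw [huse, thI_enM, hpw, List.length_map]
      rcases Nat.eq_zero_or_pos (usC φ I.2).length with h2 | h2
      · rw [h2]
        rfl
      · rw [decide_eq_false (Nat.ne_of_gt h2), cond_false, cond_false, mydiv_eq
          (Nat.mul_pos (Nat.mul_pos (Nat.mul_pos (by norm_num) hq) hdK) h2)]
        rfl
    refine ⟨(th (enM I, codeC F'), F'), trivial, ?_, ?_, ?_, hdiv, (hh₁e I).le⟩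
    · change encW ([List.replicate (th (enM I, codeC F')) true] :: F'.map wordC) =
        encW ([List.replicate (th (enM I, codeC F')) true] :: parseW (codeC F'))
      rw [hpw]
    · rintro ⟨a, ha⟩
      by_cases hu0 : usC φ I.2 = []
      · refine ⟨a, ?_⟩
        change th (enM I, codeC F') ≤ _
        rw [hthe, hu0]
        rw [nsep_val φ I.2 hu0 a] at ha
        change I.1 ≤ _
        omega
      · obtain ⟨hF0, hval⟩ := h1 hu0
        have h2 := (hn d g K ar φ ε I.2 F' I.1 hd hK hε0 hε1 hu0 hF0 hval).1 ⟨a, ha⟩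
        have hpos : 0 < (usC φ I.2).length := List.length_pos_of_ne_nil hu0
        have h3 := nsep_ceil (c := d ^ K) (p := p) (q := q) (t := I.1)
          (m := (usC φ I.2).length) (m' := F'.length) hdK hq hpos
        push_cast at h3
        rw [← hεd] at h3
        rw [h3] at h2
        obtain ⟨a', ha'⟩ := h2
        refine ⟨a', ?_⟩
        change th (enM I, codeC F') ≤ _
        rw [hthe, decide_eq_false (Nat.ne_of_gt hpos), cond_false]
        exact ha'
    · intro hN a
      change ((valC φ a F' : ℕ) : ℚ) < (1 - ε / 4) * (th (enM I, codeC F') : ℚ)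
      have hN' : ∀ a : ℕ → Fin d, (valC φ a I.2 : ℚ) < (1 - ε) * I.1 := by
        intro a
        have := hN a
        rw [← hεd] at this
        exact this
      by_cases hu0 : usC φ I.2 = []
      · rw [hthe, hu0, h0 hu0]
        change ((valC φ a ([] : List (Con ar)) : ℕ) : ℚ) < (1 - ε / 4) * (I.1 : ℚ)
        have h2 := hN' a
        have h3 : (0 : ℚ) ≤ (valC φ a I.2 : ℚ) := Nat.cast_nonneg _
        have h4 : (0 : ℚ) < (1 - ε) * I.1 := by linarith
        have h5 : (0 : ℚ) < I.1 := by
          rcases (mul_pos_iff.1 h4) with h | h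
          · exact h.2
          · linarith [h.1]
        have h6 : valC φ a ([] : List (Con ar)) = 0 := rfl
        rw [h6, Nat.cast_zero]
        exact mul_pos (by linarith) h5
      · obtain ⟨hF0, hval⟩ := h1 hu0
        have h2 := (hn d g K ar φ ε I.2 F' I.1 hd hK hε0 hε1 hu0 hF0 hval).2.1 hN' a
        have hpos : 0 < (usC φ I.2).length := List.length_pos_of_ne_nil hu0
        have h3 := nsep_ceil (c := d ^ K) (p := p) (q := q) (t := I.1)
          (m := (usC φ I.2).length) (m' := F'.length) hdK hq hpos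
        push_cast at h3
        rw [← hεd] at h3
        rw [h3] at h2
        rw [hthe, decide_eq_false (Nat.ne_of_gt hpos), cond_false]
        exact h2

end Pool.Agent.Lib.MP_87d05f_lc.SP
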