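import Pool.Agent.Lib.MP_87d05f_lc.SP.Stm

set_option autoImplicit false

/-!
# SPARSIFIER, piece smp: the sampling program is polynomial-time
-/

namespace Pool.Agent.Lib.MP_87d05f_lc.SP

open Pool.Agent.PolyTime

section

variable {α : Type} [SCode α]

theorem smp_lkv {y : α → List (List Bool × ℕ)} {w : α → List Bool}
    (hy : PTime y) (hw : PTime w) : PTime (fun a => lkv (y a) (w a)) := by
  unfold lkv
  refine PTime.option_casesOn
    (f := fun a => (y a).find? (fun e => decide (e.1 = w a)))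
    (g := fun _ => (0 : ℕ))
    (h := fun _ (e : List Bool × ℕ) => e.2) ?_ (PTime.const _)
    (PTime.snd.comp PTime.snd)
  refine PTime.find? (l := y) (p := fun a (e : List Bool × ℕ) => decide (e.1 = w a)) hy ?_
  exact PTime.eq (PTime.fst.comp PTime.snd) (hw.comp PTime.fst)

theorem smp_payW (tb : TabV) {y : α → List (List Bool × ℕ)} {c : α → List (List Bool)}
    (hy : PTime y) (hc : PTime c) : PTime (fun a => payW tb (lkv (y a)) (c a)) := by
  unfold payW
  refine PTime.option_casesOn
    (f := fun a => tb.find? (fun e => decide (e.1 = ((c a).headD [],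
      (c a).tail.map (lkv (y a))))))
    (g := fun _ => (0 : ℕ))
    (h := fun _ (e : (List Bool × List ℕ) × ℕ) => e.2) ?_ (PTime.const _)
    (PTime.snd.comp PTime.snd)
  refine PTime.find? (l := fun _ => tb)
    (p := fun a (e : (List Bool × List ℕ) × ℕ) => decide (e.1 = ((c a).headD [],
      (c a).tail.map (lkv (y a))))) (PTime.const tb) ?_
  refine PTime.eq (PTime.fst.comp PTime.snd) ?_
  have h1 : PTime (fun a => ((c a).headD [], (c a).tail.map (lkv (y a)))) := by
    refine (PTime.headD hc (PTime.const [])).pair ?_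
    exact PTime.map (l := fun a => (c a).tail) (f := fun a w => lkv (y a) w) (PTime.tail hc)
      (smp_lkv (hy.comp PTime.fst) PTime.snd)
  exact h1.comp PTime.fst

theorem smp_bks {Bk : α → ℕ} {G : α → List (List (List Bool))} (hB : PTime Bk) (hG : PTime G) :
    PTime (fun a => bks (Bk a) (G a)) := by
  unfold bks
  have h1 : PTime (fun a => (ded ((G a).flatMap List.tail)).zipIdx) := by
    refine PTime.zipIdx (ded_ptime ?_)
    exact PTime.flatMap (f := fun _ (c : List (List Bool)) => c.tail) hG (PTime.tail PTime.snd)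
  refine PTime.map (l := fun a => (ded ((G a).flatMap List.tail)).zipIdx)
    (f := fun a (p : List Bool × ℕ) => (p.1, p.2 - Bk a * mydiv p.2 (Bk a))) h1 ?_
  refine (PTime.fst.comp PTime.snd).pair ?_
  exact PTime.sub (PTime.snd.comp PTime.snd) (PTime.mul (hB.comp PTime.fst)
    (mydiv_ptime (PTime.snd.comp PTime.snd) (hB.comp PTime.fst)))

theorem smp_key {Bk : α → ℕ} {G : α → List (List (List Bool))} {c : α → List (List Bool)}
    (hB : PTime Bk) (hG : PTime G) (hc : PTime c) :
    PTime (fun a => key (Bk a) (G a) (c a)) := by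
  unfold key
  exact PTime.map (l := fun a => (c a).tail) (f := fun a w => lkv (bks (Bk a) (G a)) w)
    (PTime.tail hc) (smp_lkv ((smp_bks hB hG).comp PTime.fst) PTime.snd)

theorem smp_mem {Bk : α → ℕ} {G : α → List (List (List Bool))} {T : α → List ℕ}
    (hB : PTime Bk) (hG : PTime G) (hT : PTime T) :
    PTime (fun a => mem (Bk a) (G a) (T a)) := by
  unfold mem
  refine PTime.filter (l := fun a => (G a).zipIdx)
    (p := fun a (p : List (List Bool) × ℕ) => decide (key (Bk a) (G a) p.1 = T a))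
    (PTime.zipIdx hG) ?_
  exact PTime.eq (smp_key (hB.comp PTime.fst) (hG.comp PTime.fst) (PTime.fst.comp PTime.snd))
    (hT.comp PTime.fst)

theorem smp_cvs {Bk : α → ℕ} {G : α → List (List (List Bool))} {T : α → List ℕ}
    (hB : PTime Bk) (hG : PTime G) (hT : PTime T) :
    PTime (fun a => cvs (Bk a) (G a) (T a)) := by
  unfold cvs
  refine PTime.map (f := fun _ (e : List Bool × ℕ) => e.1) ?_ (PTime.fst.comp PTime.snd)
  refine PTime.filter (l := fun a => bks (Bk a) (G a))
    (p := fun a (e : List Bool × ℕ) => decide (e.2 ∈ T a)) (smp_bks hB hG) ?_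
  exact PTime.mem (PTime.snd.comp PTime.snd) (hT.comp PTime.fst)

theorem smp_cols (tb : TabV) {M : α → List (List (List Bool) × ℕ)}
    {Y : α → List (List (List Bool × ℕ))} (hM : PTime M) (hY : PTime Y) :
    PTime (fun a => (Y a).map (fun y => (M a).map (fun p => payW tb (lkv y) p.1))) := by
  refine PTime.map (l := Y)
    (f := fun a (y : List (List Bool × ℕ)) => (M a).map (fun p => payW tb (lkv y) p.1)) hY ?_
  refine PTime.map (l := fun q : α × List (List Bool × ℕ) => M q.1)
    (f := fun q (p : List (List Bool) × ℕ) => payW tb (lkv q.2) p.1) (hM.comp PTime.fst) ?_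
  exact smp_payW tb (PTime.snd.comp PTime.fst) (PTime.fst.comp PTime.snd)

theorem smp_gre (hg : GrpS) (C : ℕ) {h m s : α → ℕ} {cols : α → List (List ℕ)}
    (hh : PTime h) (hm : PTime m) (hs : PTime s) (hc : PTime cols) :
    PTime (fun a => gre (h a) C (m a) (s a) (cols a)) :=
  PTime.comp (f := fun p : (ℕ × (ℕ × ℕ)) × List (List ℕ) => gre p.1.1 C p.1.2.1 p.1.2.2 p.2)
    (g := fun a => ((h a, (m a, s a)), cols a)) (hg C) ((hh.pair (hm.pair hs)).pair hc)

theorem smp_asg (ha : AspS) (d : ℕ) {fuel : α → ℕ} {V : α → List (List Bool)}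
    (hf : PTime fuel) (hV : PTime V) : PTime (fun a => asg d (fuel a) (V a)) :=
  PTime.comp (f := fun p : ℕ × List (List Bool) => asg d p.1 p.2)
    (g := fun a => (fuel a, V a)) (ha d) (hf.pair hV)

theorem smp_pos {M : α → List (List (List Bool) × ℕ)} {g : α → List ℕ × List Col}
    (hM : PTime M) (hg : PTime g) :
    PTime (fun a => (g a).1.filterMap (fun i => ((M a).map Prod.snd)[i]?)) := by
  have h4 : PTime (fun a => (M a).map Prod.snd) :=
    PTime.map (f := fun _ (e : List (List Bool) × ℕ) => e.2) hM (PTime.snd.comp PTime.snd)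
  exact PTime.filterMap (l := fun a => (g a).1)
    (f := fun a (i : ℕ) => ((M a).map Prod.snd)[i]?) (PTime.fst.comp hg)
    (PTime.getElem? PTime.snd (h4.comp PTime.fst))

theorem smp_smpT (hg : GrpS) (ha : AspS) (tb : TabV) (d C : ℕ) {Bk h s fuel : α → ℕ}
    {G : α → List (List (List Bool))} {T : α → List ℕ}
    (hB : PTime Bk) (hh : PTime h) (hs : PTime s) (hf : PTime fuel)
    (hG : PTime G) (hT : PTime T) :
    PTime (fun a => smpT tb d C (Bk a) (h a) (s a) (fuel a) (G a) (T a)) := by
  have hm := smp_mem hB hG hT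
  have hc := smp_cvs hB hG hT
  have h2 := smp_cols tb hm (smp_asg ha d hf hc)
  have h3 := smp_gre hg C hh (PTime.length hm) hs h2
  exact smp_pos hm h3

theorem smp_smp (hg : GrpS) (ha : AspS) (tb : TabV) (d C : ℕ) {Bk h s Q fuel : α → ℕ}
    {G : α → List (List (List Bool))}
    (hB : PTime Bk) (hh : PTime h) (hs : PTime s) (hQ : PTime Q) (hf : PTime fuel)
    (hG : PTime G) :
    PTime (fun a => smp tb d C (Bk a) (h a) (s a) (Q a) (fuel a) (G a)) := by
  unfold smp
  have h1 : PTime (fun a => ded ((G a).map (key (Bk a) (G a)))) := by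
    refine ded_ptime ?_
    exact PTime.map (l := G) (f := fun a c => key (Bk a) (G a) c) hG
      (smp_key (hB.comp PTime.fst) (hG.comp PTime.fst) PTime.snd)
  refine PTime.flatMap (l := fun a => ded ((G a).map (key (Bk a) (G a))))
    (f := fun a (T : List ℕ) => (List.replicate (mydiv (Q a * (mem (Bk a) (G a) T).length)
      (G a).length) (smpT tb d C (Bk a) (h a) (s a) (fuel a) (G a) T)).flatten) h1 ?_
  refine PTime.flatten (PTime.replicate ?_ ?_)
  · exact mydiv_ptime (PTime.mul (hQ.comp PTime.fst) (PTime.length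
      (smp_mem (hB.comp PTime.fst) (hG.comp PTime.fst) PTime.snd)))
      (PTime.length (hG.comp PTime.fst))
  · exact smp_smpT hg ha tb d C (hB.comp PTime.fst) (hh.comp PTime.fst) (hs.comp PTime.fst)
      (hf.comp PTime.fst) (hG.comp PTime.fst) PTime.snd

end

/-- [smp] -/
theorem p_smp (hg : GrpS) (ha : AspS) : SmpS := by
  intro tb d C
  unfold smpW
  have hp : PTime (fun p : (((ℕ × ℕ) × (ℕ × ℕ)) × List (List (List Bool))) × ℕ => p.1) :=
    PTime.fst
  have hG : PTime (fun p : (((ℕ × ℕ) × (ℕ × ℕ)) × List (List (List Bool))) × ℕ => p.1.2) :=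
    PTime.snd.comp PTime.fst
  have hq : PTime (fun p : (((ℕ × ℕ) × (ℕ × ℕ)) × List (List (List Bool))) × ℕ => p.1.1) :=
    PTime.fst.comp PTime.fst
  have hq1 : PTime (fun p : (((ℕ × ℕ) × (ℕ × ℕ)) × List (List (List Bool))) × ℕ => p.1.1.1) :=
    PTime.fst.comp hq
  have hq2 : PTime (fun p : (((ℕ × ℕ) × (ℕ × ℕ)) × List (List (List Bool))) × ℕ => p.1.1.2) :=
    PTime.snd.comp hq
  refine PTime.filterMap
    (l := fun p : (((ℕ × ℕ) × (ℕ × ℕ)) × List (List (List Bool))) × ℕ =>
      smp tb d C p.1.1.1.1 p.1.1.1.2 p.1.1.2.1 p.1.1.2.2 p.2 p.1.2)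
    (f := fun p (i : ℕ) => (p.1.2)[i]?) ?_ (PTime.getElem? PTime.snd (hG.comp PTime.fst))
  exact smp_smp hg ha tb d C (PTime.fst.comp hq1) (PTime.snd.comp hq1) (PTime.fst.comp hq2)
    (PTime.snd.comp hq2) PTime.snd hG

end Pool.Agent.Lib.MP_87d05f_lc.SP
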