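import Pool.Agent.Lib.MP_87d05f_lc.SP.Stm

set_option autoImplicit false

/-!
# SPARSIFIER: the sample of one class
-/

namespace Pool.Agent.Lib.MP_87d05f_lc.SP

open Pool.Agent.PolyTime Finset

/-- the value of a variable in the association list of an assignment -/
theorem smt_lkv (V : List (List Bool)) (A : List Bool → ℕ) (w : List Bool) (hw : w ∈ V) :
    lkv (V.map (fun w => (w, A w))) w = A w := by
  have h1 : ∃ e, (V.map (fun w => (w, A w))).find? (fun e => decide (e.1 = w)) = some e := by
    rw [← Option.isSome_iff_exists, List.find?_isSome]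
    exact ⟨(w, A w), List.mem_map.2 ⟨w, hw, rfl⟩, decide_eq_true rfl⟩
  obtain ⟨e, he⟩ := h1
  have h2 := List.find?_some he
  have h3 := List.mem_of_find?_eq_some he
  obtain ⟨w', hw', rfl⟩ := List.mem_map.1 h3
  have h4 : w' = w := of_decide_eq_true h2
  subst h4
  unfold lkv
  rw [he]

theorem smt_mem {Bk : ℕ} {G : List (List (List Bool))} {T : List ℕ}
    {p : List (List Bool) × ℕ} (hp : p ∈ mem Bk G T) :
    G[p.2]? = some p.1 ∧ key Bk G p.1 = T := by
  have h1 := List.mem_filter.1 hp
  exact ⟨List.mem_zipIdx_iff_getElem?.1 h1.1, of_decide_eq_true h1.2⟩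

theorem smt_filterMap (N : List ℕ) (I : List ℕ) (hI : ∀ i ∈ I, i < N.length) :
    I.filterMap (fun i => N[i]?) = I.map (fun i => N.getD i 0) := by
  induction I with
  | nil => rfl
  | cons a I ih =>
    have ha : a < N.length := hI a List.mem_cons_self
    rw [List.filterMap_cons, List.getElem?_eq_getElem ha, List.map_cons,
      ih (fun i hi => hI i (List.mem_cons_of_mem _ hi)), List.getD_eq_getElem _ _ ha]

theorem smt (hg : GrsS) (hp : PotS) (ha : AssS) (ht : TabS) : SmtS := by
  intro d g ar φ C Bk h s fuel L G T hd hφ hC hh hs hm hV hf hvars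
  set M := mem Bk G T with hM
  set V := cvs Bk G T with hVdef
  have hm1 : 1 ≤ M.length := by
    rcases Nat.eq_zero_or_pos M.length with h0 | h0
    · exact absurd (List.length_eq_zero_iff.1 h0) hm
    · exact h0
  set cols : List (List ℕ) := (asg d fuel V).map (fun y =>
    M.map (fun p => payW (tabV φ) (lkv y) p.1)) with hcols
  have hc : ∀ c ∈ cols, c.length = M.length ∧ ∀ x ∈ c, x ≤ C := by
    intro c hc
    obtain ⟨y, _, rfl⟩ := List.mem_map.1 hc
    refine ⟨List.length_map _, fun x hx => ?_⟩
    obtain ⟨p, _, rfl⟩ := List.mem_map.1 hx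
    exact (ht d g ar φ).2.2 C (lkv y) p.1 hφ
  obtain ⟨g1, g2, g3, g4⟩ := hg h C M.length s cols (by omega) hm1 hc
  set I := (gre h C M.length s cols).1 with hI
  have hsm : smpT (tabV φ) d C Bk h s fuel G T = I.map (fun i => (M.map Prod.snd).getD i 0) := by
    have h1 : smpT (tabV φ) d C Bk h s fuel G T = I.filterMap (fun i => (M.map Prod.snd)[i]?) :=
      rfl
    rw [h1]
    exact smt_filterMap _ _ (fun i hi => by rw [List.length_map]; exact g2 i hi)
  have hget : ∀ i, (hi : i < M.length) → (M.map Prod.snd).getD i 0 = (M[i]).2 := by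
    intro i hi
    rw [List.getD_eq_getElem _ _ (by rw [List.length_map]; exact hi), List.getElem_map]
  refine ⟨?_, ?_, ?_⟩
  · rw [hsm, List.length_map]
    exact g1
  · intro i hi
    rw [hsm] at hi
    obtain ⟨j, hj, rfl⟩ := List.mem_map.1 hi
    have hj' := g2 j hj
    rw [hget j hj']
    have h1 := smt_mem (List.getElem_mem hj' : M[j] ∈ mem Bk G T)
    exact ⟨_, h1.1, h1.2⟩
  · intro A hA
    obtain ⟨a1, a2⟩ := ha d fuel V hd
    have hy := a2 (hV.trans hf) A hA
    set y := V.map (fun w => (w, A w)) with hydef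
    set c : List ℕ := M.map (fun p => payW (tabV φ) A p.1) with hcdef
    have hcy : M.map (fun p => payW (tabV φ) (lkv y) p.1) = c := by
      refine List.map_congr_left fun p hp => ?_
      exact (ht d g ar φ).2.1 _ _ _ fun w hw => smt_lkv V A w (hvars p hp w hw)
    have hcc : c ∈ cols := List.mem_map.2 ⟨y, hy, hcy⟩
    have hlen : c.length = M.length := (hc c hcc).1
    have hcol : 2 * cols.length ≤ 2 ^ (L + 1) := by
      rw [pow_succ, mul_comm (2 ^ L) 2]
      refine Nat.mul_le_mul_left 2 ?_
      rw [hcols, List.length_map]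
      exact a1.trans hV
    have hbd : (I.map (ap h C c)).prod + (I.map (am h C c)).prod ≤
        (h * M.length * C) ^ I.length * 2 ^ (L + 1) := by
      rw [g1]
      refine le_trans ?_ (g4.trans (Nat.mul_le_mul_left _ hcol))
      exact List.single_le_sum (fun x _ => Nat.zero_le x) _ (List.mem_map.2 ⟨c, hcc, rfl⟩)
    have key := hp h C M.length L c I hh hC hm1 hlen (hc c hcc).2 g2 (by omega) (by omega)
    have hsum : ((smpT (tabV φ) d C Bk h s fuel G T).map
        (fun i => payW (tabV φ) A (G.getD i []))).sum = (I.map (fun i => c.getD i 0)).sum := by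
      rw [hsm, List.map_map]
      refine congrArg List.sum (List.map_congr_left fun i hi => ?_)
      have hi' := g2 i hi
      have h1 := smt_mem (List.getElem_mem hi' : M[i] ∈ mem Bk G T)
      have h2 : c.getD i 0 = payW (tabV φ) A (M[i]).1 := by
        rw [hcdef, List.getD_eq_getElem _ _ (by rw [List.length_map]; exact hi'),
          List.getElem_map]
      rw [Function.comp_apply, hget i hi', List.getD_eq_getElem?_getD, h1.1, h2]
      rfl
    have hsp : (0 : ℚ) < s := by
      rw [hs]
      have : 0 < h * h * (L + 1) := by positivity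
      exact_mod_cast this
    have hmp : (0 : ℚ) < M.length := by exact_mod_cast hm1
    have hhp : (0 : ℚ) < h := by exact_mod_cast (by omega : 0 < h)
    rw [g1] at key
    have e1 : ((((smpT (tabV φ) d C Bk h s fuel G T).map
        (fun i => payW (tabV φ) A (G.getD i []))).sum : ℕ) : ℚ) / s -
        ((c.sum : ℕ) : ℚ) / M.length =
        ((M.length : ℚ) * ((I.map (fun i => c.getD i 0)).sum : ℕ) - (s : ℚ) * (c.sum : ℕ)) /
          (M.length * s) := by
      rw [hsum]
      field_simp
    rw [e1, abs_div, abs_of_pos (mul_pos hmp hsp), div_le_iff₀ (mul_pos hmp hsp)]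
    refine key.trans (le_of_eq ?_)
    have hs' : (s : ℚ) = h * h * (L + 1) := by rw [hs]; push_cast; ring
    rw [hs']
    field_simp
    ring

end Pool.Agent.Lib.MP_87d05f_lc.SP
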