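import Pool.Agent.Lib.MP_87d05f_lc.SP.Stm
import Pool.Agent.Lib.MP_87d05f_lc.SP.Pad

set_option autoImplicit false

/-!
Piece spm: the sparsifier as a machine.
-/

namespace Pool.Agent.Lib.MP_87d05f_lc.SP

open Pool.Agent.PolyTime Function Turing

/-- the parameters and the constraints -/
abbrev SpmSt : Type := ((ℕ × ℕ) × (ℕ × ℕ)) × List (List (List Bool))

theorem spm_prog (hp : SmpS) (tb : TabV) (d C lamK : ℕ) :
    PTime (fun p : SpmSt × List Unit => encW (smpW tb d C p.1.1.1.1 p.1.1.1.2 p.1.1.2.1 p.1.1.2.2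
      (2 ^ lamK * p.2.length) p.1.2)) := by
  have h1 : PTime (fun p : SpmSt × List Unit => 2 ^ lamK * p.2.length) :=
    PTime.mul (PTime.const _) (PTime.length PTime.snd)
  exact encW_ptime ((hp tb d C).comp (PTime.fst.pair h1))

theorem spm_min {α : Type} [SCode α] {f g : α → ℕ} (hf : PTime f) (hg : PTime g) :
    PTime (fun a => min (f a) (g a)) := by
  refine (PTime.ite (c := fun a => f a ≤ g a) (PTime.nat_le hf hg) hf hg).of_eq fun a => ?_
  by_cases h : f a ≤ g a
  · rw [if_pos h, min_eq_left h]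
  · rw [if_neg h, min_eq_right (by omega)]

theorem spm_div {e lk b n : ℕ} (hb : 0 < b) :
    e * (lk * (n / (e * lk * b + lk))) ≤ n / b := by
  rcases Nat.eq_zero_or_pos (e * lk) with h0 | h0
  · rw [← Nat.mul_assoc, h0, Nat.zero_mul]
    exact Nat.zero_le _
  · have h1 : n / (e * lk * b + lk) ≤ n / (e * lk * b) :=
      Nat.div_le_div_left (Nat.le_add_right _ _) (Nat.mul_pos h0 hb)
    have h2 : n / (e * lk * b) = n / b / (e * lk) := by
      rw [Nat.div_div_eq_div_mul, Nat.mul_comm b]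
    rw [h2] at h1
    calc e * (lk * (n / (e * lk * b + lk))) = e * lk * (n / (e * lk * b + lk)) := by ring
      _ ≤ e * lk * (n / b / (e * lk)) := Nat.mul_le_mul_left _ h1
      _ ≤ n / b := Nat.mul_div_le _ _

theorem spm_div2 {e lk b n : ℕ} (hl : 0 < lk) :
    lk * (n / (e * lk * b + lk)) ≤ n := by
  have h1 : n / (e * lk * b + lk) ≤ n / lk :=
    Nat.div_le_div_left (Nat.le_add_left _ _) hl
  exact (Nat.mul_le_mul_left _ h1).trans (Nat.mul_div_le _ _)

theorem spm_sample {α : Type} (F : List α) (P : List ℕ) (h : ∀ i ∈ P, i < F.length) :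
    (P.filterMap (fun i => F[i]?)).length = P.length := by
  induction P with
  | nil => rfl
  | cons i P ih =>
    have h1 := h i List.mem_cons_self
    have h2 : F[i]? = some F[i] := List.getElem?_eq_getElem h1
    rw [List.filterMap_cons_some h2, List.length_cons, List.length_cons,
      ih fun j hj => h j (List.mem_cons_of_mem _ hj)]

theorem spm (hs : SmsS) (hp : SmpS) : SpmS := by
  intro d g ar φ hd ε hε b hb
  -- constants
  obtain ⟨C, hC1, hC⟩ : ∃ C : ℕ, 1 ≤ C ∧ ∀ i x, φ i x ≤ C := by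
    refine ⟨1 + ∑ i, ∑ x, φ i x, by omega, fun i x => ?_⟩
    have h1 : φ i x ≤ ∑ x, φ i x :=
      Finset.single_le_sum (f := fun x => φ i x) (fun _ _ => Nat.zero_le _) (Finset.mem_univ x)
    have h2 : ∑ x, φ i x ≤ ∑ i, ∑ x, φ i x :=
      Finset.single_le_sum (f := fun i => ∑ x, φ i x) (fun _ _ => Nat.zero_le _)
        (Finset.mem_univ i)
    omega
  obtain ⟨K, hK1, hK⟩ : ∃ K : ℕ, 1 ≤ K ∧ ∀ i, ar i ≤ K := by
    refine ⟨1 + ∑ i, ar i, by omega, fun i => ?_⟩
    have h1 : ar i ≤ ∑ i, ar i :=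
      Finset.single_le_sum (f := ar) (fun _ _ => Nat.zero_le _) (Finset.mem_univ i)
    omega
  obtain ⟨lam, hlam1, hlam⟩ : ∃ lam : ℕ, 1 ≤ lam ∧ d ≤ 2 ^ lam := ⟨d, hd, Nat.lt_two_pow_self.le⟩
  obtain ⟨h, hh2, hh⟩ : ∃ h : ℕ, 2 ≤ h ∧ 4 * (C : ℚ) ≤ ε * h := by
    refine ⟨⌈4 * (C : ℚ) / ε⌉₊ + 2, by omega, ?_⟩
    have h1 : 4 * (C : ℚ) / ε ≤ ⌈4 * (C : ℚ) / ε⌉₊ := Nat.le_ceil _
    rw [div_le_iff₀ hε] at h1
    push_cast
    nlinarith
  obtain ⟨e, hpad⟩ := pad_machine (spm_prog hp (tabV φ) d C (lam * K))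
  have hlk : 0 < lam * K := Nat.mul_pos hlam1 hK1
  obtain ⟨Bk, hBk⟩ : ∃ Bk : ℕ, Bk = e * (lam * K) * b + lam * K := ⟨_, rfl⟩
  have hBk1 : 1 ≤ Bk := by omega
  obtain ⟨κ, hκ⟩ : ∃ κ : ℕ, κ = (Bk + 1) ^ K := ⟨_, rfl⟩
  obtain ⟨Q, hQ1, hQ⟩ : ∃ Q : ℕ, κ < Q ∧ 4 * (κ : ℚ) * C ≤ ε * (Q - κ) := by
    refine ⟨κ + 1 + ⌈4 * (κ : ℚ) * C / ε⌉₊, by omega, ?_⟩
    have h1 : 4 * (κ : ℚ) * C / ε ≤ ⌈4 * (κ : ℚ) * C / ε⌉₊ := Nat.le_ceil _
    rw [div_le_iff₀ hε] at h1
    push_cast
    nlinarith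
  refine ⟨Q * (h * h * (lam * K + 1)), ?_⟩
  intro I en V inst μ f hf hV
  -- the programs
  set nn : List Bool → ℕ := fun x => mydiv (ded ((f x).flatMap List.tail)).length Bk with hnn
  have hnnP : PTime nn := by
    have h1 : PTime (fun x => (f x).flatMap List.tail) :=
      PTime.flatMap (l := f) (f := fun (_ : List Bool) (c : List (List Bool)) => c.tail) hf
        (PTime.tail PTime.snd)
    exact mydiv_ptime (PTime.length (ded_ptime h1)) (PTime.const Bk)
  set init : List Bool → SpmSt :=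
    fun x => (((Bk, h), (h * h * (lam * (K * (nn x + 1)) + 1), Q)), f x) with hinit
  have hinitP : PTime init :=
    ((PTime.const (Bk, h)).pair ((PTime.mul (PTime.const (h * h)) (PTime.succ
      (PTime.mul (PTime.const lam) (PTime.mul (PTime.const K) (PTime.succ hnnP))))).pair
        (PTime.const Q))).pair hf
  set hgt : List Bool → ℕ := fun x => min x.length (lam * K * nn x) with hhgt
  have hhgtP : PTime hgt :=
    spm_min (PTime.length PTime.id) (PTime.mul (PTime.const (lam * K)) hnnP)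
  obtain ⟨C', e', tm, e₀, e₁, hM⟩ := hpad hinitP hhgtP (fun x => min_le_left _ _)
  refine ⟨C', e', tm, e₀, e₁, fun i hi => ?_⟩
  obtain ⟨hfi, hμ, hlen⟩ := hV i hi
  obtain ⟨F, hF⟩ : ∃ F, F = inst i := ⟨_, rfl⟩
  obtain ⟨n, hn⟩ : ∃ n, n = nvC F := ⟨_, rfl⟩
  change ∃ w, goodS' φ ε (Q * (h * h * (lam * K + 1))) (inst i) w ∧ _
  rw [← hF] at hfi hμ hlen ⊢
  rw [← hn] at hμ hlen
  have hnn1 : nn (en i) = n / Bk := by
    rw [hnn]
    change mydiv (ded ((f (en i)).flatMap List.tail)).length Bk = n / Bk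
    rw [hfi, nvC_eq, ← hn, mydiv_eq hBk1]
  have hle : lam * K * (n / Bk) ≤ n := by
    rw [hBk]
    exact spm_div2 hlk
  have hgt1 : hgt (en i) = lam * K * (n / Bk) := by
    rw [hhgt]
    change min (en i).length (lam * K * nn (en i)) = _
    rw [hnn1]
    exact min_eq_right (hle.trans hlen)
  have hediv : e * hgt (en i) ≤ μ i / b := by
    rw [hgt1, hBk]
    exact (spm_div hb).trans (Nat.div_le_div_right hμ)
  have hrun := hM (en i)
  refine ⟨encW (smpW (tabV φ) d C Bk h (h * h * (lam * (K * (n / Bk + 1)) + 1)) Q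
    (2 ^ (lam * K) * 2 ^ (lam * K * (n / Bk))) (F.map wordC)), ?_, ?_⟩
  · constructor
    · intro h0
      rw [h0]
      simp [smpW, codeC_eq]
    · intro h0
      have hfuel : 2 ^ (lam * (K * (nvC F / Bk + 1))) ≤
          2 ^ (lam * K) * 2 ^ (lam * K * (n / Bk)) := by
        rw [← pow_add, hn]
        refine Nat.pow_le_pow_right (by norm_num) (le_of_eq ?_)
        ring
      obtain ⟨P, hP, hP0, hPi, hPl, hPv⟩ := hs d g ar φ C K Bk h Q lam _ F hd hC hC1 hK hBk1 hh2
        hlam (by rw [← hκ]; exact hQ1) h0 hfuel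
      rw [← hn] at hP hPl
      have hlP := spm_sample F P hPi
      refine ⟨P.filterMap (fun i => F[i]?), ?_, ?_, ?_, ?_, ?_⟩
      · rw [codeC_eq]
        congr 1
        unfold smpW
        rw [← hP, List.map_filterMap]
        refine List.filterMap_congr fun i _ => ?_
        rw [List.getElem?_map]
      · intro h1
        rw [h1, List.length_nil] at hlP
        exact hP0 (List.eq_nil_of_length_eq_zero hlP.symm)
      · intro c hc
        obtain ⟨i, _, hi2⟩ := List.mem_filterMap.1 hc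
        exact List.mem_of_getElem? hi2
      · rw [hlP, ← hn]
        refine hPl.trans ?_
        have h1 : n / Bk + 1 ≤ n + 1 := Nat.add_le_add_right (Nat.div_le_self _ _) 1
        have h2 : lam * (K * (n / Bk + 1)) + 1 ≤ (lam * K + 1) * (n + 1) := by
          have h3 : lam * (K * (n / Bk + 1)) ≤ lam * (K * (n + 1)) :=
            Nat.mul_le_mul_left _ (Nat.mul_le_mul_left _ h1)
          have h4 : (lam * K + 1) * (n + 1) = lam * (K * (n + 1)) + (n + 1) := by ring
          rw [h4]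
          omega
        calc Q * (h * h * (lam * (K * (n / Bk + 1)) + 1))
            ≤ Q * (h * h * ((lam * K + 1) * (n + 1))) :=
              Nat.mul_le_mul_left _ (Nat.mul_le_mul_left _ h2)
          _ = Q * (h * h * (lam * K + 1)) * (n + 1) := by ring
      · intro a
        rw [hlP]
        refine (hPv a).trans ?_
        rw [← hκ]
        have hh0 : (0 : ℚ) < h := by
          have : (2 : ℚ) ≤ h := by exact_mod_cast hh2
          linarith
        have hQ0 : (0 : ℚ) < Q - κ := by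
          have : (κ : ℚ) < Q := by exact_mod_cast hQ1
          linarith
        have h1 : 2 * (C : ℚ) / h ≤ ε / 2 := by
          rw [div_le_iff₀ hh0]
          linarith
        have h2 : 2 * (κ : ℚ) * C / (Q - κ) ≤ ε / 2 := by
          rw [div_le_iff₀ hQ0]
          linarith
        linarith
  · have e3 : (2 ^ (lam * K) * (List.replicate (2 ^ hgt (en i)) ()).length) =
        2 ^ (lam * K) * 2 ^ (lam * K * (n / Bk)) := by
      rw [List.length_replicate, hgt1]
    have e4 : encW (smpW (tabV φ) d C (init (en i)).1.1.1 (init (en i)).1.1.2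
        (init (en i)).1.2.1 (init (en i)).1.2.2
        (2 ^ (lam * K) * (List.replicate (2 ^ hgt (en i)) ()).length) (init (en i)).2) =
        encW (smpW (tabV φ) d C Bk h (h * h * (lam * (K * (n / Bk + 1)) + 1)) Q
          (2 ^ (lam * K) * 2 ^ (lam * K * (n / Bk))) (F.map wordC)) := by
      rw [e3]
      change encW (smpW (tabV φ) d C Bk h (h * h * (lam * (K * (nn (en i) + 1)) + 1)) Q
        (2 ^ (lam * K) * 2 ^ (lam * K * (n / Bk))) (f (en i))) = _
      rw [hnn1, hfi]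
    rw [← e4]
    exact outputs_mono (Nat.mul_le_mul_left _ (Nat.pow_le_pow_right (by norm_num) hediv)) hrun

end Pool.Agent.Lib.MP_87d05f_lc.SP
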