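import Pool.Agent.Lib.MP_87d05f_lc.SP.Stm

set_option autoImplicit false

/-!
# Piece usm: the sparsifier for the useful constraints
-/

namespace Pool.Agent.Lib.MP_87d05f_lc.SP

open Pool.Agent.PolyTime

theorem usm_nvC_filter {g : ℕ} {ar : Fin g → ℕ} (p : Con ar → Bool) (F : List (Con ar)) :
    nvC (F.filter p) ≤ nvC F := by
  unfold nvC
  refine Finset.card_le_card fun v hv => ?_
  rw [List.mem_toFinset, List.mem_flatMap] at hv ⊢
  obtain ⟨c, hc, hv⟩ := hv
  exact ⟨c, List.mem_of_mem_filter hc, hv⟩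

theorem usm_nvC_enM {g : ℕ} {ar : Fin g → ℕ} (I : ℕ × List (Con ar)) :
    nvC I.2 ≤ (enM I).length := by
  have h1 := nvC_le I.2
  have h2 : enM I = encW [[List.replicate I.1 true]] ++ codeC I.2 := by
    unfold enM
    rw [codeC_eq]
    exact encW_append [[List.replicate I.1 true]] (I.2.map wordC)
  rw [h2, List.length_append]
  omega

theorem usm_usC {d g : ℕ} {ar : Fin g → ℕ} (φ : (i : Fin g) → (Fin (ar i) → Fin d) → ℕ)
    {tab : TabP} (htab : ∀ c : Con ar, useful tab (wordC c) = true ↔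
      ∃ a : ℕ → Fin d, 1 ≤ φ c.1 (fun j => a (c.2 j))) (F : List (Con ar)) :
    usC φ F = F.filter (fun c => useful tab (wordC c)) := by
  unfold usC
  refine List.filter_congr fun c _ => ?_
  by_cases h : ∃ a : ℕ → Fin d, 0 < φ c.1 (fun j => a (c.2 j))
  · rw [(htab c).2 h]
    simpa using h
  · have h2 : useful tab (wordC c) = false := by
      rw [Bool.eq_false_iff]
      exact fun h' => h ((htab c).1 h')
    rw [h2]
    simpa using h

theorem usm (h : SpmS) : UsmS := by
  intro d g ar φ hd ε hε b hb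
  obtain ⟨W, dc, ec, hW, hec⟩ := exists_bits d hd
  obtain ⟨tab, htab⟩ : ∃ tab : TabP, ∀ c : Con ar, useful tab (wordC c) = true ↔
      ∃ a : ℕ → Fin d, 1 ≤ φ c.1 (fun j => a (c.2 j)) :=
    ⟨tabP φ dc, fun c => useful_iff φ dc hec c⟩
  obtain ⟨D, hD⟩ := h d g ar φ hd ε hε b hb
  have hf2 : PTime (fun x : List Bool => (parseW x).filter (useful tab)) :=
    PTime.filter (p := fun (_ : List Bool) (c : List (List Bool)) => useful tab c)
      parseW_ptime (useful_ptime tab PTime.snd)
  refine ⟨D, hD (ℕ × List (Con ar)) enM (fun _ => True) (fun I => usC φ I.2) (fun I => nvC I.2)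
    (usI tab) (usI_ptime tab) ?_, hD (List (Con ar)) codeC (fun _ => True) (fun F => usC φ F) nvC
    (fun x => (parseW x).filter (useful tab)) hf2 ?_⟩
  · intro I _
    refine ⟨?_, ?_, ?_⟩
    · rw [usI_enM, usm_usC φ htab]
    · rw [usm_usC φ htab]
      exact usm_nvC_filter _ _
    · rw [usm_usC φ htab]
      exact (usm_nvC_filter _ _).trans (usm_nvC_enM I)
  · intro F _
    refine ⟨?_, ?_, ?_⟩
    · rw [usm_usC φ htab, codeC_eq, parseW_encW, List.filter_map]
      rfl
    · rw [usm_usC φ htab]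
      exact usm_nvC_filter _ _
    · rw [usm_usC φ htab]
      exact (usm_nvC_filter _ _).trans (nvC_le F)

end Pool.Agent.Lib.MP_87d05f_lc.SP
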