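import Pool.Agent.Lib.MP_87d05f_lc.SP.Stm

set_option autoImplicit false

/-!
# The sparsifier, piece cmb
-/

namespace Pool.Agent.Lib.MP_87d05f_lc.SP

theorem cmb_div (a b : ℕ) (hb : 0 < b) : ((a / b : ℕ) : ℚ) ≤ (a : ℚ) / b ∧
    (a : ℚ) / b - 1 ≤ ((a / b : ℕ) : ℚ) := by
  have hbq : (0 : ℚ) < b := by exact_mod_cast hb
  constructor
  · exact Nat.cast_div_le
  · have h1 : a < b * (a / b + 1) := Nat.lt_mul_div_succ a hb
    have h2 : (a : ℚ) < b * (((a / b : ℕ) : ℚ) + 1) := by exact_mod_cast h1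
    have h3 : (a : ℚ) / b < ((a / b : ℕ) : ℚ) + 1 := by
      rw [div_lt_iff₀ hbq]
      linarith
    linarith

theorem cmb : CmbS := by
  intro X S m r Q κ u v C β hS hcard hκ hm hr hu hv
  obtain ⟨M, hM⟩ : ∃ M : ℕ, M = ∑ T ∈ S, m T := ⟨_, rfl⟩
  have hMpos : 0 < M := by
    rw [hM]
    obtain ⟨T, hT⟩ := hS
    exact lt_of_lt_of_le (hm T hT) (Finset.single_le_sum (fun _ _ => Nat.zero_le _) hT)
  have hMq : (0 : ℚ) < M := by exact_mod_cast hMpos
  have hMs : (∑ T ∈ S, (m T : ℚ)) = M := by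
    rw [hM]
    push_cast
    rfl
  have hr1 : ∀ T ∈ S, (r T : ℚ) ≤ Q * m T / M := by
    intro T hT
    rw [hr T hT, ← hM]
    have := (cmb_div (Q * m T) M hMpos).1
    push_cast at this
    exact this
  have hr2 : ∀ T ∈ S, (Q * m T / M : ℚ) - 1 ≤ r T := by
    intro T hT
    rw [hr T hT, ← hM]
    have := (cmb_div (Q * m T) M hMpos).2
    push_cast at this
    exact this
  have hsumQ : ∑ T ∈ S, (Q * m T / M : ℚ) = Q := by
    rw [← Finset.sum_div, ← Finset.mul_sum, hMs]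
    field_simp
  have hcq : (S.card : ℚ) ≤ κ := by exact_mod_cast hcard
  have hκq : (κ : ℚ) < Q := by exact_mod_cast hκ
  have hR1 : (∑ T ∈ S, (r T : ℚ)) ≤ Q := by
    rw [← hsumQ]
    exact Finset.sum_le_sum hr1
  have hR2 : (Q : ℚ) - κ ≤ ∑ T ∈ S, (r T : ℚ) := by
    have h1 := Finset.sum_le_sum hr2
    rw [Finset.sum_sub_distrib, hsumQ, Finset.sum_const, nsmul_eq_mul, mul_one] at h1
    linarith
  obtain ⟨R, hR⟩ : ∃ R : ℚ, R = ∑ T ∈ S, (r T : ℚ) := ⟨_, rfl⟩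
  rw [← hR] at hR1 hR2
  have hRpos : 0 < R := by linarith
  have hRcast : ((∑ T ∈ S, r T : ℕ) : ℚ) = R := by
    rw [hR]
    push_cast
    rfl
  refine ⟨?_, ?_, ?_⟩
  · have : (0 : ℚ) < ((∑ T ∈ S, r T : ℕ) : ℚ) := by rw [hRcast]; exact hRpos
    exact_mod_cast this
  · have : ((∑ T ∈ S, r T : ℕ) : ℚ) ≤ Q := by rw [hRcast]; exact hR1
    exact_mod_cast this
  · rw [← hR, hMs]
    have hC : 0 ≤ C := by
      obtain ⟨T, hT⟩ := hS
      exact (hu T hT).1.trans (hu T hT).2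
    obtain ⟨b, hb⟩ : ∃ b : ℚ, b = (∑ T ∈ S, (m T : ℚ) * u T) / M := ⟨_, rfl⟩
    have hb0 : 0 ≤ b := by
      rw [hb]
      exact div_nonneg (Finset.sum_nonneg fun T hT =>
        mul_nonneg (Nat.cast_nonneg _) (hu T hT).1) hMq.le
    have hbC : b ≤ C := by
      rw [hb, div_le_iff₀ hMq, ← hMs, Finset.mul_sum]
      refine Finset.sum_le_sum fun T hT => ?_
      rw [mul_comm C]
      exact mul_le_mul_of_nonneg_left (hu T hT).2 (Nat.cast_nonneg _)
    have h1 : |b - (∑ T ∈ S, (m T : ℚ) * v T) / M| ≤ β := by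
      rw [hb, ← sub_div, abs_div, abs_of_pos hMq, div_le_iff₀ hMq, ← Finset.sum_sub_distrib,
        ← hMs, Finset.mul_sum]
      refine (Finset.abs_sum_le_sum_abs _ _).trans (Finset.sum_le_sum fun T hT => ?_)
      rw [← mul_sub, abs_mul, Nat.abs_cast, mul_comm β]
      exact mul_le_mul_of_nonneg_left (hv T hT) (Nat.cast_nonneg _)
    have h2 : ∑ T ∈ S, (r T : ℚ) * u T ≤ Q * b := by
      have e : (Q : ℚ) * b = ∑ T ∈ S, (Q * m T / M : ℚ) * u T := by
        rw [hb, Finset.sum_div, Finset.mul_sum]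
        refine Finset.sum_congr rfl fun T _ => ?_
        ring
      rw [e]
      exact Finset.sum_le_sum fun T hT => mul_le_mul_of_nonneg_right (hr1 T hT) (hu T hT).1
    have h3 : Q * b - κ * C ≤ ∑ T ∈ S, (r T : ℚ) * u T := by
      have e : (Q : ℚ) * b = ∑ T ∈ S, (Q * m T / M : ℚ) * u T := by
        rw [hb, Finset.sum_div, Finset.mul_sum]
        refine Finset.sum_congr rfl fun T _ => ?_
        ring
      have h4 : ∑ T ∈ S, ((Q * m T / M : ℚ) - 1) * u T ≤ ∑ T ∈ S, (r T : ℚ) * u T :=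
        Finset.sum_le_sum fun T hT => mul_le_mul_of_nonneg_right (hr2 T hT) (hu T hT).1
      have h5 : ∑ T ∈ S, ((Q * m T / M : ℚ) - 1) * u T = Q * b - ∑ T ∈ S, u T := by
        rw [e, ← Finset.sum_sub_distrib]
        refine Finset.sum_congr rfl fun T _ => ?_
        ring
      have h6 : ∑ T ∈ S, u T ≤ κ * C := by
        calc ∑ T ∈ S, u T ≤ ∑ T ∈ S, C := Finset.sum_le_sum fun T hT => (hu T hT).2
          _ = S.card * C := by rw [Finset.sum_const, nsmul_eq_mul]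
          _ ≤ κ * C := mul_le_mul_of_nonneg_right hcq hC
      linarith
    have hQκ : (0 : ℚ) < Q - κ := by linarith
    have hκC : (0 : ℚ) ≤ κ * C := mul_nonneg (Nat.cast_nonneg _) hC
    have h7 : κ * C / R ≤ κ * C / (Q - κ) := div_le_div_of_nonneg_left hκC hQκ hR2
    have h8 : |(∑ T ∈ S, (r T : ℚ) * u T) / R - b| ≤ κ * C / R := by
      have e : (∑ T ∈ S, (r T : ℚ) * u T) / R - b = ((∑ T ∈ S, (r T : ℚ) * u T) - R * b) / R := by
        field_simp
      rw [e, abs_div, abs_of_pos hRpos]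
      apply div_le_div_of_nonneg_right _ hRpos.le
      have h9 : (Q - R) * b ≤ κ * C := by
        apply mul_le_mul _ hbC hb0 (Nat.cast_nonneg _)
        linarith
      have h10 : 0 ≤ (Q - R) * b := mul_nonneg (by linarith) hb0
      rw [abs_le]
      constructor <;> linarith
    have h11 : 2 * (κ : ℚ) * C / (Q - κ) = κ * C / (Q - κ) + κ * C / (Q - κ) := by ring
    have h12 : 0 ≤ κ * C / (Q - κ) := div_nonneg hκC hQκ.le
    calc |(∑ T ∈ S, (r T : ℚ) * u T) / R - (∑ T ∈ S, (m T : ℚ) * v T) / M|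
        = |((∑ T ∈ S, (r T : ℚ) * u T) / R - b) + (b - (∑ T ∈ S, (m T : ℚ) * v T) / M)| := by
          congr 1
          ring
      _ ≤ |(∑ T ∈ S, (r T : ℚ) * u T) / R - b| + |b - (∑ T ∈ S, (m T : ℚ) * v T) / M| :=
          abs_add_le _ _
      _ ≤ β + 2 * κ * C / (Q - κ) := by
          rw [h11]
          linarith

end Pool.Agent.Lib.MP_87d05f_lc.SP
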