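import Pool.Agent.Lib.MP_87d05f_lc.SP.Stm

set_option autoImplicit false

/-!
# The sparsifier, piece pot
-/

namespace Pool.Agent.Lib.MP_87d05f_lc.SP

/-- `log (1 + z) ≥ z - z^2` for `z ≥ -1/2` -/
theorem pot_log (z : ℝ) (hz : -(1 / 2) ≤ z) : z - z ^ 2 ≤ Real.log (1 + z) := by
  rcases le_or_gt 0 z with h0 | h0
  · have h1 : 0 < 1 + z := by linarith
    have h2 := Real.one_sub_inv_le_log_of_pos h1
    refine le_trans ?_ h2
    have h3 : 1 - (1 + z)⁻¹ = z / (1 + z) := by
      field_simp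
      ring
    rw [h3, le_div_iff₀ h1]
    have h4 : 0 ≤ z ^ 3 := by positivity
    nlinarith
  · have hanti : AntitoneOn (fun y : ℝ => Real.log (1 + y) - y + y ^ 2) (Set.Icc (-(1 / 2)) 0) := by
      have hd : ∀ y ∈ Set.Icc (-(1 / 2) : ℝ) 0,
          HasDerivAt (fun y : ℝ => Real.log (1 + y) - y + y ^ 2) (1 / (1 + y) - 1 + 2 * y) y := by
        intro y hy
        have hy1 : (1 + y) ≠ 0 := by
          have := hy.1
          intro h
          linarith
        have e1 : HasDerivAt (fun y : ℝ => 1 + y) 1 y := (hasDerivAt_id y).const_add 1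
        have e2 := e1.log hy1
        have e3 : HasDerivAt (fun y : ℝ => y ^ 2) (2 * y) y := by
          simpa using hasDerivAt_pow 2 y
        exact (e2.sub (hasDerivAt_id y)).add e3
      apply antitoneOn_of_deriv_nonpos (convex_Icc _ _)
      · intro y hy
        exact (hd y hy).continuousAt.continuousWithinAt
      · intro y hy
        rw [interior_Icc] at hy
        exact (hd y ⟨hy.1.le, hy.2.le⟩).differentiableAt.differentiableWithinAt
      · intro y hy
        rw [interior_Icc] at hy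
        rw [(hd y ⟨hy.1.le, hy.2.le⟩).deriv]
        have hy1 : 0 < 1 + y := by linarith [hy.1]
        have e : 1 / (1 + y) - 1 + 2 * y = y * (1 + 2 * y) / (1 + y) := by
          field_simp
          ring
        rw [e]
        apply div_nonpos_of_nonpos_of_nonneg _ hy1.le
        apply mul_nonpos_of_nonpos_of_nonneg hy.2.le
        linarith [hy.1]
    have h1 := hanti (a := z) (b := 0) ⟨hz, h0.le⟩ ⟨by norm_num, le_rfl⟩ h0.le
    simp only [add_zero, Real.log_one, sub_zero, ne_eq, OfNat.ofNat_ne_zero, not_false_eq_true,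
      zero_pow] at h1
    linarith

theorem pot_sum (H : ℝ) (hH : 0 < H) (z : ℕ → ℝ) (δ : ℝ) (hδ : δ ≤ 1 / 2) (I : List ℕ) :
    (∀ i ∈ I, |z i| ≤ δ) → 0 < (I.map (fun i => H * (1 + z i))).prod ∧
    (I.map z).sum ≤ Real.log (I.map (fun i => H * (1 + z i))).prod - I.length * Real.log H +
      I.length * δ ^ 2 := by
  induction I with
  | nil => intro _; simp
  | cons i I ih =>
    intro hz
    obtain ⟨ih1, ih2⟩ := ih (fun j hj => hz j (List.mem_cons_of_mem _ hj))
    have hi := hz i List.mem_cons_self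
    have hi1 := abs_le.1 hi
    have hpos : 0 < 1 + z i := by linarith [hi1.1]
    have hlog := pot_log (z i) (by linarith [hi1.1])
    have hsq : z i ^ 2 ≤ δ ^ 2 := by
      rw [← sq_abs (z i)]
      exact pow_le_pow_left₀ (abs_nonneg _) hi 2
    simp only [List.map_cons, List.prod_cons, List.sum_cons, List.length_cons]
    refine ⟨mul_pos (mul_pos hH hpos) ih1, ?_⟩
    rw [Real.log_mul (mul_pos hH hpos).ne' ih1.ne', Real.log_mul hH.ne' hpos.ne']
    push_cast
    linarith

theorem pot_bound (H : ℝ) (hH : 0 < H) (z : ℕ → ℝ) (δ : ℝ) (hδ : δ ≤ 1 / 2) (I : List ℕ) (L : ℕ)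
    (hz : ∀ i ∈ I, |z i| ≤ δ)
    (h : (I.map (fun i => H * (1 + z i))).prod ≤ H ^ I.length * 2 ^ (L + 1)) :
    (I.map z).sum ≤ (L + 1) + I.length * δ ^ 2 := by
  obtain ⟨h1, h2⟩ := pot_sum H hH z δ hδ I hz
  have h3 : Real.log (I.map (fun i => H * (1 + z i))).prod ≤
      I.length * Real.log H + (L + 1) * Real.log 2 := by
    have h4 := Real.log_le_log h1 h
    rw [Real.log_mul (pow_pos hH _).ne' (by positivity), Real.log_pow, Real.log_pow] at h4
    push_cast at h4
    exact h4
  have h5 : Real.log 2 ≤ 1 := by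
    have := Real.log_two_lt_d9
    linarith
  have h6 : ((L : ℝ) + 1) * Real.log 2 ≤ (L + 1) * 1 :=
    mul_le_mul_of_nonneg_left h5 (by positivity)
  linarith

theorem pot_list_sum (a b : ℝ) (f : ℕ → ℝ) (I : List ℕ) :
    (I.map (fun i => a * f i - b)).sum = a * (I.map f).sum - I.length * b := by
  induction I with
  | nil => simp
  | cons i I ih =>
    simp only [List.map_cons, List.sum_cons, ih, List.length_cons]
    push_cast
    ring

theorem pot_sum_le (c : List ℕ) (C : ℕ) (h : ∀ x ∈ c, x ≤ C) : c.sum ≤ c.length * C := by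
  have := List.sum_le_card_nsmul c C h
  simpa using this

theorem pot_cast_prod (f : ℕ → ℕ) (g : ℕ → ℝ) (I : List ℕ) (h : ∀ i ∈ I, (f i : ℝ) = g i) :
    ((I.map f).prod : ℕ) = (I.map g).prod := by
  induction I with
  | nil => simp
  | cons i I ih =>
    rw [List.map_cons, List.map_cons, List.prod_cons, List.prod_cons, Nat.cast_mul,
      ih (fun j hj => h j (List.mem_cons_of_mem _ hj)), h i List.mem_cons_self]

theorem pot : PotS := by
  intro h C m L c I hh hC hm hlen hcC hI hap ham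
  have hsum : c.sum ≤ m * C := by
    rw [← hlen]
    exact pot_sum_le c C hcC
  have hget : ∀ i ∈ I, c.getD i 0 ≤ C := by
    intro i hi
    have hi' : i < c.length := by rw [hlen]; exact hI i hi
    rw [List.getD_eq_getElem _ _ hi']
    exact hcC _ (List.getElem_mem hi')
  have hhR : (2 : ℝ) ≤ h := by exact_mod_cast hh
  have hCR : (1 : ℝ) ≤ C := by exact_mod_cast hC
  have hmR : (1 : ℝ) ≤ m := by exact_mod_cast hm
  obtain ⟨H, hHdef⟩ : ∃ H : ℝ, H = h * m * C := ⟨_, rfl⟩
  have hH : 0 < H := by rw [hHdef]; positivity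
  obtain ⟨z, hzdef⟩ : ∃ z : ℕ → ℝ, ∀ i, z i = ((m : ℝ) * (c.getD i 0 : ℕ) - (c.sum : ℕ)) / H :=
    ⟨fun i => _, fun i => rfl⟩
  have hsR : ((c.sum : ℕ) : ℝ) ≤ m * C := by exact_mod_cast hsum
  have hs0 : (0 : ℝ) ≤ ((c.sum : ℕ) : ℝ) := Nat.cast_nonneg _
  have hnum : ∀ i ∈ I, |(m : ℝ) * (c.getD i 0 : ℕ) - (c.sum : ℕ)| ≤ m * C := by
    intro i hi
    have h1 : ((c.getD i 0 : ℕ) : ℝ) ≤ C := by exact_mod_cast hget i hi
    have h2 : (0 : ℝ) ≤ ((c.getD i 0 : ℕ) : ℝ) := Nat.cast_nonneg _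
    have h3 : (m : ℝ) * (c.getD i 0 : ℕ) ≤ m * C := mul_le_mul_of_nonneg_left h1 (by linarith)
    have h4 : (0 : ℝ) ≤ (m : ℝ) * (c.getD i 0 : ℕ) := by positivity
    rw [abs_le]
    constructor <;> linarith
  have hz : ∀ i ∈ I, |z i| ≤ 1 / h := by
    intro i hi
    rw [hzdef, abs_div, abs_of_pos hH, div_le_iff₀ hH]
    have h1 : 1 / (h : ℝ) * H = m * C := by
      rw [hHdef]
      field_simp
    rw [h1]
    exact hnum i hi
  have hδ : 1 / (h : ℝ) ≤ 1 / 2 := one_div_le_one_div_of_le (by norm_num) hhR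
  have e1 : ∀ i ∈ I, ((ap h C c i : ℕ) : ℝ) = H * (1 + z i) := by
    intro i hi
    have h1 : c.sum ≤ h * c.length * C + c.length * c.getD i 0 := by
      rw [hlen]
      have : m * C ≤ h * m * C := by nlinarith [Nat.mul_le_mul_right (m * C) (show 1 ≤ h by omega)]
      omega
    have h2 : ((ap h C c i : ℕ) : ℝ) = h * m * C + m * (c.getD i 0 : ℕ) - (c.sum : ℕ) := by
      unfold ap
      rw [Nat.cast_sub h1, hlen]
      push_cast
      ring
    rw [h2, hzdef, hHdef]
    field_simp
    ring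
  have e2 : ∀ i ∈ I, ((am h C c i : ℕ) : ℝ) = H * (1 + (-z i)) := by
    intro i hi
    have h0 : m * c.getD i 0 ≤ m * C := Nat.mul_le_mul_left m (hget i hi)
    have h1 : c.length * c.getD i 0 ≤ h * c.length * C + c.sum := by
      rw [hlen]
      have : m * C ≤ h * m * C := by nlinarith [Nat.mul_le_mul_right (m * C) (show 1 ≤ h by omega)]
      omega
    have h2 : ((am h C c i : ℕ) : ℝ) = h * m * C + (c.sum : ℕ) - m * (c.getD i 0 : ℕ) := by
      unfold am
      rw [Nat.cast_sub h1, hlen]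
      push_cast
      ring
    rw [h2, hzdef, hHdef]
    field_simp
    ring
  have b1 : (I.map z).sum ≤ (L + 1) + I.length * (1 / (h : ℝ)) ^ 2 := by
    apply pot_bound H hH z _ hδ I L hz
    rw [← pot_cast_prod (ap h C c) (fun i => H * (1 + z i)) I e1, hHdef]
    exact_mod_cast hap
  have b2 : (I.map (fun i => -z i)).sum ≤ (L + 1) + I.length * (1 / (h : ℝ)) ^ 2 := by
    apply pot_bound H hH (fun i => -z i) _ hδ I L (by simpa using hz)
    rw [← pot_cast_prod (am h C c) (fun i => H * (1 + (-z i))) I e2, hHdef]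
    exact_mod_cast ham
  have s1 : H * (I.map z).sum = (m : ℝ) * (I.map (fun i => ((c.getD i 0 : ℕ) : ℝ))).sum -
      I.length * (c.sum : ℕ) := by
    rw [← pot_list_sum]
    have e : z = fun i => H⁻¹ * ((m : ℝ) * (c.getD i 0 : ℕ) - (c.sum : ℕ)) := by
      funext i
      rw [hzdef]
      field_simp
    rw [e, List.sum_map_mul_left]
    field_simp
  have s2 : (I.map (fun i => -z i)).sum = -(I.map z).sum := by
    have e : (fun i => -z i) = fun i => (-1) * z i := by
      funext i
      ring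
    rw [e, List.sum_map_mul_left]
    ring
  have s3 : (((I.map (fun i => c.getD i 0)).sum : ℕ) : ℝ) =
      (I.map (fun i => ((c.getD i 0 : ℕ) : ℝ))).sum := by
    rw [Nat.cast_list_sum, List.map_map]
    rfl
  have key : |(m : ℝ) * ((I.map (fun i => c.getD i 0)).sum : ℕ) - (I.length : ℝ) * (c.sum : ℕ)| ≤
      (m : ℝ) * C * (h * (L + 1) + I.length / h) := by
    rw [s3, ← s1]
    have h1 : (m : ℝ) * C * (h * (L + 1) + I.length / h) =
        H * ((L + 1) + I.length * (1 / (h : ℝ)) ^ 2) := by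
      rw [hHdef]
      field_simp
    rw [h1, abs_mul, abs_of_pos hH]
    apply mul_le_mul_of_nonneg_left _ hH.le
    rw [s2] at b2
    rw [abs_le]
    constructor <;> linarith
  have key2 : ((|(m : ℚ) * ((I.map (fun i => c.getD i 0)).sum : ℕ) -
      (I.length : ℚ) * (c.sum : ℕ)| : ℚ) : ℝ) ≤
      (((m : ℚ) * C * (h * (L + 1) + I.length / h) : ℚ) : ℝ) := by
    simp only [Rat.cast_abs, Rat.cast_sub, Rat.cast_mul, Rat.cast_add, Rat.cast_div,
      Rat.cast_natCast, Rat.cast_one]
    exact key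
  exact Rat.cast_le.1 key2

end Pool.Agent.Lib.MP_87d05f_lc.SP
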