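import Pool.Agent.Lib.MP_87d05f_lc.SP.Stm

set_option autoImplicit false

/-!
# SPARSIFIER: the sample (piece sms)
-/

namespace Pool.Agent.Lib.MP_87d05f_lc.SP

open Pool.Agent.PolyTime Finset

theorem sms_part {α β : Type} [DecidableEq β] (k : α → β) (f : α → ℕ) (S : Finset β)
    (L : List α) (h : ∀ p ∈ L, k p ∈ S) :
    ∑ T ∈ S, ((L.filter (fun p => decide (k p = T))).map f).sum = (L.map f).sum := by
  induction L with
  | nil => simp
  | cons p L ih =>
    have h1 : ∀ T, (((p :: L).filter (fun p => decide (k p = T))).map f).sum =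
        (if k p = T then f p else 0) +
          ((L.filter (fun p => decide (k p = T))).map f).sum := by
      intro T
      rw [List.filter_cons]
      by_cases hT : k p = T
      · simp [hT]
      · simp [hT]
    rw [Finset.sum_congr rfl fun T _ => h1 T, Finset.sum_add_distrib,
      ih fun q hq => h q (List.mem_cons_of_mem _ hq), Finset.sum_ite_eq,
      if_pos (h p List.mem_cons_self), List.map_cons, List.sum_cons]

theorem sms_flat {α β : Type} (f : β → ℕ) (h : α → List β) (D : List α) :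
    ((D.flatMap h).map f).sum = (D.map (fun T => ((h T).map f).sum)).sum := by
  induction D with
  | nil => rfl
  | cons a D ih => rw [List.flatMap_cons, List.map_append, List.sum_append, ih, List.map_cons,
      List.sum_cons]

theorem sms_rep {β : Type} (f : β → ℕ) (l : List β) (r : ℕ) :
    (((List.replicate r l).flatten).map f).sum = r * (l.map f).sum := by
  induction r with
  | zero => simp
  | succ r ih =>
    rw [List.replicate_succ, List.flatten_cons, List.map_append, List.sum_append, ih]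
    ring

theorem sms_len {β : Type} (l : List β) : (l.map (fun _ => 1)).sum = l.length := by
  simp

theorem sms_zip {α : Type} (G : List α) (f : α → ℕ) :
    (G.zipIdx.map (fun p => f p.1)).sum = (G.map f).sum := by
  have h : G.zipIdx.map (fun p => f p.1) = G.map f := by
    have h1 : G.zipIdx.map (fun p => f p.1) = (G.zipIdx.map Prod.fst).map f := by
      rw [List.map_map]; rfl
    rw [h1, List.zipIdx_map_fst]
  rw [h]

theorem sms_le {β : Type} (f : β → ℕ) (l : List β) (C : ℕ) (h : ∀ x ∈ l, f x ≤ C) :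
    (l.map f).sum ≤ C * l.length := by
  induction l with
  | nil => simp
  | cons a l ih =>
    rw [List.map_cons, List.sum_cons, List.length_cons, mul_add, mul_one, add_comm]
    exact Nat.add_le_add (ih fun x hx => h x (List.mem_cons_of_mem _ hx))
      (h a List.mem_cons_self)

theorem sms_val {d g : ℕ} {ar : Fin g → ℕ} (φ : (i : Fin g) → (Fin (ar i) → Fin d) → ℕ)
    (F : List (Con ar)) (A : List Bool → ℕ) (a : ℕ → Fin d)
    (ht : ∀ c : Con ar, payW (tabV φ) A (wordC c) = φ c.1 (fun j => a (c.2 j)))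
    (P : List ℕ) (hP : ∀ i ∈ P, i < F.length) :
    valC φ a (P.filterMap (fun i => F[i]?)) =
      (P.map (fun i => payW (tabV φ) A ((F.map wordC).getD i []))).sum := by
  induction P with
  | nil => rfl
  | cons i P ih =>
    have hi : i < F.length := hP i List.mem_cons_self
    have h1 : F[i]? = some F[i] := List.getElem?_eq_getElem hi
    have h2 : (i :: P).filterMap (fun i => F[i]?) = F[i] :: P.filterMap (fun i => F[i]?) := by
      rw [List.filterMap_cons, h1]
    have h3 : (F.map wordC).getD i [] = wordC F[i] := by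
      rw [List.getD_eq_getElem?_getD, List.getElem?_map, h1]
      rfl
    rw [h2, List.map_cons, List.sum_cons, h3, ht, ← ih fun j hj => hP j (List.mem_cons_of_mem _ hj)]
    rfl

theorem sms (hc : ClsS) (ht : TabS) (hs : SmtS) (hm : CmbS) : SmsS := by
  intro d g ar φ C K Bk h Q lam fuel F hd hφ hC har hBk hh hlam hκ hF hfuel
  obtain ⟨L, hL⟩ : ∃ L, L = lam * (K * (nvC F / Bk + 1)) := ⟨_, rfl⟩
  obtain ⟨s, hsd⟩ : ∃ s, s = h * h * (L + 1) := ⟨_, rfl⟩
  obtain ⟨G, hG⟩ : ∃ G, G = F.map (wordC (ar := ar)) := ⟨_, rfl⟩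
  rw [← hL, ← hG, ← hsd]
  rw [← hL] at hfuel
  have hGl : G.length = F.length := by rw [hG, List.length_map]
  have hFl : 1 ≤ F.length := List.length_pos_iff.2 hF
  have hs1 : 1 ≤ s := by
    rw [hsd]
    have : 1 ≤ h := by omega
    exact Nat.mul_pos (Nat.mul_pos this this) (Nat.succ_pos L)
  have hGt : ∀ c ∈ G, c.tail.length ≤ K := by
    intro c hcG
    rw [hG] at hcG
    obtain ⟨c0, _, rfl⟩ := List.mem_map.1 hcG
    unfold wordC
    simpa using har c0.1
  obtain ⟨c1, c2, c3⟩ := hc Bk K G hBk hGt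
  obtain ⟨t1, t2, t3⟩ := ht d g ar φ
  have hcard : (G.flatMap List.tail).toFinset.card = nvC F := by
    rw [← ded_length, hG, nvC_eq]
  rw [hcard] at c2
  -- the classes
  obtain ⟨D, hD⟩ : ∃ D, D = ded (G.map (key Bk G)) := ⟨_, rfl⟩
  have hDn : D.Nodup := by rw [hD]; exact nodup_ded _
  have hDm : ∀ T, T ∈ D ↔ ∃ c ∈ G, key Bk G c = T := by
    intro T
    rw [hD, mem_ded, List.mem_map]
  rw [← hD] at c3
  have hmem : ∀ T (p : List (List Bool) × ℕ), p ∈ mem Bk G T ↔ p ∈ G.zipIdx ∧ key Bk G p.1 = T := by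
    intro T p
    unfold mem
    rw [List.mem_filter, decide_eq_true_iff]
  have hzip : ∀ p ∈ G.zipIdx, p.1 ∈ G := by
    intro p hp
    have : p.1 ∈ G.zipIdx.map Prod.fst := List.mem_map.2 ⟨p, hp, rfl⟩
    rwa [List.zipIdx_map_fst] at this
  have hne : ∀ T ∈ D, mem Bk G T ≠ [] := by
    intro T hT he
    obtain ⟨c, hcG, hk⟩ := (hDm T).1 hT
    have h1 : c ∈ G.zipIdx.map Prod.fst := by rwa [List.zipIdx_map_fst]
    obtain ⟨p, hp, hpc⟩ := List.mem_map.1 h1
    have h2 : p ∈ mem Bk G T := (hmem T p).2 ⟨hp, by rw [hpc]; exact hk⟩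
    rw [he] at h2
    exact (List.not_mem_nil h2)
  have hcv : ∀ T ∈ D, (cvs Bk G T).length ≤ K * (nvC F / Bk + 1) := by
    intro T hT
    obtain ⟨c, hcG, rfl⟩ := (hDm T).1 hT
    exact c2 c hcG
  have hdL : ∀ T ∈ D, d ^ (cvs Bk G T).length ≤ 2 ^ L := by
    intro T hT
    calc d ^ (cvs Bk G T).length ≤ (2 ^ lam) ^ (cvs Bk G T).length := Nat.pow_le_pow_left hlam _
      _ ≤ (2 ^ lam) ^ (K * (nvC F / Bk + 1)) :=
          Nat.pow_le_pow_right (Nat.pow_pos (by norm_num)) (hcv T hT)
      _ = 2 ^ L := by rw [hL, ← pow_mul]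
  have hcov : ∀ T ∈ D, ∀ p ∈ mem Bk G T, ∀ w ∈ p.1.tail, w ∈ cvs Bk G T := by
    intro T _ p hp w hw
    obtain ⟨h1, rfl⟩ := (hmem T p).1 hp
    exact c1 p.1 (hzip p h1) w hw
  have hS := fun T (hT : T ∈ D) => hs d g ar φ C Bk h s fuel L G T hd hφ hC hh hsd (hne T hT)
    (hdL T hT) hfuel (hcov T hT)
  -- numbers
  obtain ⟨mm, hmm⟩ : ∃ mm : List ℕ → ℕ, mm = fun T => (mem Bk G T).length := ⟨_, rfl⟩
  obtain ⟨r, hr⟩ : ∃ r : List ℕ → ℕ, r = fun T => mydiv (Q * (mem Bk G T).length) G.length :=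
    ⟨_, rfl⟩
  have hsum : ∑ T ∈ D.toFinset, mm T = G.length := by
    have h1 := sms_part (fun p : List (List Bool) × ℕ => key Bk G p.1) (fun _ => 1) D.toFinset
      G.zipIdx (by
        intro p hp
        rw [List.mem_toFinset, hDm]
        exact ⟨p.1, hzip p hp, rfl⟩)
    rw [sms_len, List.length_zipIdx] at h1
    rw [← h1, hmm]
    refine Finset.sum_congr rfl fun T _ => ?_
    rw [sms_len]
    rfl
  have hDne : D.toFinset.Nonempty := by
    have hG0 : G ≠ [] := by
      intro h0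
      rw [h0] at hGl
      simp at hGl
      omega
    obtain ⟨c, hcG⟩ := List.exists_mem_of_ne_nil G hG0
    exact ⟨key Bk G c, by rw [List.mem_toFinset, hDm]; exact ⟨c, hcG, rfl⟩⟩
  have hrT : ∀ T ∈ D.toFinset, r T = Q * mm T / ∑ T ∈ D.toFinset, mm T := by
    intro T _
    rw [hsum, hr, hmm]
    exact mydiv_eq (by omega)
  have hm1 : ∀ T ∈ D.toFinset, 1 ≤ mm T := by
    intro T hT
    rw [hmm]
    exact List.length_pos_iff.2 (hne T (List.mem_toFinset.1 hT))
  have hcardD : D.toFinset.card ≤ (Bk + 1) ^ K := by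
    rw [List.toFinset_card_of_nodup hDn]
    exact c3
  obtain ⟨R, hR⟩ : ∃ R, R = ∑ T ∈ D.toFinset, r T := ⟨_, rfl⟩
  -- the sample
  obtain ⟨P, hP⟩ : ∃ P, P = smp (tabV φ) d C Bk h s Q fuel G := ⟨_, rfl⟩
  have hPe : P = D.flatMap (fun T => (List.replicate (r T)
      (smpT (tabV φ) d C Bk h s fuel G T)).flatten) := by
    rw [hP, hD, hr]
    rfl
  have hPs : ∀ f : ℕ → ℕ, (P.map f).sum =
      ∑ T ∈ D.toFinset, r T * ((smpT (tabV φ) d C Bk h s fuel G T).map f).sum := by
    intro f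
    rw [hPe, sms_flat, ← List.sum_toFinset _ hDn]
    exact Finset.sum_congr rfl fun T _ => sms_rep f _ _
  have hPl : P.length = R * s := by
    rw [← sms_len, hPs, hR, Finset.sum_mul]
    refine Finset.sum_congr rfl fun T hT => ?_
    rw [sms_len, (hS T (List.mem_toFinset.1 hT)).1]
  have hPi : ∀ i ∈ P, i < F.length := by
    intro i hi
    rw [hPe, List.mem_flatMap] at hi
    obtain ⟨T, hT, hi⟩ := hi
    rw [List.mem_flatten] at hi
    obtain ⟨l, hl, hi⟩ := hi
    have hl' := List.eq_of_mem_replicate hl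
    rw [hl'] at hi
    obtain ⟨c, hci, _⟩ := (hS T hT).2.1 i hi
    rw [← hGl]
    exact (List.getElem?_eq_some_iff.1 hci).1
  -- the averages
  have key : ∀ a : ℕ → Fin d, 0 < R ∧ R ≤ Q ∧
      |(valC φ a (P.filterMap (fun i => F[i]?)) : ℚ) / P.length -
        (valC φ a F : ℚ) / F.length| ≤
      2 * C / h + 2 * ((Bk + 1) ^ K : ℕ) * C / (Q - ((Bk + 1) ^ K : ℕ)) := by
    intro a
    obtain ⟨A, hA⟩ : ∃ A : List Bool → ℕ, A = fun w => ((a (unbits w) : Fin d) : ℕ) := ⟨_, rfl⟩
    have hAd : ∀ w, A w < d := fun w => by rw [hA]; exact (a (unbits w)).2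
    have hAt : ∀ c : Con ar, payW (tabV φ) A (wordC c) = φ c.1 (fun j => a (c.2 j)) := by
      intro c
      rw [hA]
      exact t1 a c
    obtain ⟨U, hU⟩ : ∃ U : List ℕ → ℕ, U = fun T =>
      ((smpT (tabV φ) d C Bk h s fuel G T).map (fun i => payW (tabV φ) A (G.getD i []))).sum :=
        ⟨_, rfl⟩
    obtain ⟨W, hW⟩ : ∃ W : List ℕ → ℕ, W = fun T =>
      ((mem Bk G T).map (fun p => payW (tabV φ) A p.1)).sum := ⟨_, rfl⟩
    have hsQ : (0 : ℚ) < s := by exact_mod_cast hs1
    have hu : ∀ T ∈ D.toFinset, 0 ≤ (U T : ℚ) / s ∧ (U T : ℚ) / s ≤ C := by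
      intro T hT
      refine ⟨div_nonneg (Nat.cast_nonneg _) (Nat.cast_nonneg _), ?_⟩
      rw [div_le_iff₀ hsQ]
      have h1 : U T ≤ C * s := by
        have h2 := sms_le (fun i => payW (tabV φ) A (G.getD i []))
          (smpT (tabV φ) d C Bk h s fuel G T) C fun i _ => t3 C A _ hφ
        rw [(hS T (List.mem_toFinset.1 hT)).1] at h2
        rw [hU]
        exact h2
      exact_mod_cast h1
    have hv : ∀ T ∈ D.toFinset, |(U T : ℚ) / s - (W T : ℚ) / mm T| ≤ 2 * C / h := by
      intro T hT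
      have h1 := (hS T (List.mem_toFinset.1 hT)).2.2 A hAd
      rw [hU, hW, hmm]
      exact h1
    obtain ⟨k1, k2, k3⟩ := hm (List ℕ) D.toFinset mm r Q ((Bk + 1) ^ K)
      (fun T => (U T : ℚ) / s) (fun T => (W T : ℚ) / mm T) C (2 * C / h) hDne hcardD hκ hm1 hrT
      hu hv
    rw [← hR] at k1 k2
    refine ⟨k1, k2, ?_⟩
    have hRQ : (0 : ℚ) < R := by exact_mod_cast k1
    have e1 : (valC φ a (P.filterMap (fun i => F[i]?)) : ℚ) / P.length =
        (∑ T ∈ D.toFinset, (r T : ℚ) * ((U T : ℚ) / s)) / (∑ T ∈ D.toFinset, (r T : ℚ)) := by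
      rw [sms_val φ F A a hAt P hPi, ← hG, hPs, hPl]
      have e2 : (∑ T ∈ D.toFinset, (r T : ℚ)) = R := by rw [hR]; push_cast; rfl
      have e3 : (∑ T ∈ D.toFinset, (r T : ℚ) * ((U T : ℚ) / s)) =
          (∑ T ∈ D.toFinset, (r T : ℚ) * (U T : ℚ)) / s := by
        rw [Finset.sum_div]
        exact Finset.sum_congr rfl fun T _ => by rw [mul_div_assoc]
      rw [e2, e3, div_div, mul_comm (s : ℚ) (R : ℚ)]
      rw [hU]
      push_cast
      rfl
    have e4 : (valC φ a F : ℚ) / F.length =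
        (∑ T ∈ D.toFinset, (mm T : ℚ) * ((W T : ℚ) / mm T)) /
          (∑ T ∈ D.toFinset, (mm T : ℚ)) := by
      have e5 : (∑ T ∈ D.toFinset, (mm T : ℚ)) = F.length := by
        rw [← hGl, ← hsum]; push_cast; rfl
      have e6 : (∑ T ∈ D.toFinset, (mm T : ℚ) * ((W T : ℚ) / mm T)) =
          ∑ T ∈ D.toFinset, (W T : ℚ) := by
        refine Finset.sum_congr rfl fun T hT => ?_
        have : (mm T : ℚ) ≠ 0 := by
          have := hm1 T hT
          exact_mod_cast (by omega : mm T ≠ 0)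
        field_simp
      have e7 : ∑ T ∈ D.toFinset, W T = valC φ a F := by
        have h1 := sms_part (fun p : List (List Bool) × ℕ => SP.key Bk G p.1)
          (fun p => payW (tabV φ) A p.1) D.toFinset G.zipIdx (by
            intro p hp
            rw [List.mem_toFinset, hDm]
            exact ⟨p.1, hzip p hp, rfl⟩)
        rw [sms_zip G (payW (tabV φ) A)] at h1
        have h2 : (G.map (payW (tabV φ) A)).sum = valC φ a F := by
          rw [hG, List.map_map]
          unfold valC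
          congr 1
          refine List.map_congr_left fun c _ => ?_
          exact hAt c
        rw [← h2, ← h1, hW]
        rfl
      rw [e5, e6, ← e7]
      push_cast
      rfl
    rw [e1, e4]
    exact k3
  have hR0 := key (fun _ => ⟨0, hd⟩)
  refine ⟨P, hP, ?_, hPi, ?_, fun a => (key a).2.2⟩
  · intro h0
    have h1 : P.length = 0 := by rw [h0]; rfl
    rw [hPl] at h1
    have h2 : 0 < R * s := Nat.mul_pos hR0.1 hs1
    omega
  · rw [hPl]
    exact Nat.mul_le_mul_right _ hR0.2.1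

end Pool.Agent.Lib.MP_87d05f_lc.SP
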